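import Pool.Agent.VCS.Targets

set_option autoImplicit false

open Finset

namespace Pool.Agent.VCS

universe u

lemma CO_fiber {X : Type u} [Fintype X] [DecidableEq X] (K : ℕ) (i : Fin K) (W : Finset X) :
    (univ.filter fun χ : X → Fin K => (univ.filter fun x => χ x = i) = W).card =
      (K - 1) ^ (Wᶜ).card := by
  have h1 : (univ.filter fun χ : X → Fin K => (univ.filter fun x => χ x = i) = W) =
      Fintype.piFinset fun x => if x ∈ W then {i} else univ.erase i := by
    ext χ
    simp only [mem_filter, mem_univ, true_and, Fintype.mem_piFinset]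
    constructor
    · rintro rfl x
      by_cases hx : χ x = i
      · simp [hx]
      · simp [hx]
    · intro h
      ext x
      have := h x
      by_cases hx : x ∈ W
      · simpa [hx] using this
      · simpa [hx] using this
  rw [h1, Fintype.card_piFinset]
  have h2 : ∀ x, ((if x ∈ W then {i} else univ.erase i : Finset (Fin K))).card =
      if x ∈ W then 1 else K - 1 := by
    intro x
    split_ifs
    · simp
    · rw [card_erase_of_mem (mem_univ _), card_univ, Fintype.card_fin]
  rw [prod_congr rfl fun x _ => h2 x, prod_ite, prod_const_one, one_mul, prod_const]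
  congr 2
  ext x; simp

theorem p_CO : T_CO.{u} := by
  intro X _ _ K i P _
  have hK : 1 ≤ K := by have := i.2; omega
  have hK0 : (0 : ℝ) < K := by exact_mod_cast hK
  have h1 : (univ.filter fun χ : X → Fin K => P (univ.filter fun x => χ x = i)).card =
      ∑ W : Finset X, if P W then (K - 1) ^ (Wᶜ).card else 0 := by
    rw [card_eq_sum_card_fiberwise (f := fun χ : X → Fin K => univ.filter fun x => χ x = i)
      (t := (univ : Finset (Finset X))) (fun χ _ => by simp)]
    refine sum_congr rfl fun W _ => ?_
    rw [filter_filter]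
    by_cases hW : P W
    · rw [if_pos hW, ← CO_fiber K i W]
      congr 1
      ext χ
      simp only [mem_filter, mem_univ, true_and]
      constructor
      · exact fun h => h.2
      · exact fun h => ⟨by rw [h]; exact hW, h⟩
    · rw [if_neg hW, card_eq_zero, filter_eq_empty_iff]
      rintro χ - ⟨h2, h3⟩
      rw [h3] at h2
      exact hW h2
  rw [h1, Ex, mul_sum]
  push_cast
  refine sum_congr rfl fun W _ => ?_
  by_cases hW : P W
  · rw [if_pos hW, if_pos hW, mul_one, wt, card_compl]
    have h2 : (K : ℝ) ^ Fintype.card X =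
        (K : ℝ) ^ W.card * (K : ℝ) ^ (Fintype.card X - W.card) := by
      rw [← pow_add]
      congr 1
      have := card_le_univ W
      omega
    have h3 : (K : ℝ) ^ W.card * (1 / (K : ℝ)) ^ W.card = 1 := by
      rw [← mul_pow, mul_one_div_cancel hK0.ne', one_pow]
    have h4 : (K : ℝ) ^ (Fintype.card X - W.card) * (1 - 1 / (K : ℝ)) ^ (Fintype.card X - W.card) =
        ((K : ℝ) - 1) ^ (Fintype.card X - W.card) := by
      rw [← mul_pow, mul_sub, mul_one, mul_one_div_cancel hK0.ne']
    rw [h2]
    rw [Nat.cast_sub hK, Nat.cast_one, ← h4]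
    calc (K : ℝ) ^ (Fintype.card X - W.card) * (1 - 1 / (K : ℝ)) ^ (Fintype.card X - W.card)
        = ((K : ℝ) ^ W.card * (1 / (K : ℝ)) ^ W.card) *
          ((K : ℝ) ^ (Fintype.card X - W.card) *
            (1 - 1 / (K : ℝ)) ^ (Fintype.card X - W.card)) := by rw [h3, one_mul]
      _ = _ := by ring
  · rw [if_neg hW, if_neg hW, mul_zero, mul_zero]

end Pool.Agent.VCS
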