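import Pool.Agent.VCS.Targets

/-!
# Project VCS, target EC: the union of two independent random sets
-/

set_option autoImplicit false

noncomputable section

open Finset

namespace Pool.Agent.VCS

universe u

/-- The expectation for the product measure on the subsets of `s`. -/
def EC_E {X : Type u} [DecidableEq X] (s : Finset X) (c : ℝ) (f : Finset X → ℝ) : ℝ :=
  ∑ W ∈ s.powerset, c ^ W.card * (1 - c) ^ (s \ W).card * f W

theorem EC_step {X : Type u} [DecidableEq X] (s : Finset X) (x : X) (hx : x ∉ s) (c : ℝ)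
    (f : Finset X → ℝ) :
    EC_E (insert x s) c f = (1 - c) * EC_E s c f + c * EC_E s c (fun W => f (insert x W)) := by
  unfold EC_E
  rw [sum_powerset_insert hx, mul_sum, mul_sum]
  congr 1
  · refine sum_congr rfl fun W hW => ?_
    have hxW : x ∉ W := fun h => hx (mem_powerset.mp hW h)
    rw [insert_sdiff_of_notMem _ hxW, card_insert_of_notMem (fun h => hx (mem_sdiff.mp h).1)]
    ring
  · refine sum_congr rfl fun W hW => ?_
    have hxW : x ∉ W := fun h => hx (mem_powerset.mp hW h)
    have h1 : insert x s \ insert x W = s \ W := by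
      ext y
      simp only [mem_sdiff, mem_insert]
      constructor
      · rintro ⟨h2 | h2, h3⟩
        · exact absurd (Or.inl h2) h3
        · exact ⟨h2, fun h4 => h3 (Or.inr h4)⟩
      · rintro ⟨h2, h3⟩
        refine ⟨Or.inr h2, ?_⟩
        rintro (h4 | h4)
        · exact hx (h4 ▸ h2)
        · exact h3 h4
    rw [h1, card_insert_of_notMem hxW]
    ring

theorem EC_add {X : Type u} [DecidableEq X] (s : Finset X) (c a b : ℝ) (f g : Finset X → ℝ) :
    EC_E s c (fun W => a * f W + b * g W) = a * EC_E s c f + b * EC_E s c g := by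
  unfold EC_E
  rw [mul_sum, mul_sum, ← sum_add_distrib]
  exact sum_congr rfl fun W _ => by ring

theorem EC_main {X : Type u} [DecidableEq X] (a b : ℝ) (s : Finset X) :
    ∀ f : Finset X → ℝ, EC_E s a (fun W₁ => EC_E s b (fun W₂ => f (W₁ ∪ W₂))) =
      EC_E s (1 - (1 - a) * (1 - b)) f := by
  induction s using Finset.induction_on with
  | empty =>
    intro f
    simp [EC_E]
  | insert x s hx ih =>
    intro f
    rw [EC_step s x hx, EC_step s x hx]
    have e1 : (fun W₁ => EC_E (insert x s) b (fun W₂ => f (W₁ ∪ W₂))) = fun W₁ =>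
        (1 - b) * EC_E s b (fun W₂ => f (W₁ ∪ W₂)) +
          b * EC_E s b (fun W₂ => f (insert x (W₁ ∪ W₂))) := by
      funext W₁
      rw [EC_step s x hx]
      simp only [union_insert]
    have e2 : (fun W₁ => EC_E (insert x s) b (fun W₂ => f (insert x W₁ ∪ W₂))) = fun W₁ =>
        (1 - b) * EC_E s b (fun W₂ => f (insert x (W₁ ∪ W₂))) +
          b * EC_E s b (fun W₂ => f (insert x (W₁ ∪ W₂))) := by
      funext W₁
      rw [EC_step s x hx]
      simp only [union_insert, insert_union, insert_idem]
    rw [e1, e2, EC_add, EC_add, ih f, ih (fun W => f (insert x W))]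
    ring

theorem EC_univ {X : Type u} [Fintype X] [DecidableEq X] (c : ℝ) (f : Finset X → ℝ) :
    Ex c f = EC_E univ c f := by
  unfold Ex EC_E wt
  rw [powerset_univ]
  exact sum_congr rfl fun W _ => by rw [compl_eq_univ_sdiff]

theorem p_EC : T_EC.{u} := by
  intro X _ _ a b f
  have e1 : (fun W₁ => Ex b (fun W₂ => f (W₁ ∪ W₂))) = fun W₁ =>
      EC_E univ b (fun W₂ => f (W₁ ∪ W₂)) := by
    funext W₁
    exact EC_univ b _
  rw [EC_univ, EC_univ, e1]
  exact EC_main a b univ f

end Pool.Agent.VCS
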