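import Pool.Agent.VCS.Targets

set_option autoImplicit false

open Finset

namespace Pool.Agent.VCS

universe u

lemma EX_geom (s M : ℕ) : ∑ t ∈ Icc (s + 1) M, (1 / 8 : ℝ) ^ t ≤ (1 / 8) ^ s := by
  have key : ∀ M, ∑ t ∈ Icc (s + 1) (s + M), (1 / 8 : ℝ) ^ t ≤
      (1 / 8) ^ s - (1 / 8) ^ (s + M) := by
    intro M
    induction M with
    | zero => simp
    | succ M ih =>
      rw [← add_assoc, sum_Icc_succ_top (by omega)]
      have e : (1 / 8 : ℝ) ^ (s + M) = 8 * (1 / 8) ^ (s + M + 1) := by rw [pow_succ]; ring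
      have hp : (0 : ℝ) ≤ (1 / 8) ^ (s + M + 1) := by positivity
      linarith
  rcases le_or_gt M s with h | h
  · rw [Icc_eq_empty (by omega), sum_empty]; positivity
  · obtain ⟨N, rfl⟩ := Nat.exists_eq_add_of_lt h
    have := key (N + 1)
    rw [← add_assoc] at this
    have hp : (0 : ℝ) ≤ (1 / 8) ^ (s + N + 1) := by positivity
    linarith

theorem p_EX : T_EX.{u} := by
  intro X _ _ p q R s hp hq hq1 hqR hmeet
  have hR : (0 : ℝ) < R := by
    by_contra hcon
    have : q * (R : ℝ) ≤ 0 := mul_nonpos_of_nonneg_of_nonpos hq.le (not_lt.mp hcon)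
    linarith
  set g := 1 + 1 / q with hg
  have hg1 : 1 ≤ g := by
    have : 0 < 1 / q := by positivity
    linarith
  have hg0 : 0 < g := by linarith
  set M := Fintype.card X with hM
  -- pointwise
  have hpt : ∀ A₀ A : Finset X, s < (A ∩ A₀).card →
      g ^ (A ∩ A₀).card ≤ ∑ t ∈ Icc (s + 1) M, if t ≤ (A ∩ A₀).card then g ^ t else 0 := by
    intro A₀ A h
    have hmem : (A ∩ A₀).card ∈ Icc (s + 1) M := mem_Icc.mpr ⟨h, card_le_univ _⟩
    refine le_trans ?_ (single_le_sum (f := fun t => if t ≤ (A ∩ A₀).card then g ^ t else 0)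
      (fun t _ => ?_) hmem)
    · simp
    · split_ifs
      · positivity
      · exact le_rfl
  calc ∑ A₀, ∑ A with s < (A ∩ A₀).card, p A₀ * p A * g ^ (A ∩ A₀).card
      ≤ ∑ A₀, ∑ A, p A₀ * p A * ∑ t ∈ Icc (s + 1) M, if t ≤ (A ∩ A₀).card then g ^ t else 0 := by
        refine sum_le_sum fun A₀ _ => ?_
        rw [sum_filter]
        refine sum_le_sum fun A _ => ?_
        have hpp : 0 ≤ p A₀ * p A := mul_nonneg (hp _) (hp _)
        split_ifs with h
        · exact mul_le_mul_of_nonneg_left (hpt A₀ A h) hpp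
        · refine mul_nonneg hpp (sum_nonneg fun t _ => ?_)
          split_ifs
          · positivity
          · exact le_rfl
    _ = ∑ t ∈ Icc (s + 1) M, g ^ t * meet p t := by
        simp only [meet, mul_sum]
        rw [sum_congr rfl fun A₀ _ => sum_comm, sum_comm]
        refine sum_congr rfl fun t _ => ?_
        refine sum_congr rfl fun A₀ _ => ?_
        rw [sum_filter]
        refine sum_congr rfl fun A _ => ?_
        rw [inter_comm A A₀]
        split_ifs
        · ring
        · simp
    _ ≤ ∑ t ∈ Icc (s + 1) M, (1 / 8 : ℝ) ^ t := by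
        refine sum_le_sum fun t ht => ?_
        have h1 := hmeet t (by have := (mem_Icc.mp ht).1; omega)
        have h2 : meet p t ≤ 4 ^ t / (R : ℝ) ^ t := by
          rw [le_div_iff₀ (by positivity)]; exact h1
        calc g ^ t * meet p t ≤ g ^ t * (4 ^ t / (R : ℝ) ^ t) := by gcongr
          _ = (4 * g / R) ^ t := by rw [div_pow, mul_pow]; ring
          _ ≤ (1 / 8) ^ t := by
              apply pow_le_pow_left₀ (by positivity)
              rw [div_le_iff₀ hR]
              have h3 : g ≤ 2 / q := by
                rw [hg, le_div_iff₀ hq, add_mul, one_mul, div_mul_cancel₀ _ hq.ne']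
                linarith
              have h4 : 64 / q ≤ R := by
                rw [div_le_iff₀ hq]; linarith
              have h5 : 4 * g ≤ 8 / q := by
                calc 4 * g ≤ 4 * (2 / q) := by linarith
                  _ = 8 / q := by ring
              have h6 : 8 / q = 1 / 8 * (64 / q) := by ring
              linarith
    _ ≤ (1 / 8) ^ s := EX_geom s M

end Pool.Agent.VCS
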