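import Pool.Agent.VCS.Targets

/-!
# Project VCS (MP_2812e0_co): iteration of the rounds
-/

set_option autoImplicit false

noncomputable section

open Finset

namespace Pool.Agent.VCS

universe u

section

variable {X : Type u} [Fintype X] [DecidableEq X]

lemma IT_bad_le {p p' : Finset X → ℝ} {W W' : Finset X}
    (h : ∀ A, 0 < p A → A ⊆ W → ∃ A', 0 < p' A' ∧ A' ⊆ W') : bad p' W' ≤ bad p W := by
  by_cases hW : ∃ A, 0 < p A ∧ A ⊆ W
  · obtain ⟨A, hA, hAW⟩ := hW
    have h1 : bad p' W' = 0 := by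
      unfold bad
      rw [if_pos (h A hA hAW)]
    rw [h1]
    exact bad_nonneg p W
  · have h1 : bad p W = 1 := by
      unfold bad
      rw [if_neg hW]
    rw [h1]
    exact bad_le_one p' W'

lemma IT_up_empty (p : Finset X → ℝ) : up p ∅ = ∑ A, p A := by
  unfold up
  apply Finset.sum_congr _ (fun _ _ => rfl)
  ext A
  simp

end

theorem p_IT (hEC : T_EC.{u}) (hOR : T_OR.{u}) (hLL : T_LL.{u}) : T_IT.{u} := by
  intro X _ _ q R hq0 hq1 hqR n
  have hc0 : ∀ m : ℕ, 0 ≤ 1 - (1 - q) ^ m := fun m => by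
    have := pow_le_one₀ (n := m) (show 0 ≤ 1 - q by linarith) (by linarith)
    linarith
  have hc1 : ∀ m : ℕ, 1 - (1 - q) ^ m ≤ 1 := fun m => by
    have := pow_nonneg (show 0 ≤ 1 - q by linarith) m
    linarith
  induction n with
  | zero =>
    intro ℓ p _ _ _ _
    refine (Ex_mono (hc0 0) (hc1 0) (bad_le_one p)).trans ?_
    rw [Ex_const, pow_zero, div_one]
    exact one_le_pow₀ (by norm_num)
  | succ n ih =>
    intro ℓ p hp hcard hmass hup
    rcases ℓ with _ | ℓ
    · have h1 : ∃ A, 0 < p A := by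
        by_contra hno
        push Not at hno
        have h2 : ∑ A, p A ≤ 0 := Finset.sum_nonpos fun A _ => hno A
        norm_num at hmass
        linarith
      obtain ⟨A, hA⟩ := h1
      have hA0 : A = ∅ := by
        have := hcard A hA
        rw [pow_zero, Nat.lt_one_iff, Finset.card_eq_zero] at this
        exact this
      have h2 : ∀ W, bad p W ≤ 0 := by
        intro W
        unfold bad
        rw [if_pos ⟨A, hA, by rw [hA0]; exact Finset.empty_subset _⟩]
      refine (Ex_mono (hc0 (n + 1)) (hc1 (n + 1)) h2).trans ?_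
      rw [Ex_const]
      positivity
    · -- the main step
      set s : ℕ := 2 ^ ℓ - 1 with hs
      have hs1 : s + 1 = 2 ^ ℓ := by
        have := Nat.one_le_two_pow (n := ℓ)
        omega
      set L : ℝ := 1 / 2 * (1 / 16) ^ (s + 1) with hL
      have hL0 : 0 ≤ L := by positivity
      obtain ⟨p', hp'0, hp'1, hp'2, hp'3⟩ := hOR X p q L s hp hq0 hq1 hL0 (by
        intro A₀ hA₀
        apply hLL X p q R s A₀ hp hq0 hqR hup
        have h1 := hcard A₀ hA₀
        rw [pow_succ] at h1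
        omega)
      set θ : ℝ := (1 / 2) ^ (ℓ + 3) with hθ
      have hθ0 : 0 < θ := by positivity
      set c : ℝ := 1 - (1 - q) ^ n with hc
      set loss : Finset X → ℝ := fun W => ∑ A, p A - ∑ T, p' W T with hloss
      have hloss0 : ∀ W, 0 ≤ loss W := by
        intro W
        have h1 := hp'2 W ∅
        rw [IT_up_empty, IT_up_empty] at h1
        rw [hloss]
        simp only
        linarith
      have hF : ∀ W₁, Ex c (fun W₂ => bad p (W₁ ∪ W₂)) ≤
          (4 : ℝ) ^ ℓ / 2 ^ n + (4 : ℝ) ^ (ℓ + 1) / 2 ^ n / θ * loss W₁ := by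
        intro W₁
        by_cases hfine : loss W₁ ≤ θ
        · have h1 : Ex c (fun W₂ => bad p (W₁ ∪ W₂)) ≤ Ex c (bad (p' W₁)) := by
            apply Ex_mono (hc0 n) (hc1 n)
            intro W₂
            apply IT_bad_le
            intro T hT hTW
            obtain ⟨_, A, hA, hAT⟩ := hp'1 W₁ T hT
            refine ⟨A, hA, hAT.trans ?_⟩
            rw [Finset.union_comm]
            exact Finset.union_subset_union_right hTW
          have h2 := ih ℓ (p' W₁) (hp'0 W₁) (fun T hT => by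
            have := (hp'1 W₁ T hT).1
            omega) (by
            have e1 : (1 / 2 : ℝ) ^ (ℓ + 2) = 2 * θ := by rw [hθ]; ring
            have e2 : 1 / 2 - θ ≤ ∑ A, p A := hmass
            rw [e1]
            have e3 : ∑ A, p A - ∑ T, p' W₁ T ≤ θ := hfine
            linarith) (fun T => by
            exact (mul_le_mul_of_nonneg_right (hp'2 W₁ T) (by positivity)).trans (hup T))
          have h3 : 0 ≤ (4 : ℝ) ^ (ℓ + 1) / 2 ^ n / θ * loss W₁ :=
            mul_nonneg (by positivity) (hloss0 W₁)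
          linarith
        · have h1 : Ex c (fun W₂ => bad p (W₁ ∪ W₂)) ≤ Ex c (bad p) := by
            apply Ex_mono (hc0 n) (hc1 n)
            intro W₂
            apply IT_bad_le
            intro A hA hAW
            exact ⟨A, hA, hAW.trans Finset.subset_union_right⟩
          have h2 := ih (ℓ + 1) p hp hcard hmass hup
          have h3 : (4 : ℝ) ^ (ℓ + 1) / 2 ^ n ≤ (4 : ℝ) ^ (ℓ + 1) / 2 ^ n / θ * loss W₁ := by
            rw [div_mul_eq_mul_div, le_div_iff₀ hθ0]
            exact mul_le_mul_of_nonneg_left (not_le.1 hfine).le (by positivity)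
          have h4 : (0 : ℝ) ≤ (4 : ℝ) ^ ℓ / 2 ^ n := by positivity
          linarith
      have hEx : Ex (1 - (1 - q) ^ (n + 1)) (bad p) =
          Ex q (fun W₁ => Ex c (fun W₂ => bad p (W₁ ∪ W₂))) := by
        rw [hEC X q c (bad p)]
        congr 1
        rw [hc]
        ring
      rw [hEx]
      refine (Ex_mono hq0.le hq1 hF).trans ?_
      rw [Ex_add, Ex_const, Ex_smul]
      have h5 : Ex q loss ≤ L := hp'3
      have h6 : L / θ ≤ 1 / 4 := by
        rw [div_le_iff₀ hθ0, hL, hθ, hs1]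
        have e1 : ℓ + 4 ≤ 4 * 2 ^ ℓ := by
          have := Nat.lt_two_pow_self (n := ℓ)
          omega
        have e2 : (1 / 16 : ℝ) ^ (2 ^ ℓ) = (1 / 2) ^ (4 * 2 ^ ℓ) := by
          rw [pow_mul]
          norm_num
        have e3 : (1 / 2 : ℝ) ^ (4 * 2 ^ ℓ) ≤ (1 / 2) ^ (ℓ + 4) :=
          pow_le_pow_of_le_one (by norm_num) (by norm_num) e1
        rw [e2]
        calc 1 / 2 * (1 / 2 : ℝ) ^ (4 * 2 ^ ℓ) ≤ 1 / 2 * (1 / 2) ^ (ℓ + 4) := by linarith
          _ = 1 / 4 * (1 / 2) ^ (ℓ + 3) := by ring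
      calc (4 : ℝ) ^ ℓ / 2 ^ n + (4 : ℝ) ^ (ℓ + 1) / 2 ^ n / θ * Ex q loss
          ≤ (4 : ℝ) ^ ℓ / 2 ^ n + (4 : ℝ) ^ (ℓ + 1) / 2 ^ n / θ * L := by
            have : 0 ≤ (4 : ℝ) ^ (ℓ + 1) / 2 ^ n / θ := by positivity
            have := mul_le_mul_of_nonneg_left h5 this
            linarith
        _ = (4 : ℝ) ^ ℓ / 2 ^ n + (4 : ℝ) ^ (ℓ + 1) / 2 ^ n * (L / θ) := by ring
        _ ≤ (4 : ℝ) ^ ℓ / 2 ^ n + (4 : ℝ) ^ (ℓ + 1) / 2 ^ n * (1 / 4) := by
            have : 0 ≤ (4 : ℝ) ^ (ℓ + 1) / 2 ^ n := by positivity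
            have := mul_le_mul_of_nonneg_left h6 this
            linarith
        _ = (4 : ℝ) ^ (ℓ + 1) / 2 ^ (n + 1) := by
            rw [pow_succ, pow_succ]
            field_simp
            norm_num

end Pool.Agent.VCS
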