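import Pool.Agent.VCS.Targets

/-!
# Project VCS (MP_2812e0_co): target LA
-/

set_option autoImplicit false

open Finset

namespace Pool.Agent.VCS

universe u

lemma LA_fib {α β : Type*} [Fintype β] [DecidableEq β] (s : Finset α) (f : α → β)
    (Q : β → Prop) [DecidablePred Q] :
    ∑ b with Q b, ((s.filter fun a => f a = b).card : ℝ) / s.card =
      ((s.filter fun a => Q (f a)).card : ℝ) / s.card := by
  rw [← sum_div]
  congr 1
  rw [card_eq_sum_card_fiberwise (f := f) (t := univ.filter Q)]
  · push_cast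
    refine sum_congr rfl fun b hb => ?_
    congr 2
    ext a
    simp only [mem_filter, mem_univ, true_and] at hb ⊢
    constructor
    · rintro ⟨h1, h2⟩
      exact ⟨⟨h1, by rw [h2]; exact hb⟩, h2⟩
    · rintro ⟨⟨h1, _⟩, h2⟩
      exact ⟨h1, h2⟩
  · intro a ha
    have := (mem_filter.mp ha).2
    simpa using this

/-- The number of colourings which are prescribed on `V`. -/
lemma LA_cnt {X : Type u} [Fintype X] [DecidableEq X] {K k : ℕ} (hk : k ≤ K)
    (V : Finset (X × Fin k)) :
    K ^ V.card * (univ.filter fun χ : X → Fin K => ∀ z ∈ V, χ z.1 = Fin.castLE hk z.2).card ≤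
      K ^ Fintype.card X := by
  classical
  rcases (univ.filter fun χ : X → Fin K =>
    ∀ z ∈ V, χ z.1 = Fin.castLE hk z.2).eq_empty_or_nonempty with h0 | ⟨χ₀, h0⟩
  · rw [h0]; simp
  have hinj : Set.InjOn (Prod.fst : X × Fin k → X) (V : Set (X × Fin k)) := by
    intro z hz z' hz' e
    have h1 := (mem_filter.mp h0).2 z (by simpa using hz)
    have h2 := (mem_filter.mp h0).2 z' (by simpa using hz')
    rw [e] at h1
    exact Prod.ext e (Fin.castLE_injective hk (h1.symm.trans h2))
  have hc : (V.image Prod.fst).card = V.card := card_image_of_injOn hinj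
  have hle : (univ.filter fun χ : X → Fin K => ∀ z ∈ V, χ z.1 = Fin.castLE hk z.2).card ≤
      (univ : Finset ({x // x ∈ (V.image Prod.fst)ᶜ} → Fin K)).card := by
    refine card_le_card_of_injOn (fun χ x => χ x.1) (fun _ _ => by simp) ?_
    intro χ hχ χ' hχ' e
    have hχ := (mem_filter.mp (mem_coe.mp hχ)).2
    have hχ' := (mem_filter.mp (mem_coe.mp hχ')).2
    funext x
    by_cases hx : x ∈ V.image Prod.fst
    · obtain ⟨z, hz, rfl⟩ := mem_image.mp hx
      rw [hχ z hz, hχ' z hz]
    · exact congrFun e ⟨x, mem_compl.mpr hx⟩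
  rw [card_univ, Fintype.card_fun, Fintype.card_coe, Fintype.card_fin, card_compl, hc] at hle
  have hVn : V.card ≤ Fintype.card X := by
    rw [← hc]; exact card_le_univ _
  calc _ ≤ K ^ V.card * K ^ (Fintype.card X - V.card) := Nat.mul_le_mul_left _ hle
    _ = K ^ Fintype.card X := by rw [← pow_add, Nat.add_sub_cancel' hVn]

lemma LA_slice_le {X : Type u} [Fintype X] [DecidableEq X] {k : ℕ} (Y : Finset (X × Fin k))
    (i : Fin k) : (slice Y i).card ≤ Y.card := by
  refine card_le_card_of_injOn (fun x => (x, i)) ?_ ?_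
  · intro x hx
    exact mem_slice.mp hx
  · intro x _ y _ e
    exact (Prod.ext_iff.mp e).1

theorem p_LA : T_LA.{u} := by
  classical
  intro X _ _ G U d K k hk hGne hT hk1 hcnt
  set 𝒢 := (univ.filter fun χ : X → Fin K =>
    ∀ i : Fin k, ∃ S ∈ G, ∀ x ∈ S \ U, χ x = Fin.castLE hk i) with h𝒢
  have hK : 0 < K := by omega
  have hpos : 0 < 𝒢.card := by
    have : 0 < K ^ Fintype.card X := by positivity
    omega
  have hch : ∀ χ : X → Fin K, ∃ S : Fin k → Finset X, χ ∈ 𝒢 →
      ∀ i, S i ∈ G ∧ ∀ x ∈ S i \ U, χ x = Fin.castLE hk i := by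
    intro χ
    by_cases h : χ ∈ 𝒢
    · have h2 := (mem_filter.mp h).2
      choose S hS using h2
      exact ⟨S, fun _ i => hS i⟩
    · exact ⟨fun _ => ∅, fun h' => absurd h' h⟩
  choose Sf hSf using hch
  let B : (X → Fin K) → Finset (X × Fin k) := fun χ =>
    univ.filter fun z : X × Fin k => z.1 ∈ Sf χ z.2 \ U
  have hB : ∀ χ z, z ∈ B χ ↔ z.1 ∈ Sf χ z.2 \ U := by
    intro χ z; simp [B]
  have hBχ : ∀ χ ∈ 𝒢, ∀ z ∈ B χ, χ z.1 = Fin.castLE hk z.2 := by
    intro χ hχ z hz
    exact (hSf χ hχ z.2).2 z.1 ((hB χ z).mp hz)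
  refine ⟨fun B₀ => ((𝒢.filter fun χ => B χ = B₀).card : ℝ) / 𝒢.card, ⟨?_, ?_, ?_⟩, ?_⟩
  · intro A; positivity
  · have h := LA_fib 𝒢 B (fun _ => True)
    simp only [filter_true] at h
    rw [h]
    exact div_self (by exact_mod_cast hpos.ne')
  · intro Y t
    rw [LA_fib 𝒢 B (fun A => t ≤ (A ∩ Y).card)]
    have hposR : (0 : ℝ) < 𝒢.card := by exact_mod_cast hpos
    rw [← mul_div_assoc, div_le_iff₀ hposR]
    -- the image
    have himg : (𝒢.image fun χ => B χ ∩ Y).card ≤ (Y.card + 1) ^ (k * d) := by
      have h1 : (𝒢.image fun χ => B χ ∩ Y).card ≤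
          (Fintype.piFinset fun i : Fin k => G.image fun S => S ∩ (slice Y i \ U)).card := by
        refine card_le_card_of_injOn (fun V i => slice V i) ?_ ?_
        · intro V hV
          obtain ⟨χ, hχ, rfl⟩ := mem_image.mp (mem_coe.mp hV)
          refine mem_coe.mpr (Fintype.mem_piFinset.mpr fun i => ?_)
          refine mem_image.mpr ⟨Sf χ i, (hSf χ hχ i).1, ?_⟩
          ext x
          simp only [mem_inter, mem_sdiff, mem_slice, hB]
          tauto
        · intro V _ V' _ e
          ext ⟨x, i⟩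
          have := congrFun e i
          simp only at this
          rw [← mem_slice, ← mem_slice, this]
      refine h1.trans ?_
      rw [Fintype.card_piFinset]
      calc ∏ i : Fin k, (G.image fun S => S ∩ (slice Y i \ U)).card
          ≤ ∏ _i : Fin k, (Y.card + 1) ^ d := by
            refine prod_le_prod' fun i _ => (hT _).trans ?_
            refine Nat.pow_le_pow_left ?_ d
            have := (card_le_card (sdiff_subset (s := slice Y i) (t := U))).trans
              (LA_slice_le Y i)
            omega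
        _ = (Y.card + 1) ^ (k * d) := by
            rw [prod_const, card_univ, Fintype.card_fin, ← pow_mul, mul_comm]
    -- the count
    have hmain : K ^ t * (𝒢.filter fun χ => t ≤ (B χ ∩ Y).card).card ≤
        (Y.card + 1) ^ (k * d) * K ^ Fintype.card X := by
      rw [card_eq_sum_card_fiberwise (f := fun χ => B χ ∩ Y)
        (t := 𝒢.image fun χ => B χ ∩ Y), mul_sum]
      · refine (sum_le_card_nsmul _ _ (K ^ Fintype.card X) ?_).trans ?_
        · intro V _
          rcases ((𝒢.filter fun χ => t ≤ (B χ ∩ Y).card).filter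
            fun χ => B χ ∩ Y = V).eq_empty_or_nonempty with h0 | ⟨χ₀, h0⟩
          · rw [h0]; simp
          have h1 := mem_filter.mp h0
          have htV : t ≤ V.card := by
            rw [← h1.2]; exact (mem_filter.mp h1.1).2
          refine le_trans (Nat.mul_le_mul (Nat.pow_le_pow_right hK htV) (card_le_card ?_))
            (LA_cnt hk V)
          intro χ hχ
          have h2 := mem_filter.mp hχ
          refine mem_filter.mpr ⟨mem_univ _, fun z hz => ?_⟩
          rw [← h2.2] at hz
          exact hBχ χ (mem_filter.mp h2.1).1 z (mem_inter.mp hz).1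
        · rw [smul_eq_mul]
          exact Nat.mul_le_mul_right _ himg
      · intro χ hχ
        have := (mem_filter.mp (mem_coe.mp hχ)).1
        exact mem_coe.mpr (mem_image_of_mem _ this)
    have h3 : K ^ t * (𝒢.filter fun χ => t ≤ (B χ ∩ Y).card).card ≤
        2 * (Y.card + 1) ^ (k * d) * 𝒢.card := by
      calc _ ≤ (Y.card + 1) ^ (k * d) * K ^ Fintype.card X := hmain
        _ ≤ (Y.card + 1) ^ (k * d) * (2 * 𝒢.card) := Nat.mul_le_mul_left _ hcnt
        _ = _ := by ring
    exact_mod_cast h3
  · intro B₀ h0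
    have hne : (𝒢.filter fun χ => B χ = B₀).Nonempty := by
      rw [nonempty_iff_ne_empty]
      intro h
      simp [h] at h0
    obtain ⟨χ, hχ'⟩ := hne
    have hχ := (mem_filter.mp hχ').1
    have hBe := (mem_filter.mp hχ').2
    clear hχ' h0
    subst hBe
    constructor
    · intro x i j hi hj
      have h1 := hBχ χ hχ _ hi
      have h2 := hBχ χ hχ _ hj
      exact Fin.castLE_injective hk (h1.symm.trans h2)
    · intro i
      refine ⟨Sf χ i, (hSf χ hχ i).1, ?_⟩
      ext x
      rw [mem_slice, hB]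

end Pool.Agent.VCS
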