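import Pool.Agent.VCS.Targets

/-! Part LB of project VCS: a law avoiding `J`. -/

set_option autoImplicit false

noncomputable section

open Finset

namespace Pool.Agent.VCS

universe u

open Classical in
/-- The colourings for which all colours `i < k` are good are at least half of all. -/
theorem LB_half {X : Type u} [Fintype X] [DecidableEq X] (G : Finset (Finset X)) (U : Finset X)
    (K k : ℕ) (hkK : k ≤ K) (hk : 1 ≤ k) (e : ℝ) (he : e ≤ 1 / (2 * k))
    (h : ∀ i : Fin K,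
      ((univ.filter fun χ : X → Fin K => ¬ ∃ S ∈ G, ∀ x ∈ S \ U, χ x = i).card : ℝ) ≤
        (K : ℝ) ^ Fintype.card X * e) :
    K ^ Fintype.card X ≤ 2 * (univ.filter fun χ : X → Fin K =>
      ∀ i : Fin k, ∃ S ∈ G, ∀ x ∈ S \ U, χ x = Fin.castLE hkK i).card := by
  have hk0 : (0 : ℝ) < k := by exact_mod_cast hk
  have hsub : (univ.filter fun χ : X → Fin K =>
      ¬ ∀ i : Fin k, ∃ S ∈ G, ∀ x ∈ S \ U, χ x = Fin.castLE hkK i) ⊆
      (univ : Finset (Fin k)).biUnion fun i => univ.filter fun χ : X → Fin K =>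
        ¬ ∃ S ∈ G, ∀ x ∈ S \ U, χ x = Fin.castLE hkK i := by
    intro χ hχ
    rw [mem_filter, not_forall] at hχ
    obtain ⟨_, i, hi⟩ := hχ
    rw [mem_biUnion]
    exact ⟨i, mem_univ _, by rw [mem_filter]; exact ⟨mem_univ _, hi⟩⟩
  have h1 : ((univ.filter fun χ : X → Fin K =>
      ¬ ∀ i : Fin k, ∃ S ∈ G, ∀ x ∈ S \ U, χ x = Fin.castLE hkK i).card : ℝ) ≤
      ∑ i : Fin k, ((univ.filter fun χ : X → Fin K =>
        ¬ ∃ S ∈ G, ∀ x ∈ S \ U, χ x = Fin.castLE hkK i).card : ℝ) := by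
    have := (card_le_card hsub).trans card_biUnion_le
    exact_mod_cast this
  have h2 : (∑ i : Fin k, ((univ.filter fun χ : X → Fin K =>
        ¬ ∃ S ∈ G, ∀ x ∈ S \ U, χ x = Fin.castLE hkK i).card : ℝ)) ≤
      (K : ℝ) ^ Fintype.card X / 2 := by
    have h3 : (∑ i : Fin k, ((univ.filter fun χ : X → Fin K =>
        ¬ ∃ S ∈ G, ∀ x ∈ S \ U, χ x = Fin.castLE hkK i).card : ℝ)) ≤
        ∑ _i : Fin k, (K : ℝ) ^ Fintype.card X * e :=
      sum_le_sum fun i _ => h (Fin.castLE hkK i)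
    refine h3.trans ?_
    rw [sum_const, card_univ, Fintype.card_fin, nsmul_eq_mul]
    have h4 : (K : ℝ) ^ Fintype.card X * e ≤ (K : ℝ) ^ Fintype.card X * (1 / (2 * k)) :=
      mul_le_mul_of_nonneg_left he (by positivity)
    calc (k : ℝ) * ((K : ℝ) ^ Fintype.card X * e)
        ≤ k * ((K : ℝ) ^ Fintype.card X * (1 / (2 * k))) :=
          mul_le_mul_of_nonneg_left h4 hk0.le
      _ = (K : ℝ) ^ Fintype.card X / 2 := by
          field_simp
  have h5 : (univ.filter fun χ : X → Fin K =>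
      ∀ i : Fin k, ∃ S ∈ G, ∀ x ∈ S \ U, χ x = Fin.castLE hkK i).card +
      (univ.filter fun χ : X → Fin K =>
      ¬ ∀ i : Fin k, ∃ S ∈ G, ∀ x ∈ S \ U, χ x = Fin.castLE hkK i).card =
      K ^ Fintype.card X := by
    rw [card_filter_add_card_filter_not, card_univ, Fintype.card_fun, Fintype.card_fin]
  have h6 : ((univ.filter fun χ : X → Fin K =>
      ∀ i : Fin k, ∃ S ∈ G, ∀ x ∈ S \ U, χ x = Fin.castLE hkK i).card : ℝ) +
      ((univ.filter fun χ : X → Fin K =>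
      ¬ ∀ i : Fin k, ∃ S ∈ G, ∀ x ∈ S \ U, χ x = Fin.castLE hkK i).card : ℝ) =
      (K : ℝ) ^ Fintype.card X := by
    exact_mod_cast h5
  have h7 : ((K ^ Fintype.card X : ℕ) : ℝ) ≤ ((2 * (univ.filter fun χ : X → Fin K =>
      ∀ i : Fin k, ∃ S ∈ G, ∀ x ∈ S \ U, χ x = Fin.castLE hkK i).card : ℕ) : ℝ) := by
    push_cast
    linarith
  exact_mod_cast h7

theorem p_LB (hLK : T_LK.{u}) (hON : T_ON.{u}) (hLA : T_LA.{u}) : T_LB.{u} := by
  intro X _ _ F J w R d k ℓ n s hk hd hF hT hR hs hsl hnum hcard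
  have hR2 : 2 ≤ R := by
    have h1 : 1 * 1 ≤ k * (n + 1) := Nat.mul_le_mul hk (by omega)
    have h2 : 64 * (16 * k) * (n + 1) = 1024 * (k * (n + 1)) := by ring
    omega
  obtain ⟨U, G, hGF, hL, hUw, hdis⟩ := hLK X F J w R d hR2 hF hT hcard
  have hTG : TraceBd G d := fun Y => (card_le_card (image_subset_image hGF)).trans (hT Y)
  have hkK : k ≤ 16 * k := by omega
  have hhalf := LB_half G U (16 * k) k hkK hk ((4 : ℝ) ^ ℓ / 2 ^ n + 16 * (1 / 8) ^ s) hnum
    (by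
      intro i
      have := hON X G U R d (16 * k) ℓ n s hL hTG hd (by omega) hR hs hsl i
      convert this using 3)
  obtain ⟨lam, h1, h2⟩ := hLA X G U d (16 * k) k hkK hL.ne hTG hk (by
    convert hhalf using 4)
  refine ⟨lam, h1, fun B hB => ?_⟩
  obtain ⟨h3, h4⟩ := h2 B hB
  refine ⟨h3, ?_, U, ?_⟩
  · intro x i hx hxJ
    obtain ⟨S, hS, hSB⟩ := h4 i
    have hx' : x ∈ S \ U := by rw [← hSB, mem_slice]; exact hx
    exact disjoint_left.1 (hdis S hS) hx' hxJ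
  · intro i
    obtain ⟨S, hS, hSB⟩ := h4 i
    have hUS := hL.sub S hS
    have hSw := hF S (hGF hS)
    refine ⟨?_, ?_, ?_⟩
    · rw [hSB, ← card_pos, card_sdiff_of_subset hUS, hSw]
      omega
    · rw [hSB]
      exact disjoint_sdiff
    · rw [hSB, union_sdiff_of_subset hUS]
      exact hGF hS

end Pool.Agent.VCS
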