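import Pool.Agent.VCS.Targets

/-!
# Project VCS, target LK: links
-/

set_option autoImplicit false

open Finset

namespace Pool.Agent.VCS

universe u

theorem p_LK : T_LK.{u} := by
  intro X _ _ F J w R d hR hw hT hc
  have h1 : (F.image fun S => S ∩ J).card * R ^ w < F.card := by
    calc (F.image fun S => S ∩ J).card * R ^ w ≤ (J.card + 1) ^ d * R ^ w :=
          Nat.mul_le_mul_right _ (hT J)
      _ = R ^ w * (J.card + 1) ^ d := mul_comm _ _
      _ < F.card := hc
  obtain ⟨V, -, hV⟩ := exists_lt_card_fiber_of_mul_lt_card_of_maps_to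
    (fun S hS => mem_image_of_mem (fun S => S ∩ J) hS) h1
  set G₀ := F.filter (fun S => S ∩ J = V) with hG₀
  have hVS : ∀ S ∈ G₀, V ⊆ S := by
    intro S hS
    rw [hG₀, mem_filter] at hS
    rw [← hS.2]
    exact inter_subset_left
  have hcard : ∀ S ∈ G₀, S.card = w := fun S hS => hw S (mem_filter.mp hS).1
  obtain ⟨S₀, hS₀⟩ : G₀.Nonempty := card_pos.mp (by omega)
  have hVw : V.card ≤ w := (card_le_card (hVS S₀ hS₀)).trans (hcard S₀ hS₀).le
  set C := (univ : Finset (Finset X)).filter (fun U => V ⊆ U ∧ U.card ≤ w ∧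
    R ^ (w - U.card) < (G₀.filter fun S => U ⊆ S).card) with hC
  have hVC : V ∈ C := by
    rw [hC, mem_filter]
    refine ⟨mem_univ _, Subset.rfl, hVw, ?_⟩
    rw [filter_true_of_mem hVS]
    exact lt_of_le_of_lt (Nat.pow_le_pow_right (by omega) (Nat.sub_le _ _)) hV
  obtain ⟨U, hU, hmax⟩ := exists_max_image C card ⟨V, hVC⟩
  obtain ⟨-, hVU, hUw, hUc⟩ := mem_filter.mp hU
  set G := G₀.filter (fun S => U ⊆ S) with hG
  have hlt : U.card < w := by
    by_contra h
    have hUw' : U.card = w := by omega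
    have h2 : G ⊆ {U} := by
      intro S hS
      obtain ⟨h3, h4⟩ := mem_filter.mp hS
      rw [mem_singleton]
      exact (eq_of_subset_of_card_le h4 (by rw [hcard S h3, hUw'])).symm
    have h3 := card_le_card h2
    rw [hUw', Nat.sub_self, pow_zero] at hUc
    rw [card_singleton] at h3
    omega
  refine ⟨U, G, ?_, ⟨card_pos.mp (by omega), ?_, ?_⟩, hlt, ?_⟩
  · exact (filter_subset _ _).trans (filter_subset _ _)
  · intro S hS
    exact (mem_filter.mp hS).2
  · intro T
    rcases eq_or_ne T ∅ with hT0 | hT0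
    · rw [hT0, card_empty, pow_zero, mul_one]
      exact card_le_card (filter_subset _ _)
    rcases Finset.eq_empty_or_nonempty (G.filter fun S => T ⊆ S \ U) with he | ⟨S, hS⟩
    · rw [he, card_empty, zero_mul]
      exact Nat.zero_le _
    obtain ⟨hS1, hS2⟩ := mem_filter.mp hS
    obtain ⟨hS3, hS4⟩ := mem_filter.mp hS1
    have hdis : Disjoint U T := by
      rw [disjoint_left]
      intro x hx hxT
      exact (mem_sdiff.mp (hS2 hxT)).2 hx
    have hcu : (U ∪ T).card = U.card + T.card := card_union_of_disjoint hdis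
    have hUT : U ∪ T ⊆ S := union_subset hS4 (hS2.trans sdiff_subset)
    have hw1 : U.card + T.card ≤ w := by
      rw [← hcu, ← hcard S hS3]
      exact card_le_card hUT
    have hTp : 0 < T.card := card_pos.mpr (nonempty_iff_ne_empty.mpr hT0)
    have hn : ¬ R ^ (w - (U ∪ T).card) < (G₀.filter fun S => U ∪ T ⊆ S).card := by
      intro h
      have h5 : U ∪ T ∈ C := by
        rw [hC, mem_filter]
        exact ⟨mem_univ _, hVU.trans subset_union_left, by omega, h⟩
      have h6 := hmax _ h5
      omega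
    have hsub : (G.filter fun S => T ⊆ S \ U) ⊆ G₀.filter fun S => U ∪ T ⊆ S := by
      intro S' hS'
      obtain ⟨h7, h8⟩ := mem_filter.mp hS'
      obtain ⟨h9, h10⟩ := mem_filter.mp h7
      exact mem_filter.mpr ⟨h9, union_subset h10 (h8.trans sdiff_subset)⟩
    calc (G.filter fun S => T ⊆ S \ U).card * R ^ T.card
        ≤ R ^ (w - (U ∪ T).card) * R ^ T.card :=
          Nat.mul_le_mul_right _ ((card_le_card hsub).trans (not_lt.mp hn))
      _ = R ^ (w - U.card) := by
          rw [← pow_add]
          congr 1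
          omega
      _ ≤ G.card := hUc.le
  · intro S hS
    obtain ⟨h3, -⟩ := mem_filter.mp hS
    rw [disjoint_left]
    intro x hx hxJ
    obtain ⟨h4, h5⟩ := mem_sdiff.mp hx
    apply h5
    apply hVU
    rw [← (mem_filter.mp h3).2]
    exact mem_inter.mpr ⟨h4, hxJ⟩

end Pool.Agent.VCS
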