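import Pool.Agent.VCS.Targets

set_option autoImplicit false

open Finset

namespace Pool.Agent.VCS

universe u

theorem p_LL : T_LL.{u} := by
  intro X _ _ p q R s A₀ hp hq hqR hsp hA₀
  have hR : (0 : ℝ) < R := by
    by_contra hcon
    have : q * (R : ℝ) ≤ 0 := mul_nonpos_of_nonneg_of_nonpos hq.le (not_lt.mp hcon)
    linarith
  -- exchange the sums
  have h1 : ∑ A, p A * ∑ T ∈ (A ∩ A₀).powerset with s < T.card, (1 / q) ^ T.card =
      ∑ T ∈ A₀.powerset with s < T.card, (1 / q) ^ T.card * up p T := by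
    have h2 : ∀ A : Finset X, (A ∩ A₀).powerset.filter (fun T => s < T.card) =
        (A₀.powerset.filter fun T => s < T.card).filter fun T => T ⊆ A := by
      intro A
      ext T
      simp only [mem_filter, mem_powerset, subset_inter_iff]
      tauto
    calc ∑ A, p A * ∑ T ∈ (A ∩ A₀).powerset with s < T.card, (1 / q) ^ T.card
        = ∑ A, ∑ T ∈ A₀.powerset with s < T.card, if T ⊆ A then p A * (1 / q) ^ T.card else 0 := by
          refine sum_congr rfl fun A _ => ?_
          rw [h2 A, mul_sum, sum_filter]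
      _ = ∑ T ∈ A₀.powerset with s < T.card, ∑ A, if T ⊆ A then p A * (1 / q) ^ T.card else 0 :=
          sum_comm
      _ = _ := by
          refine sum_congr rfl fun T _ => ?_
          rw [← sum_filter, up, mul_sum]
          exact sum_congr rfl fun A _ => mul_comm _ _
  rw [h1]
  have h3 : ∀ T ∈ A₀.powerset.filter (fun T => s < T.card),
      (1 / q) ^ T.card * up p T ≤ (1 / 64 : ℝ) ^ (s + 1) := by
    intro T hT
    rw [mem_filter] at hT
    have h4 : up p T ≤ 1 / (R : ℝ) ^ T.card := by
      rw [le_div_iff₀ (by positivity)]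
      exact hsp T
    calc (1 / q) ^ T.card * up p T ≤ (1 / q) ^ T.card * (1 / (R : ℝ) ^ T.card) := by
          gcongr
      _ = (1 / (q * R)) ^ T.card := by
          rw [one_div_pow, one_div_pow, mul_pow]
          field_simp
      _ ≤ (1 / 64) ^ T.card := by
          apply pow_le_pow_left₀ (by positivity)
          exact one_div_le_one_div_of_le (by norm_num) hqR
      _ ≤ (1 / 64) ^ (s + 1) := pow_le_pow_of_le_one (by norm_num) (by norm_num) hT.2
  have h5 : (A₀.powerset.filter fun T => s < T.card).card ≤ 2 ^ (2 * s + 1) := by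
    calc (A₀.powerset.filter fun T => s < T.card).card ≤ A₀.powerset.card :=
          card_le_card (filter_subset _ _)
      _ = 2 ^ A₀.card := card_powerset _
      _ ≤ 2 ^ (2 * s + 1) := Nat.pow_le_pow_right (by norm_num) hA₀
  calc ∑ T ∈ A₀.powerset with s < T.card, (1 / q) ^ T.card * up p T
      ≤ ∑ _T ∈ A₀.powerset with s < _T.card, (1 / 64 : ℝ) ^ (s + 1) := sum_le_sum h3
    _ = ((A₀.powerset.filter fun T => s < T.card).card : ℝ) * (1 / 64) ^ (s + 1) := by
        rw [sum_const, nsmul_eq_mul]
    _ ≤ ((2 ^ (2 * s + 1) : ℕ) : ℝ) * (1 / 64) ^ (s + 1) := by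
        gcongr
    _ = 1 / 2 * (1 / 16) ^ (s + 1) := by
        push_cast
        have e : (2 : ℝ) ^ (2 * s + 1) = 1 / 2 * 4 ^ (s + 1) := by
          rw [pow_succ, pow_mul, pow_succ]; norm_num; ring
        rw [e, mul_assoc, ← mul_pow]
        norm_num

end Pool.Agent.VCS
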