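import Pool.Agent.VCS.Targets

/-!
# Project VCS: the law of a link
-/

set_option autoImplicit false

noncomputable section

open Finset

namespace Pool.Agent.VCS

universe u

/-- The weight of a predicate under the law of a link. -/
lemma LW_sum {X : Type u} [Fintype X] [DecidableEq X] (G : Finset (Finset X)) (U : Finset X)
    (Q : Finset X → Prop) [DecidablePred Q] :
    ∑ A with Q A, ((G.filter fun S => S \ U = A).card : ℝ) / G.card =
      ((G.filter fun S => Q (S \ U)).card : ℝ) / G.card := by
  rw [← sum_div]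
  congr 1
  rw [← Nat.cast_sum]
  congr 1
  rw [card_eq_sum_card_fiberwise (f := fun S => S \ U) (t := univ.filter Q)]
  · refine sum_congr rfl fun A hA => ?_
    rw [mem_filter] at hA
    rw [filter_filter]
    congr 1
    refine filter_congr fun S _ => ?_
    constructor
    · intro h; exact ⟨h ▸ hA.2, h⟩
    · intro h; exact h.2
  · intro S hS
    simpa using (mem_filter.1 hS).2

/-- Counting: sets of the link with a large intersection with `Y`. -/
lemma LW_count {X : Type u} [Fintype X] [DecidableEq X] (G : Finset (Finset X))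
    (U : Finset X) (R d : ℕ) (hR : 2 ≤ R) (hG : IsLink G U R) (hT : TraceBd G d)
    (Y : Finset X) (t : ℕ) :
    R ^ t * (G.filter fun S => t ≤ ((S \ U) ∩ Y).card).card ≤ (Y.card + 1) ^ d * G.card := by
  set G' := G.filter fun S => t ≤ ((S \ U) ∩ Y).card with hG'
  have hsd : ∀ S : Finset X, (S \ U) ∩ Y = S ∩ (Y \ U) := by
    intro S; ext x; simp only [mem_inter, mem_sdiff]; tauto
  have hfib : ∀ V ∈ G'.image fun S => S ∩ (Y \ U),
      R ^ t * (G'.filter fun S => S ∩ (Y \ U) = V).card ≤ G.card := by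
    intro V hV
    rw [mem_image] at hV
    obtain ⟨S₀, hS₀, rfl⟩ := hV
    rw [hG', mem_filter, hsd] at hS₀
    set V := S₀ ∩ (Y \ U) with hVdef
    have h1 : (G'.filter fun S => S ∩ (Y \ U) = V) ⊆ G.filter fun S => V ⊆ S \ U := by
      intro S hS
      rw [mem_filter, hG', mem_filter] at hS
      rw [mem_filter]
      refine ⟨hS.1.1, ?_⟩
      rw [← hS.2, ← hsd]
      exact inter_subset_left
    have h2 := hG.spread V
    calc R ^ t * (G'.filter fun S => S ∩ (Y \ U) = V).card
        ≤ R ^ V.card * (G.filter fun S => V ⊆ S \ U).card :=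
          Nat.mul_le_mul (Nat.pow_le_pow_right (by omega) hS₀.2) (card_le_card h1)
      _ = (G.filter fun S => V ⊆ S \ U).card * R ^ V.card := Nat.mul_comm _ _
      _ ≤ G.card := h2
  have himg : (G'.image fun S => S ∩ (Y \ U)).card ≤ (Y.card + 1) ^ d := by
    calc (G'.image fun S => S ∩ (Y \ U)).card
        ≤ (G.image fun S => S ∩ (Y \ U)).card :=
          card_le_card (image_subset_image (filter_subset _ _))
      _ ≤ ((Y \ U).card + 1) ^ d := hT _
      _ ≤ (Y.card + 1) ^ d :=
          Nat.pow_le_pow_left (Nat.add_le_add_right (card_le_card sdiff_subset) 1) _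
  have hcard : G'.card = ∑ V ∈ G'.image fun S => S ∩ (Y \ U),
      (G'.filter fun S => S ∩ (Y \ U) = V).card :=
    card_eq_sum_card_fiberwise fun S hS => mem_image_of_mem _ hS
  rw [hcard, mul_sum]
  calc ∑ V ∈ G'.image fun S => S ∩ (Y \ U), R ^ t * (G'.filter fun S => S ∩ (Y \ U) = V).card
      ≤ ∑ V ∈ G'.image fun S => S ∩ (Y \ U), G.card := sum_le_sum hfib
    _ = (G'.image fun S => S ∩ (Y \ U)).card * G.card := by rw [sum_const, smul_eq_mul]
    _ ≤ (Y.card + 1) ^ d * G.card := Nat.mul_le_mul_right _ himg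

theorem p_LW : T_LW.{u} := by
  intro X _ _ G U R d hR hG hT
  have hpos : (0 : ℝ) < G.card := by exact_mod_cast hG.ne.card_pos
  refine ⟨fun A => ((G.filter fun S => S \ U = A).card : ℝ) / G.card, ⟨?_, ?_, ?_⟩, ?_, ?_⟩
  · intro A; positivity
  · have h := LW_sum G U (fun _ => True)
    simp only [filter_true] at h
    rw [h, div_self hpos.ne']
  · intro Y t
    rw [LW_sum G U (fun A => t ≤ (A ∩ Y).card), ← mul_div_assoc, div_le_iff₀ hpos]
    have h := LW_count G U R d hR hG hT Y t
    have h' : (R : ℝ) ^ t * ((G.filter fun S => t ≤ ((S \ U) ∩ Y).card).card : ℝ) ≤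
        ((Y.card : ℝ) + 1) ^ d * G.card := by exact_mod_cast h
    have h0 : 0 ≤ ((Y.card : ℝ) + 1) ^ d * G.card := by positivity
    calc (R : ℝ) ^ t * ((G.filter fun S => t ≤ ((S \ U) ∩ Y).card).card : ℝ)
        ≤ ((Y.card : ℝ) + 1) ^ d * G.card := h'
      _ ≤ 2 * ((Y.card : ℝ) + 1) ^ d * G.card := by nlinarith
  · intro T
    unfold up
    rw [LW_sum G U (fun A => T ⊆ A), div_mul_eq_mul_div, div_le_one hpos]
    exact_mod_cast hG.spread T
  · intro A hA
    by_contra hcon
    have : (G.filter fun S => S \ U = A) = ∅ := by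
      rw [filter_eq_empty_iff]
      intro S hS h
      exact hcon ⟨S, hS, h.symm⟩
    simp only [this, card_empty, Nat.cast_zero, zero_div, lt_irrefl] at hA

end Pool.Agent.VCS
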