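import Pool.Agent.VCS.Targets

/-!
# Project VCS (MP_2812e0_co): mixing the laws
-/

set_option autoImplicit false

noncomputable section

open Finset

namespace Pool.Agent.VCS

universe u

section

variable {X : Type u} [Fintype X] [DecidableEq X] {k : ℕ}

/-- the weight of the sets which contain a point above `x` -/
def MX_P (L : Finset (X × Fin k) → ℝ) (x : X) : ℝ := ∑ B with (∃ i, (x, i) ∈ B), L B

/-- the points below `B` -/
def MX_pts (B : Finset (X × Fin k)) : Finset X := univ.filter fun x => ∃ i, (x, i) ∈ B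

lemma MX_pts_card {F : Finset (Finset X)} {w : ℕ} (hF : ∀ S ∈ F, S.card = w) {J : Finset X}
    {B : Finset (X × Fin k)} (hB : Good F J B) : (MX_pts B).card ≤ k * w := by
  obtain ⟨U, hU⟩ := hB.2.2
  have h1 : MX_pts B ⊆ (univ : Finset (Fin k)).biUnion fun i => slice B i := by
    intro x hx
    rw [MX_pts, mem_filter] at hx
    obtain ⟨i, hi⟩ := hx.2
    rw [mem_biUnion]
    exact ⟨i, mem_univ _, mem_slice.2 hi⟩
  refine (Finset.card_le_card h1).trans (Finset.card_biUnion_le.trans ?_)
  refine (Finset.sum_le_card_nsmul _ _ w fun i _ => ?_).trans ?_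
  · rw [← hF _ (hU i).2.2]
    exact Finset.card_le_card Finset.subset_union_right
  · rw [Finset.card_univ, Fintype.card_fin, smul_eq_mul]

lemma MX_sum_P (L : Finset (X × Fin k) → ℝ) :
    ∑ x, MX_P L x = ∑ B, L B * ((MX_pts B).card : ℝ) := by
  have h1 : ∀ x, MX_P L x = ∑ B, if (∃ i, (x, i) ∈ B) then L B else 0 := fun x => by
    rw [MX_P, Finset.sum_filter]
  simp only [h1]
  rw [Finset.sum_comm]
  refine Finset.sum_congr rfl fun B _ => ?_
  rw [← Finset.sum_filter, Finset.sum_const, nsmul_eq_mul, mul_comm]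
  rfl

lemma MX_J {F : Finset (Finset X)} {w t m : ℕ} (hF : ∀ S ∈ F, S.card = w)
    {L : Finset (X × Fin k) → ℝ} (h0 : ∀ B, 0 ≤ L B) (hs : ∑ B, L B = t) (htm : t ≤ m)
    (hg : ∀ B, 0 < L B → Good F ∅ B) :
    (univ.filter fun x => 1 < MX_P L x).card ≤ k * m * w := by
  set J := univ.filter fun x => 1 < MX_P L x with hJ
  have hP0 : ∀ x, 0 ≤ MX_P L x := fun x => Finset.sum_nonneg fun B _ => h0 B
  have h1 : (J.card : ℝ) ≤ ∑ x, MX_P L x := by
    calc (J.card : ℝ) = ∑ x ∈ J, (1 : ℝ) := by simp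
      _ ≤ ∑ x ∈ J, MX_P L x := Finset.sum_le_sum fun x hx => by
          rw [hJ, mem_filter] at hx
          exact hx.2.le
      _ ≤ ∑ x, MX_P L x :=
          Finset.sum_le_sum_of_subset_of_nonneg (Finset.subset_univ _) fun x _ _ => hP0 x
  rw [MX_sum_P] at h1
  have h2 : ∑ B, L B * ((MX_pts B).card : ℝ) ≤ ∑ B, L B * ((k : ℝ) * w) := by
    refine Finset.sum_le_sum fun B _ => ?_
    rcases (h0 B).eq_or_lt with h | h
    · rw [← h, zero_mul, zero_mul]
    · apply mul_le_mul_of_nonneg_left _ h.le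
      have := MX_pts_card hF (hg B h)
      exact_mod_cast this
  rw [← Finset.sum_mul, hs] at h2
  have h3 : (t : ℝ) * ((k : ℝ) * w) ≤ m * ((k : ℝ) * w) :=
    mul_le_mul_of_nonneg_right (by exact_mod_cast htm) (by positivity)
  have h4 : (J.card : ℝ) ≤ ((k * m * w : ℕ) : ℝ) := by
    push_cast
    linarith
  exact_mod_cast h4

lemma MX_step {F : Finset (Finset X)} {w N d K D m : ℕ}
    (hF : ∀ S ∈ F, S.card = w)
    (hlam : ∀ J : Finset X, N * (J.card + 1) ^ d < F.card →
      ∃ lam : Finset (X × Fin k) → ℝ, H1 lam K D ∧ ∀ B, 0 < lam B → Good F J B)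
    (hN : N * (k * m * w + 1) ^ d < F.card) (t : ℕ) (ht : t ≤ m) :
    ∃ L : Finset (X × Fin k) → ℝ, (∀ B, 0 ≤ L B) ∧ ∑ B, L B = t ∧
      (∀ (Y : Finset (X × Fin k)) (v : ℕ),
        (K : ℝ) ^ v * ∑ B with v ≤ (B ∩ Y).card, L B ≤ 2 * t * ((Y.card : ℝ) + 1) ^ D) ∧
      (∀ B, 0 < L B → Good F ∅ B) ∧ ∀ x, MX_P L x ≤ 2 := by
  induction t with
  | zero =>
    refine ⟨fun _ => 0, fun _ => le_rfl, by simp, fun Y v => by simp, fun B hB => ?_, fun x => ?_⟩
    · exact absurd hB (lt_irrefl _)
    · unfold MX_P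
      simp
  | succ t ih =>
    obtain ⟨L, h0, hs, hc, hg, hP⟩ := ih (by omega)
    set J := univ.filter fun x => 1 < MX_P L x with hJ
    have hJc : J.card ≤ k * m * w := MX_J hF h0 hs (by omega) hg
    obtain ⟨lam, hl1, hl2⟩ := hlam J (lt_of_le_of_lt
      (Nat.mul_le_mul_left _ (Nat.pow_le_pow_left (by omega) _)) hN)
    refine ⟨fun B => L B + lam B, fun B => add_nonneg (h0 B) (hl1.1 B), ?_, ?_, ?_, ?_⟩
    · rw [Finset.sum_add_distrib, hs, hl1.2.1]
      push_cast
      ring
    · intro Y v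
      rw [Finset.sum_add_distrib, mul_add]
      have h1 := hc Y v
      have h2 := hl1.2.2 Y v
      push_cast
      linarith
    · intro B hB
      by_cases hLB : 0 < L B
      · exact hg B hLB
      · have h1 : 0 < lam B := by linarith [not_lt.1 hLB]
        have h2 := hl2 B h1
        exact ⟨h2.1, fun x i _ => Finset.notMem_empty x, h2.2.2⟩
    · intro x
      have h1 : MX_P (fun B => L B + lam B) x = MX_P L x + MX_P lam x := by
        unfold MX_P
        rw [Finset.sum_add_distrib]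
      rw [h1]
      by_cases hx : x ∈ J
      · have h2 : MX_P lam x = 0 := by
          apply Finset.sum_eq_zero
          intro B hB
          rw [mem_filter] at hB
          obtain ⟨i, hi⟩ := hB.2
          by_contra hne
          exact (hl2 B (lt_of_le_of_ne (hl1.1 B) (Ne.symm hne))).2.1 x i hi hx
        rw [h2, add_zero]
        exact hP x
      · have h2 : MX_P L x ≤ 1 := by
          rw [hJ, mem_filter] at hx
          by_contra hne
          exact hx ⟨mem_univ _, not_le.1 hne⟩
        have h3 : MX_P lam x ≤ 1 := by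
          rw [← hl1.2.1]
          exact Finset.sum_le_sum_of_subset_of_nonneg (Finset.subset_univ _)
            fun B _ _ => hl1.1 B
        linarith

end

theorem p_MX : T_MX.{u} := by
  intro X _ _ F w N d K k D m hm hF hlam hN
  obtain ⟨L, h0, hs, hc, hg, hP⟩ := MX_step hF hlam hN m le_rfl
  have hm0 : (0 : ℝ) < m := by exact_mod_cast hm
  refine ⟨fun B => L B / m, ⟨fun B => div_nonneg (h0 B) hm0.le, ?_, ?_⟩, ?_, ?_⟩
  · rw [← Finset.sum_div, hs, div_self hm0.ne']
  · intro Y v
    rw [← Finset.sum_div, mul_div_assoc', div_le_iff₀ hm0]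
    refine (hc Y v).trans (le_of_eq ?_)
    ring
  · intro B hB
    apply hg B
    by_contra hne
    have h1 : L B / m ≤ 0 := div_nonpos_of_nonpos_of_nonneg (not_lt.1 hne) hm0.le
    linarith
  · intro z
    have h1 : pop (fun B => L B / m) z = (∑ B with z ∈ B, L B) / m := by
      unfold pop
      rw [← Finset.sum_div]
    rw [h1]
    apply div_le_div_of_nonneg_right _ hm0.le
    refine le_trans ?_ (hP z.1)
    unfold MX_P
    apply Finset.sum_le_sum_of_subset_of_nonneg _ fun B _ _ => h0 B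
    intro B hB
    rw [mem_filter] at hB ⊢
    exact ⟨hB.1, z.2, hB.2⟩

end Pool.Agent.VCS
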