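import Pool.Agent.VCS.Targets

set_option autoImplicit false

open Finset

namespace Pool.Agent.VCS

universe u

lemma OR_wt {X : Type u} [Fintype X] [DecidableEq X] (q : ℝ) (hq : 0 < q) (hq1 : q ≤ 1)
    (W T : Finset X) (hWT : Disjoint W T) : wt q W ≤ wt q (W ∪ T) * (1 / q) ^ T.card := by
  have h1 : (W ∪ T).card = W.card + T.card := card_union_of_disjoint hWT
  have h2 : (Wᶜ).card = ((W ∪ T)ᶜ).card + T.card := by
    have h3 := card_le_univ (W ∪ T)
    rw [card_compl, card_compl, h1]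
    rw [h1] at h3
    omega
  have hq2 : 0 ≤ 1 - q := by linarith
  have hq3 : 1 - q ≤ 1 := by linarith
  rw [wt, wt, h1, h2, pow_add, pow_add]
  have h4 : q ^ T.card * (1 / q) ^ T.card = 1 := by
    rw [← mul_pow, mul_one_div_cancel hq.ne', one_pow]
  have h5 : (1 - q) ^ T.card ≤ 1 := pow_le_one₀ hq2 hq3
  have h6 : 0 ≤ q ^ W.card * (1 - q) ^ ((W ∪ T)ᶜ).card := by positivity
  calc q ^ W.card * ((1 - q) ^ ((W ∪ T)ᶜ).card * (1 - q) ^ T.card)
      = q ^ W.card * (1 - q) ^ ((W ∪ T)ᶜ).card * (1 - q) ^ T.card := by ring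
    _ ≤ q ^ W.card * (1 - q) ^ ((W ∪ T)ᶜ).card * 1 := by gcongr
    _ = q ^ W.card * (1 - q) ^ ((W ∪ T)ᶜ).card * (q ^ T.card * (1 / q) ^ T.card) := by rw [h4]
    _ = q ^ W.card * q ^ T.card * (1 - q) ^ ((W ∪ T)ᶜ).card * (1 / q) ^ T.card := by ring

open Classical in
theorem p_OR : T_OR.{u} := by
  intro X _ _ p q L s hp hq hq1 hL0 hL
  -- the minimal fragments
  have hex : ∀ W A : Finset X, ∃ T : Finset X, 0 < p A →
      ((∃ A', 0 < p A' ∧ A' \ W = T) ∧ T ⊆ A \ W ∧
        ∀ A', 0 < p A' → A' \ W ⊆ A \ W → T.card ≤ (A' \ W).card) := by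
    intro W A
    by_cases hA : 0 < p A
    · obtain ⟨A₁, hA₁, hmin⟩ := exists_min_image
        (univ.filter fun A' => 0 < p A' ∧ A' \ W ⊆ A \ W) (fun A' => (A' \ W).card)
        ⟨A, by simp [hA]⟩
      rw [mem_filter] at hA₁
      refine ⟨A₁ \ W, fun _ => ⟨⟨A₁, hA₁.2.1, rfl⟩, hA₁.2.2, fun A' h1 h2 => ?_⟩⟩
      exact hmin A' (mem_filter.mpr ⟨mem_univ _, h1, h2⟩)
    · exact ⟨∅, fun h => absurd h hA⟩
  choose Tm hTm using hex
  -- the canonical members
  have hex2 : ∀ Z : Finset X, ∃ A₀ : Finset X, (∃ A', 0 < p A' ∧ A' ⊆ Z) → 0 < p A₀ ∧ A₀ ⊆ Z := by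
    intro Z
    by_cases h : ∃ A', 0 < p A' ∧ A' ⊆ Z
    · obtain ⟨A', h1, h2⟩ := h
      exact ⟨A', fun _ => ⟨h1, h2⟩⟩
    · exact ⟨∅, fun h' => absurd h' h⟩
  choose As hAs using hex2
  set p' : Finset X → Finset X → ℝ := fun W T =>
    ∑ A with 0 < p A ∧ Tm W A = T ∧ T.card ≤ s, p A with hp'
  -- exchange of sums
  have hsum : ∀ W T₀, ∑ T with T₀ ⊆ T, p' W T =
      ∑ A with 0 < p A ∧ T₀ ⊆ Tm W A ∧ (Tm W A).card ≤ s, p A := by
    intro W T₀
    simp only [hp', sum_filter]
    have e : ∀ T : Finset X, (if T₀ ⊆ T then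
        ∑ A, (if 0 < p A ∧ Tm W A = T ∧ T.card ≤ s then p A else 0) else 0) =
        ∑ A, (if Tm W A = T then
          (if 0 < p A ∧ T₀ ⊆ Tm W A ∧ (Tm W A).card ≤ s then p A else 0) else 0) := by
      intro T
      by_cases hT : T₀ ⊆ T
      · rw [if_pos hT]
        refine sum_congr rfl fun A _ => ?_
        by_cases h1 : Tm W A = T
        · simp [h1, hT]
        · simp [h1]
      · rw [if_neg hT]
        symm
        refine sum_eq_zero fun A _ => ?_
        by_cases h1 : Tm W A = T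
        · simp [h1, hT]
        · simp [h1]
    rw [sum_congr rfl fun T _ => e T, sum_comm]
    refine sum_congr rfl fun A _ => ?_
    rw [sum_ite_eq]
    simp
  refine ⟨p', fun W T => sum_nonneg fun A _ => hp A, ?_, ?_, ?_⟩
  · intro W T hT
    obtain ⟨A, hA⟩ : (univ.filter fun A => 0 < p A ∧ Tm W A = T ∧ T.card ≤ s).Nonempty := by
      rw [nonempty_iff_ne_empty]
      intro he
      rw [hp'] at hT
      dsimp only at hT
      rw [he, sum_empty] at hT
      exact lt_irrefl _ hT
    rw [mem_filter] at hA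
    obtain ⟨-, hA0, hAT, hTs⟩ := hA
    obtain ⟨⟨A', hA', hAW⟩, -, -⟩ := hTm W A hA0
    refine ⟨hTs, A', hA', ?_⟩
    rw [← hAT, ← hAW]
    intro x hx
    by_cases hxW : x ∈ W
    · exact mem_union_right _ hxW
    · exact mem_union_left _ (mem_sdiff.mpr ⟨hx, hxW⟩)
  · intro W T₀
    rw [up, hsum, up]
    refine sum_le_sum_of_subset_of_nonneg ?_ fun A _ _ => hp A
    intro A hA
    rw [mem_filter] at hA ⊢
    exact ⟨mem_univ _, hA.2.2.1.trans ((hTm W A hA.2.1).2.1.trans sdiff_subset)⟩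
  · -- the expected loss
    have hloss : ∀ W, ∑ A, p A - ∑ T, p' W T = ∑ A with 0 < p A ∧ s < (Tm W A).card, p A := by
      intro W
      have h1 := hsum W ∅
      simp only [empty_subset, filter_true, true_and] at h1
      rw [h1, sub_eq_iff_eq_add]
      simp only [sum_filter]
      rw [← sum_add_distrib]
      refine sum_congr rfl fun A _ => ?_
      by_cases h2 : 0 < p A
      · by_cases h3 : s < (Tm W A).card
        · have h4 : ¬ (Tm W A).card ≤ s := by omega
          simp [h2, h3, h4]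
        · have h4 : (Tm W A).card ≤ s := by omega
          simp [h2, h3, h4]
      · have h3 : p A = 0 := le_antisymm (not_lt.mp h2) (hp A)
        simp [h3]
    set Φ : Finset (Finset X × Finset X) :=
      univ.filter fun z => 0 < p z.2 ∧ s < (Tm z.1 z.2).card with hΦ
    set φ : Finset X × Finset X → Finset X × Finset X × Finset X :=
      fun z => (z.1 ∪ Tm z.1 z.2, z.2, Tm z.1 z.2) with hφ
    set g : Finset X × Finset X × Finset X → ℝ :=
      fun y => wt q y.1 * ((1 / q) ^ y.2.2.card * p y.2.1) with hg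
    set Ψ : Finset (Finset X × Finset X × Finset X) :=
      univ.filter fun y => 0 < p (As y.1) ∧ y.2.2 ⊆ y.2.1 ∩ As y.1 ∧ s < y.2.2.card with hΨ
    have hg0 : ∀ y, 0 ≤ g y := by
      intro y
      have := wt_nonneg hq.le hq1 y.1
      have h2 := hp y.2.1
      rw [hg]; positivity
    have hdis : ∀ z ∈ Φ, Disjoint z.1 (Tm z.1 z.2) := by
      intro z hz
      rw [hΦ, mem_filter] at hz
      exact disjoint_of_subset_right (hTm z.1 z.2 hz.2.1).2.1 disjoint_sdiff
    have hinj : Set.InjOn φ (Φ : Set (Finset X × Finset X)) := by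
      intro z hz z' hz' he
      simp only [hφ, Prod.mk.injEq] at he
      obtain ⟨h1, h2, h3⟩ := he
      refine Prod.ext ?_ h2
      have e1 : z.1 = (z.1 ∪ Tm z.1 z.2) \ Tm z.1 z.2 :=
        (union_sdiff_cancel_right (hdis z hz)).symm
      have e2 : z'.1 = (z'.1 ∪ Tm z'.1 z'.2) \ Tm z'.1 z'.2 :=
        (union_sdiff_cancel_right (hdis z' hz')).symm
      rw [e1, e2, h1, h3]
    have himg : Φ.image φ ⊆ Ψ := by
      intro y hy
      rw [mem_image] at hy
      obtain ⟨z, hz, rfl⟩ := hy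
      have hd := hdis z hz
      rw [hΦ, mem_filter] at hz
      obtain ⟨-, hz0, hzs⟩ := hz
      obtain ⟨⟨A', hA', hAW⟩, hsub, hmin⟩ := hTm z.1 z.2 hz0
      set T := Tm z.1 z.2 with hT
      have hA'Z : A' ⊆ z.1 ∪ T := by
        intro x hx
        by_cases hxW : x ∈ z.1
        · exact mem_union_left _ hxW
        · exact mem_union_right _ (by rw [← hAW]; exact mem_sdiff.mpr ⟨hx, hxW⟩)
      obtain ⟨h1, h2⟩ := hAs (z.1 ∪ T) ⟨A', hA', hA'Z⟩
      have h3 : As (z.1 ∪ T) \ z.1 ⊆ T := by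
        intro x hx
        rw [mem_sdiff] at hx
        rcases mem_union.mp (h2 hx.1) with h | h
        · exact absurd h hx.2
        · exact h
      have h4 := hmin _ h1 (h3.trans hsub)
      have h5 : As (z.1 ∪ T) \ z.1 = T := eq_of_subset_of_card_le h3 h4
      rw [hΨ, mem_filter]
      refine ⟨mem_univ _, h1, ?_, hzs⟩
      simp only [hφ]
      refine subset_inter (hsub.trans sdiff_subset) ?_
      rw [← hT]
      calc T = As (z.1 ∪ T) \ z.1 := h5.symm
        _ ⊆ As (z.1 ∪ T) := sdiff_subset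
    calc Ex q (fun W => ∑ A, p A - ∑ T, p' W T)
        = ∑ z ∈ Φ, wt q z.1 * p z.2 := by
          rw [Ex, hΦ, sum_filter, Fintype.sum_prod_type]
          refine sum_congr rfl fun W _ => ?_
          rw [hloss W, sum_filter, mul_sum]
          refine sum_congr rfl fun A _ => ?_
          split_ifs <;> simp
      _ ≤ ∑ z ∈ Φ, g (φ z) := by
          refine sum_le_sum fun z hz => ?_
          have h1 := OR_wt q hq hq1 z.1 (Tm z.1 z.2) (hdis z hz)
          calc wt q z.1 * p z.2 ≤ wt q (z.1 ∪ Tm z.1 z.2) * (1 / q) ^ (Tm z.1 z.2).card * p z.2 :=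
                mul_le_mul_of_nonneg_right h1 (hp _)
            _ = g (φ z) := by simp only [hg, hφ]; ring
      _ = ∑ y ∈ Φ.image φ, g y := (sum_image hinj).symm
      _ ≤ ∑ y ∈ Ψ, g y := sum_le_sum_of_subset_of_nonneg himg fun y _ _ => hg0 y
      _ = ∑ Z, wt q Z * (if 0 < p (As Z) then
            ∑ A, p A * ∑ T ∈ (A ∩ As Z).powerset with s < T.card, (1 / q) ^ T.card else 0) := by
          rw [hΨ, sum_filter, Fintype.sum_prod_type]
          refine sum_congr rfl fun Z _ => ?_
          rw [Fintype.sum_prod_type]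
          by_cases hZ : 0 < p (As Z)
          · rw [if_pos hZ, mul_sum]
            refine sum_congr rfl fun A _ => ?_
            have e : (A ∩ As Z).powerset = univ.filter fun T => T ⊆ A ∩ As Z := by
              ext T; rw [mem_powerset, mem_filter]; simp only [mem_univ, true_and]
            rw [e, filter_filter, sum_filter, mul_sum, mul_sum]
            refine sum_congr rfl fun T _ => ?_
            by_cases hT : T ⊆ A ∩ As Z ∧ s < T.card
            · rw [if_pos ⟨hZ, hT⟩, if_pos hT]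
              simp only [hg]; ring
            · rw [if_neg (fun h => hT h.2), if_neg hT, mul_zero, mul_zero]
          · rw [if_neg hZ, mul_zero]
            refine sum_eq_zero fun A _ => sum_eq_zero fun T _ => ?_
            rw [if_neg fun h => hZ h.1]
      _ ≤ ∑ Z : Finset X, wt q Z * L := by
          refine sum_le_sum fun Z _ => mul_le_mul_of_nonneg_left ?_ (wt_nonneg hq.le hq1 Z)
          split_ifs with hZ
          · exact hL _ hZ
          · exact hL0
      _ = L := by rw [← sum_mul, sum_wt, one_mul]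

end Pool.Agent.VCS
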