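import Pool.Agent.VCS.Targets

set_option autoImplicit false

open Finset

namespace Pool.Agent.VCS

universe u

lemma PA_card (n N : ℕ) (h : n ≤ N) : (n : ℝ) = ∑ t ∈ Icc 1 N, if t ≤ n then (1 : ℝ) else 0 := by
  rw [← sum_filter]
  have e : (Icc 1 N).filter (fun t => t ≤ n) = Icc 1 n := by
    ext t; simp only [mem_filter, mem_Icc]; omega
  rw [e, sum_const, Nat.card_Icc, nsmul_eq_mul, mul_one]
  simp

lemma PA_pop {X : Type u} [Fintype X] [DecidableEq X] (p : Finset X → ℝ) (Y : Finset X) :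
    ∑ x ∈ Y, pop p x = ∑ A, p A * ((A ∩ Y).card : ℝ) := by
  simp only [pop, sum_filter]
  rw [sum_comm]
  refine sum_congr rfl fun A _ => ?_
  rw [← sum_filter, sum_const, nsmul_eq_mul, mul_comm, filter_mem_eq_inter, inter_comm]

theorem p_PA : T_PA.{u} := by
  intro X _ _ p R D t₀ Y hp hR hY
  obtain ⟨hp0, hp1, hpY⟩ := hp
  set P : ℕ → ℝ := fun t => ∑ A with t ≤ (A ∩ Y).card, p A with hP
  have hR0 : (0 : ℝ) < R := by
    have : 0 < R := by omega
    exact_mod_cast this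
  have hR2 : (2 : ℝ) ≤ R := by exact_mod_cast hR
  have hsum : ∑ x ∈ Y, pop p x = ∑ t ∈ Icc 1 Y.card, P t := by
    rw [PA_pop]
    calc ∑ A, p A * ((A ∩ Y).card : ℝ)
        = ∑ A, ∑ t ∈ Icc 1 Y.card, if t ≤ (A ∩ Y).card then p A else 0 := by
          refine sum_congr rfl fun A _ => ?_
          rw [PA_card _ Y.card (card_le_card inter_subset_right), mul_sum]
          refine sum_congr rfl fun t _ => ?_
          split_ifs <;> simp
      _ = ∑ t ∈ Icc 1 Y.card, P t := by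
          rw [sum_comm]
          refine sum_congr rfl fun t _ => ?_
          rw [hP]; dsimp only; rw [sum_filter]
  have hP1 : ∀ t, P t ≤ 1 := by
    intro t
    rw [← hp1]
    exact sum_le_sum_of_subset_of_nonneg (filter_subset _ _) fun A _ _ => hp0 A
  have hP2 : ∀ j, P (t₀ + j) ≤ (1 / 2 : ℝ) ^ j := by
    intro j
    have h1 : (R : ℝ) ^ (t₀ + j) * P (t₀ + j) ≤ (R : ℝ) ^ t₀ := by
      refine (hpY Y (t₀ + j)).trans ?_
      exact_mod_cast hY
    have h2 : (0 : ℝ) < (R : ℝ) ^ t₀ := by positivity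
    have h3 : (R : ℝ) ^ j * P (t₀ + j) ≤ 1 := by
      rw [pow_add, mul_assoc] at h1
      exact (mul_le_iff_le_one_right h2).mp h1
    have h4 : P (t₀ + j) ≤ 1 / (R : ℝ) ^ j := by
      rw [le_div_iff₀ (by positivity), mul_comm]; exact h3
    refine h4.trans ?_
    rw [one_div, one_div, inv_pow]
    gcongr
  have key : ∀ N, ∑ t ∈ Icc 1 (t₀ + N), P t ≤ t₀ + 1 - (1 / 2 : ℝ) ^ N := by
    intro N
    induction N with
    | zero =>
      simp only [add_zero, pow_zero, add_sub_cancel_right]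
      calc ∑ t ∈ Icc 1 t₀, P t ≤ ∑ _t ∈ Icc 1 t₀, (1 : ℝ) := sum_le_sum fun t _ => hP1 t
        _ = t₀ := by simp
    | succ N ih =>
      rw [← add_assoc, sum_Icc_succ_top (by omega)]
      have h1 := hP2 (N + 1)
      rw [← add_assoc] at h1
      have e : (1 / 2 : ℝ) ^ N = 2 * (1 / 2) ^ (N + 1) := by rw [pow_succ]; ring
      linarith
  have hP0 : ∀ t, 0 ≤ P t := fun t => sum_nonneg fun A _ => hp0 A
  rw [hsum]
  calc ∑ t ∈ Icc 1 Y.card, P t ≤ ∑ t ∈ Icc 1 (t₀ + Y.card), P t :=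
        sum_le_sum_of_subset_of_nonneg (Icc_subset_Icc le_rfl (by omega)) fun t _ _ => hP0 t
    _ ≤ t₀ + 1 - (1 / 2 : ℝ) ^ Y.card := key _
    _ ≤ t₀ + 1 := by
        have : (0 : ℝ) ≤ (1 / 2) ^ Y.card := by positivity
        linarith

end Pool.Agent.VCS
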