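import Pool.Agent.VCS.Targets

set_option autoImplicit false

open Finset

namespace Pool.Agent.VCS

universe u

lemma PB_num (D : ℕ) : D ^ 2 + 8 * D + 2 < 32 * 2 ^ D := by
  induction D with
  | zero => norm_num
  | succ D ih =>
    have e : 2 ^ (D + 1) = 2 * 2 ^ D := by ring
    rw [e]
    nlinarith [Nat.one_le_two_pow (n := D)]

lemma PB_num' (D j : ℕ) : D * (2 * j + D + 6) + 2 < 2 ^ (j + D + 5) := by
  have h1 := PB_num D
  have h2 : j + 1 ≤ 2 ^ j := Nat.lt_two_pow_self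
  have e : 2 ^ (j + D + 5) = 2 ^ j * (32 * 2 ^ D) := by ring
  rw [e]
  calc D * (2 * j + D + 6) + 2 < (j + 1) * (32 * 2 ^ D) := by nlinarith
    _ ≤ 2 ^ j * (32 * 2 ^ D) := by gcongr

theorem p_PB (hPA : T_PA.{u}) : T_PB.{u} := by
  intro X _ _ p R D j hp hR
  by_contra hcon
  rw [not_lt] at hcon
  obtain ⟨Y, hYP, hYc⟩ := exists_subset_card_eq hcon
  have hR1 : 1 ≤ R := by omega
  have hR0 : (0 : ℝ) < R := by exact_mod_cast hR1
  have h1 : Y.card + 1 ≤ R ^ (2 * j + D + 6) := by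
    have e : R ^ (2 * j + D + 6) = R ^ (2 * j + D + 5) * R := by ring
    have h2 : 1 ≤ R ^ (2 * j + D + 5) := Nat.one_le_pow _ _ hR1
    rw [hYc, e]
    nlinarith
  have h3 : 2 * (Y.card + 1) ^ D ≤ R ^ (D * (2 * j + D + 6) + 1) := by
    have e : R ^ (D * (2 * j + D + 6) + 1) = R * (R ^ (2 * j + D + 6)) ^ D := by
      rw [← pow_mul, pow_succ, mul_comm (R ^ _), mul_comm D]
    rw [e]
    exact Nat.mul_le_mul hR (Nat.pow_le_pow_left h1 D)
  have h4 := hPA X p R D (D * (2 * j + D + 6) + 1) Y hp hR h3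
  have h5 : (Y.card : ℝ) ≤ (R : ℝ) ^ j * ∑ x ∈ Y, pop p x := by
    rw [mul_sum]
    calc (Y.card : ℝ) = ∑ _x ∈ Y, (1 : ℝ) := by simp
      _ ≤ ∑ x ∈ Y, (R : ℝ) ^ j * pop p x := by
          refine sum_le_sum fun x hx => ?_
          have := hYP hx
          rw [Pj, mem_filter] at this
          exact this.2
  have h6 : ((R ^ (j + D + 5) : ℕ) : ℝ) ≤ ∑ x ∈ Y, pop p x := by
    have e : (Y.card : ℝ) = (R : ℝ) ^ j * (R : ℝ) ^ (j + D + 5) := by
      rw [hYc, ← pow_add]; push_cast; congr 1; ring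
    rw [e] at h5
    have := le_of_mul_le_mul_left h5 (by positivity)
    exact_mod_cast this
  have h7 : (R ^ (j + D + 5) : ℕ) ≤ D * (2 * j + D + 6) + 2 := by
    have : ((R ^ (j + D + 5) : ℕ) : ℝ) ≤ ((D * (2 * j + D + 6) + 2 : ℕ) : ℝ) := by
      refine h6.trans (h4.trans ?_)
      push_cast; linarith
    exact_mod_cast this
  have h8 : 2 ^ (j + D + 5) ≤ R ^ (j + D + 5) := Nat.pow_le_pow_left hR _
  have h9 := PB_num' D j
  omega

end Pool.Agent.VCS
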