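import Pool.Agent.VCS.Targets

set_option autoImplicit false

open Finset

namespace Pool.Agent.VCS

universe u

lemma PC_pop_nonneg {X : Type u} [Fintype X] [DecidableEq X] {p : Finset X → ℝ}
    (hp : ∀ A, 0 ≤ p A) (x : X) : 0 ≤ pop p x := sum_nonneg fun A _ => hp A

/-- The popular points have small total popularity. -/
lemma PC_a (hPA : T_PA.{u}) (hPB : T_PB.{u}) (X : Type u) [Fintype X] [DecidableEq X]
    (p : Finset X → ℝ) (R D j : ℕ) (hp : H1 p R D) (hR : 2 ≤ R) :
    ∑ x ∈ Pj p R j, pop p x ≤ D * (2 * j + D + 5) + 2 := by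
  have h1 := hPB X p R D j hp hR
  have h3 : 2 * ((Pj p R j).card + 1) ^ D ≤ R ^ (D * (2 * j + D + 5) + 1) := by
    have e : R ^ (D * (2 * j + D + 5) + 1) = R * (R ^ (2 * j + D + 5)) ^ D := by
      rw [← pow_mul, pow_succ, mul_comm (R ^ _), mul_comm D]
    rw [e]
    exact Nat.mul_le_mul hR (Nat.pow_le_pow_left h1 D)
  have h4 := hPA X p R D _ _ hp hR h3
  refine h4.trans ?_
  push_cast; linarith

theorem p_PC (hPA : T_PA.{u}) (hPB : T_PB.{u}) : T_PC.{u} := by
  intro X _ _ p R D j hp hR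
  have hR1 : 1 ≤ R := by omega
  have hR2 : (2 : ℝ) ≤ R := by exact_mod_cast hR
  have hR0 : (0 : ℝ) < R := by linarith
  have hpop : ∀ x, 0 ≤ pop p x := PC_pop_nonneg hp.1
  set S : ℕ → ℝ := fun j => ∑ x with x ∉ Pj p R j, pop p x ^ 2 with hS
  set B : ℕ → ℝ := fun j => 4 * (D : ℝ) * j + 2 * (D : ℝ) ^ 2 + 18 * D + 4 with hB
  -- one step
  have hstep : ∀ j, (R : ℝ) ^ j * S j ≤
      (D * (2 * (j + 1) + D + 5) + 2) + (R : ℝ) ^ j * S (j + 1) := by
    intro j
    have ha := PC_a hPA hPB X p R D (j + 1) hp hR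
    have h1 : S j ≤ ∑ x with x ∉ Pj p R j ∧ x ∈ Pj p R (j + 1), pop p x ^ 2 + S (j + 1) := by
      have h2 : (univ.filter fun x => x ∉ Pj p R j) ⊆
          (univ.filter fun x => x ∉ Pj p R j ∧ x ∈ Pj p R (j + 1)) ∪
            (univ.filter fun x => x ∉ Pj p R (j + 1)) := by
        intro x hx
        simp only [mem_filter, mem_univ, true_and, mem_union] at hx ⊢
        by_cases h : x ∈ Pj p R (j + 1)
        · exact Or.inl ⟨hx, h⟩
        · exact Or.inr h
      refine (sum_le_sum_of_subset_of_nonneg h2 fun x _ _ => sq_nonneg _).trans ?_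
      rw [← sum_union_inter]
      have h4 : 0 ≤ ∑ x ∈ (univ.filter fun x => x ∉ Pj p R j ∧ x ∈ Pj p R (j + 1)) ∩
          (univ.filter fun x => x ∉ Pj p R (j + 1)), pop p x ^ 2 :=
        sum_nonneg fun x _ => sq_nonneg _
      linarith
    have h3 : (R : ℝ) ^ j * ∑ x with x ∉ Pj p R j ∧ x ∈ Pj p R (j + 1), pop p x ^ 2 ≤
        ∑ x ∈ Pj p R (j + 1), pop p x := by
      rw [mul_sum]
      refine le_trans (sum_le_sum (g := fun x => pop p x) fun x hx => ?_)
        (sum_le_sum_of_subset_of_nonneg ?_ fun x _ _ => hpop x)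
      · simp only [mem_filter, mem_univ, true_and, Pj] at hx
        have h4 := hx.1
        rw [not_le] at h4
        calc (R : ℝ) ^ j * pop p x ^ 2 = ((R : ℝ) ^ j * pop p x) * pop p x := by ring
          _ ≤ 1 * pop p x := by
              apply mul_le_mul_of_nonneg_right h4.le (hpop x)
          _ = pop p x := one_mul _
      · intro x hx
        simp only [mem_filter, mem_univ, true_and] at hx
        exact hx.2
    have h5 : (R : ℝ) ^ j * S j ≤ (R : ℝ) ^ j *
        (∑ x with x ∉ Pj p R j ∧ x ∈ Pj p R (j + 1), pop p x ^ 2 + S (j + 1)) :=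
      mul_le_mul_of_nonneg_left h1 (by positivity)
    rw [mul_add] at h5
    push_cast at ha
    linarith
  -- large levels
  obtain ⟨J, hJ⟩ : ∃ J : ℕ, ∀ j, J ≤ j → S j = 0 := by
    have h1 : ∀ x : X, ∃ J : ℕ, 0 < pop p x → 1 ≤ (R : ℝ) ^ J * pop p x := by
      intro x
      by_cases hx : 0 < pop p x
      · obtain ⟨J, hJ⟩ := pow_unbounded_of_one_lt (1 / pop p x) (show (1 : ℝ) < R by linarith)
        refine ⟨J, fun _ => ?_⟩
        rw [div_lt_iff₀ hx] at hJ
        exact hJ.le
      · exact ⟨0, fun h => absurd h hx⟩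
    choose f hf using h1
    refine ⟨univ.sup f, fun j hj => ?_⟩
    refine sum_eq_zero fun x hx => ?_
    simp only [mem_filter, mem_univ, true_and, Pj, not_le] at hx
    by_contra hne
    have hpx : 0 < pop p x := lt_of_le_of_ne (hpop x) fun h => hne (by rw [← h]; norm_num)
    have h2 := hf x hpx
    have h3 : (R : ℝ) ^ f x ≤ (R : ℝ) ^ j :=
      pow_le_pow_right₀ (by linarith) ((le_sup (mem_univ x)).trans hj)
    have h4 := mul_le_mul_of_nonneg_right h3 hpx.le
    linarith
  have key : ∀ i j, J ≤ j + i → (R : ℝ) ^ j * S j ≤ B j := by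
    intro i
    induction i with
    | zero =>
      intro j hj
      rw [hJ j (by omega), mul_zero, hB]
      positivity
    | succ i ih =>
      intro j hj
      have h1 := ih (j + 1) (by omega)
      have h2 := hstep j
      have hB0 : 0 ≤ B (j + 1) := by rw [hB]; positivity
      have h3 : (R : ℝ) ^ j * S (j + 1) ≤ B (j + 1) / 2 := by
        have e : (R : ℝ) ^ (j + 1) * S (j + 1) = R * ((R : ℝ) ^ j * S (j + 1)) := by
          rw [pow_succ]; ring
        rw [e] at h1
        have h4 : 0 ≤ (R : ℝ) ^ j * S (j + 1) := by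
          apply mul_nonneg (by positivity)
          exact sum_nonneg fun x _ => sq_nonneg _
        nlinarith
      have e2 : B (j + 1) / 2 = 2 * D * (j + 1) + (D : ℝ) ^ 2 + 9 * D + 2 := by
        rw [hB]; push_cast; ring
      rw [e2] at h3
      have e3 : B j = 4 * (D : ℝ) * j + 2 * (D : ℝ) ^ 2 + 18 * D + 4 := rfl
      rw [e3]
      nlinarith
  exact key J j (by omega)

end Pool.Agent.VCS
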