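import Pool.Agent.VCS.Targets

set_option autoImplicit false

open Finset

namespace Pool.Agent.VCS

universe u

lemma PD_sq {X : Type u} [Fintype X] [DecidableEq X] (p : Finset X → ℝ) (P : Finset X) :
    ∑ A, ∑ A', p A * p A' * (((A ∩ A') \ P).card : ℝ) = ∑ x with x ∉ P, pop p x ^ 2 := by
  have h1 : ∀ A A' : Finset X, (((A ∩ A') \ P).card : ℝ) =
      ∑ x with x ∉ P, (if x ∈ A then (1 : ℝ) else 0) * (if x ∈ A' then 1 else 0) := by
    intro A A'
    have h2 : (A ∩ A') \ P = (univ.filter fun x => x ∉ P).filter fun x => x ∈ A ∧ x ∈ A' := by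
      ext x; simp only [mem_sdiff, mem_inter, mem_filter, mem_univ, true_and]; tauto
    rw [h2, ← sum_boole]
    refine sum_congr rfl fun x _ => ?_
    by_cases ha : x ∈ A <;> by_cases hb : x ∈ A' <;> simp [ha, hb]
  have h3 : ∀ x, pop p x = ∑ A, p A * (if x ∈ A then (1 : ℝ) else 0) := by
    intro x
    rw [pop, sum_filter]
    refine sum_congr rfl fun A _ => ?_
    split_ifs <;> simp
  calc ∑ A, ∑ A', p A * p A' * (((A ∩ A') \ P).card : ℝ)
      = ∑ A, ∑ A', ∑ x with x ∉ P, (p A * (if x ∈ A then (1 : ℝ) else 0)) *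
          (p A' * (if x ∈ A' then 1 else 0)) := by
        refine sum_congr rfl fun A _ => sum_congr rfl fun A' _ => ?_
        rw [h1, mul_sum]
        exact sum_congr rfl fun x _ => by ring
    _ = ∑ x with x ∉ P, ∑ A, ∑ A', (p A * (if x ∈ A then (1 : ℝ) else 0)) *
          (p A' * (if x ∈ A' then 1 else 0)) := by
        rw [sum_congr rfl fun A _ => sum_comm, sum_comm]
    _ = ∑ x with x ∉ P, pop p x ^ 2 := by
        refine sum_congr rfl fun x _ => ?_
        rw [h3, sq, sum_mul_sum]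

theorem p_PD (hPB : T_PB.{u}) (hPC : T_PC.{u}) : T_PD.{u} := by
  intro X _ _ p R D t hp hR
  have hR1 : 1 ≤ R := by omega
  have hR2 : (2 : ℝ) ≤ R := by exact_mod_cast hR
  have hR0 : (0 : ℝ) < R := by linarith
  have hPc := hPB X p R D (2 * t) hp hR
  have hS := hPC X p R D (2 * t) hp hR
  obtain ⟨hp0, hp1, hpY⟩ := hp
  set P := Pj p R (2 * t) with hP
  set h : ℕ := D * (4 * t + D + 5) + 1 + 2 * t with hh
  set E2 : ℝ := ∑ A with h + 1 ≤ (A ∩ P).card, p A with hE2
  set V : ℝ := 2 * ((h : ℝ) + 1) ^ D / (R : ℝ) ^ t with hV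
  have hV0 : 0 ≤ V := by positivity
  -- the second term
  have h2 : (R : ℝ) ^ (2 * t) * E2 ≤ 1 := by
    have h3 : (R : ℝ) ^ (h + 1) * E2 ≤ (R : ℝ) ^ (D * (4 * t + D + 5) + 1) := by
      refine (hpY P (h + 1)).trans ?_
      have h4 : 2 * (P.card + 1) ^ D ≤ R ^ (D * (4 * t + D + 5) + 1) := by
        have e : R ^ (D * (4 * t + D + 5) + 1) = R * (R ^ (2 * (2 * t) + D + 5)) ^ D := by
          rw [← pow_mul, pow_succ, mul_comm (R ^ _)]
          congr 2; ring
        rw [e]
        exact Nat.mul_le_mul hR (Nat.pow_le_pow_left hPc D)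
      exact_mod_cast h4
    have e : (R : ℝ) ^ (h + 1) = (R : ℝ) ^ (D * (4 * t + D + 5) + 1) * (R : ℝ) ^ (2 * t + 1) := by
      rw [← pow_add]; congr 1
    rw [e, mul_assoc] at h3
    have h5 : (0 : ℝ) < (R : ℝ) ^ (D * (4 * t + D + 5) + 1) := by positivity
    have h6 : (R : ℝ) ^ (2 * t + 1) * E2 ≤ 1 := (mul_le_iff_le_one_right h5).mp h3
    have hE0 : 0 ≤ E2 := sum_nonneg fun A _ => hp0 A
    have h7 : (R : ℝ) ^ (2 * t) * E2 ≤ (R : ℝ) ^ (2 * t + 1) * E2 := by
      apply mul_le_mul_of_nonneg_right _ hE0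
      exact pow_le_pow_right₀ (by linarith) (by omega)
    linarith
  -- the third term, for every A
  have h3 : ∀ A : Finset X, (A ∩ P).card ≤ h →
      ∑ A' with t ≤ (A' ∩ (A ∩ P)).card, p A' ≤ V := by
    intro A hA
    rw [hV, le_div_iff₀ (by positivity), mul_comm]
    refine (hpY (A ∩ P) t).trans ?_
    have : ((A ∩ P).card : ℝ) ≤ h := by exact_mod_cast hA
    gcongr
  -- the pointwise bound
  have hpt : ∀ A A' : Finset X, t ≤ (A ∩ A').card →
      (1 : ℝ) ≤ (((A ∩ A') \ P).card : ℝ) + (if h + 1 ≤ (A ∩ P).card then 1 else 0) +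
        (if (A ∩ P).card ≤ h ∧ t ≤ (A' ∩ (A ∩ P)).card then 1 else 0) := by
    intro A A' hAA
    by_cases hc1 : (A ∩ A') \ P = ∅
    · have hsub : A ∩ A' ⊆ P := sdiff_eq_empty_iff_subset.mp hc1
      have e : A' ∩ (A ∩ P) = A ∩ A' := by
        ext x
        simp only [mem_inter]
        constructor
        · rintro ⟨h1, h2, _⟩; exact ⟨h2, h1⟩
        · rintro ⟨h1, h2⟩; exact ⟨h2, h1, hsub (mem_inter.mpr ⟨h1, h2⟩)⟩
      rcases Nat.lt_or_ge h (A ∩ P).card with hc2 | hc2
      · have h5 : h + 1 ≤ (A ∩ P).card := hc2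
        have h6 : ¬ ((A ∩ P).card ≤ h ∧ t ≤ (A' ∩ (A ∩ P)).card) := by omega
        rw [if_pos h5, if_neg h6, hc1]; simp
      · have h5 : ¬ (h + 1 ≤ (A ∩ P).card) := by omega
        have h6 : (A ∩ P).card ≤ h ∧ t ≤ (A' ∩ (A ∩ P)).card := ⟨hc2, by rw [e]; exact hAA⟩
        rw [if_neg h5, if_pos h6, hc1]; simp
    · have h7 : 1 ≤ ((A ∩ A') \ P).card := card_pos.mpr (nonempty_iff_ne_empty.mpr hc1)
      have h8 : (1 : ℝ) ≤ (((A ∩ A') \ P).card : ℝ) := by exact_mod_cast h7
      have h9 : (0 : ℝ) ≤ (if h + 1 ≤ (A ∩ P).card then 1 else 0) := by split_ifs <;> norm_num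
      have h10 : (0 : ℝ) ≤ (if (A ∩ P).card ≤ h ∧ t ≤ (A' ∩ (A ∩ P)).card then 1 else 0) := by
        split_ifs <;> norm_num
      linarith
  have hmain : meet p t ≤ ∑ x with x ∉ P, pop p x ^ 2 + E2 + V := by
    calc meet p t ≤ ∑ A, ∑ A', (p A * p A' * (((A ∩ A') \ P).card : ℝ) +
          p A * (if h + 1 ≤ (A ∩ P).card then 1 else 0) * p A' +
          p A * (if (A ∩ P).card ≤ h then
            (if t ≤ (A' ∩ (A ∩ P)).card then p A' else 0) else 0)) := by
          rw [meet]
          refine sum_le_sum fun A _ => ?_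
          rw [sum_filter]
          refine sum_le_sum fun A' _ => ?_
          have hpp : 0 ≤ p A * p A' := mul_nonneg (hp0 A) (hp0 A')
          have hpt' := hpt A A'
          have e3 : (if (A ∩ P).card ≤ h then
              (if t ≤ (A' ∩ (A ∩ P)).card then p A' else 0) else 0) =
              p A' * (if (A ∩ P).card ≤ h ∧ t ≤ (A' ∩ (A ∩ P)).card then 1 else 0) := by
            by_cases h1 : (A ∩ P).card ≤ h
            · by_cases h2 : t ≤ (A' ∩ (A ∩ P)).card
              · rw [if_pos h1, if_pos h2, if_pos ⟨h1, h2⟩, mul_one]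
              · rw [if_pos h1, if_neg h2, if_neg (fun hn => h2 hn.2), mul_zero]
            · rw [if_neg h1, if_neg (fun hn => h1 hn.1), mul_zero]
          have h9 : (0 : ℝ) ≤ (if h + 1 ≤ (A ∩ P).card then 1 else 0) := by
            split_ifs
            exacts [zero_le_one, le_rfl]
          have h10 : (0 : ℝ) ≤
              (if (A ∩ P).card ≤ h ∧ t ≤ (A' ∩ (A ∩ P)).card then 1 else 0) := by
            split_ifs
            exacts [zero_le_one, le_rfl]
          have h11 : (0 : ℝ) ≤ (((A ∩ A') \ P).card : ℝ) := Nat.cast_nonneg _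
          rw [e3]
          generalize (if h + 1 ≤ (A ∩ P).card then (1 : ℝ) else 0) = u2 at hpt' h9 ⊢
          generalize (if (A ∩ P).card ≤ h ∧ t ≤ (A' ∩ (A ∩ P)).card then (1 : ℝ) else 0) = u3
            at hpt' h10 ⊢
          generalize (((A ∩ A') \ P).card : ℝ) = u1 at hpt' h11 ⊢
          have e : p A * p A' * u1 + p A * u2 * p A' + p A * (p A' * u3) =
              p A * p A' * (u1 + u2 + u3) := by ring
          rw [e]
          by_cases hc : t ≤ (A ∩ A').card
          · rw [if_pos hc]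
            calc p A * p A' = p A * p A' * 1 := by ring
              _ ≤ _ := mul_le_mul_of_nonneg_left (hpt' hc) hpp
          · rw [if_neg hc]
            exact mul_nonneg hpp (by linarith)
      _ = ∑ x with x ∉ P, pop p x ^ 2 + E2 + ∑ A, p A * (if (A ∩ P).card ≤ h then
            ∑ A' with t ≤ (A' ∩ (A ∩ P)).card, p A' else 0) := by
          simp only [sum_add_distrib]
          rw [PD_sq]
          congr 1
          · congr 1
            rw [hE2, sum_filter]
            refine sum_congr rfl fun A _ => ?_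
            rw [← mul_sum, hp1]
            split_ifs <;> simp
          · refine sum_congr rfl fun A _ => ?_
            rw [← mul_sum]
            congr 1
            split_ifs
            · rw [sum_filter]
            · simp
      _ ≤ ∑ x with x ∉ P, pop p x ^ 2 + E2 + V := by
          have : ∑ A, p A * (if (A ∩ P).card ≤ h then
              ∑ A' with t ≤ (A' ∩ (A ∩ P)).card, p A' else 0) ≤ ∑ A, p A * V := by
            refine sum_le_sum fun A _ => mul_le_mul_of_nonneg_left ?_ (hp0 A)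
            split_ifs with hc
            · exact h3 A hc
            · exact hV0
          rw [← sum_mul, hp1, one_mul] at this
          linarith
  have hRt : (0 : ℝ) < (R : ℝ) ^ t := by positivity
  have e2t : (R : ℝ) ^ (2 * t) = (R : ℝ) ^ t * (R : ℝ) ^ t := by rw [← pow_add]; congr 1; ring
  have hA1 : (R : ℝ) ^ t * (∑ x with x ∉ P, pop p x ^ 2 + E2) ≤
      (8 * D * t + 2 * D ^ 2 + 18 * D + 5) / (R : ℝ) ^ t := by
    rw [le_div_iff₀ hRt]
    rw [e2t] at hS h2
    push_cast at hS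
    nlinarith
  have hA2 : (R : ℝ) ^ t * V = 2 * ((4 * D + 2) * t + D ^ 2 + 5 * D + 2 : ℝ) ^ D := by
    rw [hV, mul_div_cancel₀ _ hRt.ne']
    congr 2
    rw [hh]; push_cast; ring
  calc meet p t * (R : ℝ) ^ t ≤ (∑ x with x ∉ P, pop p x ^ 2 + E2 + V) * (R : ℝ) ^ t := by gcongr
    _ = (R : ℝ) ^ t * V + (R : ℝ) ^ t * (∑ x with x ∉ P, pop p x ^ 2 + E2) := by ring
    _ ≤ _ := by rw [hA2]; linarith

end Pool.Agent.VCS
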