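import Pool.Agent.VCS.Targets

set_option autoImplicit false

open Finset

namespace Pool.Agent.VCS

universe u

theorem p_PE (hPD : T_PD.{u}) (hPN : T_PN) : T_PE.{u} := by
  intro X _ _ p R D t hp hR hD ht
  have h1 := hPD X p R D t hp hR
  obtain ⟨h2, h3⟩ := hPN D t hD ht
  have hR2 : (2 : ℝ) ≤ R := by exact_mod_cast hR
  have h4 : (2 : ℝ) * ((4 * D + 2) * t + D ^ 2 + 5 * D + 2 : ℝ) ^ D ≤ 2 ^ t := by
    exact_mod_cast h2
  have h5 : (8 * D * t + 2 * D ^ 2 + 18 * D + 5 : ℝ) ≤ 2 ^ t := by exact_mod_cast h3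
  have h6 : (8 * D * t + 2 * D ^ 2 + 18 * D + 5 : ℝ) / (R : ℝ) ^ t ≤ 1 := by
    rw [div_le_one (by positivity)]
    exact h5.trans (pow_le_pow_left₀ (by norm_num) hR2 t)
  have h7 : 1 ≤ t := by
    have : 0 < D ^ 3 := by positivity
    omega
  have h8 : (2 : ℝ) ^ t + 1 ≤ 4 ^ t := by
    have e : (4 : ℝ) ^ t = 2 ^ t * 2 ^ t := by rw [← mul_pow]; norm_num
    have h9 : (2 : ℝ) ≤ 2 ^ t := by
      calc (2 : ℝ) = 2 ^ 1 := by norm_num
        _ ≤ 2 ^ t := pow_le_pow_right₀ (by norm_num) h7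
    rw [e]
    nlinarith
  linarith

end Pool.Agent.VCS
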