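import Pool.Agent.VCS.Targets

set_option autoImplicit false

namespace Pool.Agent.VCS

lemma PN_pow (n : ℕ) (hn : 12 ≤ n) : 14 * n * (n + 1) ≤ 2 ^ n := by
  induction n, hn using Nat.le_induction with
  | base => norm_num
  | succ n hn ih =>
    have e : 2 ^ (n + 1) = 2 * 2 ^ n := by ring
    rw [e]
    nlinarith

theorem p_PN : T_PN := by
  intro D t hD ht
  set n := t / D with hn
  have h1 : D * n ≤ t := Nat.mul_div_le _ _
  have h2 : t < D * (n + 1) := Nat.lt_mul_div_succ t (by omega)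
  have h3 : D ^ 2 + 11 ≤ n := by
    rw [hn, Nat.le_div_iff_mul_le (by omega)]
    calc (D ^ 2 + 11) * D = D ^ 3 + 11 * D := by ring
      _ ≤ t := ht
  have hD2 : 1 ≤ D ^ 2 := Nat.one_le_pow _ _ (by omega)
  have hDD : D ≤ D ^ 2 := Nat.le_self_pow (by norm_num) D
  have h4 : 14 * n * (n + 1) ≤ 2 ^ n := PN_pow n (by omega)
  have hD3 : D ^ 2 ≤ D ^ 3 := Nat.pow_le_pow_right hD (by norm_num)
  have h5 : 14 * D ^ 2 * (n + 1) ≤ 2 ^ n := by
    refine le_trans ?_ h4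
    gcongr
    omega
  have h6 : 14 * (D * t) ≤ 14 * D ^ 2 * (n + 1) := by
    calc 14 * (D * t) ≤ 14 * (D * (D * (n + 1))) := by gcongr
      _ = 14 * D ^ 2 * (n + 1) := by ring
  have ht1 : D ^ 2 + 5 * D + 2 ≤ t := by omega
  constructor
  · have h7 : (4 * D + 2) * t + D ^ 2 + 5 * D + 2 ≤ 7 * (D * t) := by nlinarith
    calc 2 * ((4 * D + 2) * t + D ^ 2 + 5 * D + 2) ^ D
        ≤ 2 ^ D * (7 * (D * t)) ^ D := by
          apply Nat.mul_le_mul
          · exact Nat.le_self_pow (by omega) 2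
          · exact Nat.pow_le_pow_left h7 D
      _ = (14 * (D * t)) ^ D := by rw [← mul_pow]; congr 1; ring
      _ ≤ (2 ^ n) ^ D := Nat.pow_le_pow_left (h6.trans h5) D
      _ = 2 ^ (D * n) := by rw [← pow_mul, mul_comm]
      _ ≤ 2 ^ t := Nat.pow_le_pow_right (by norm_num) h1
  · have h8 : 2 ^ n ≤ 2 ^ t := by
      apply Nat.pow_le_pow_right (by norm_num)
      exact Nat.div_le_self t D
    have h9 : 2 * D ^ 2 + 18 * D + 5 ≤ 6 * (D * t) := by nlinarith
    calc 8 * D * t + 2 * D ^ 2 + 18 * D + 5 = 8 * (D * t) + (2 * D ^ 2 + 18 * D + 5) := by ring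
      _ ≤ 8 * (D * t) + 6 * (D * t) := by omega
      _ = 14 * (D * t) := by ring
      _ ≤ 2 ^ t := (h6.trans h5).trans h8

end Pool.Agent.VCS
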