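import Pool.Agent.VCS.Targets

/-!
# Project VCS (MP_2812e0_co): one link
-/

set_option autoImplicit false

noncomputable section

open Finset

namespace Pool.Agent.VCS

universe u

variable {X : Type u} [Fintype X] [DecidableEq X]

/-- `bad` of a restricted law. -/
theorem SL_bad_le {p p' : Finset X → ℝ} {W₁ W₂ : Finset X}
    (h : ∀ T, 0 < p' T → ∃ A, 0 < p A ∧ A ⊆ T ∪ W₁) : bad p (W₁ ∪ W₂) ≤ bad p' W₂ := by
  unfold bad
  by_cases h1 : ∃ T, 0 < p' T ∧ T ⊆ W₂
  · obtain ⟨T, hT, hTW⟩ := h1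
    obtain ⟨A, hA, hAT⟩ := h T hT
    have h2 : ∃ A, 0 < p A ∧ A ⊆ W₁ ∪ W₂ := by
      refine ⟨A, hA, hAT.trans ?_⟩
      rw [union_comm]
      exact union_subset_union_right hTW
    rw [if_pos h2, if_pos ⟨T, hT, hTW⟩]
  · rw [if_neg h1]
    split_ifs <;> norm_num

omit [Fintype X] [DecidableEq X] in
/-- The inner sum of the first round. -/
theorem SL_inner (q : ℝ) (hq : 0 < q) (s : ℕ) (Y : Finset X) :
    ∑ T ∈ Y.powerset with s < T.card, (1 / q) ^ T.card ≤
      if s < Y.card then (1 + 1 / q) ^ Y.card else 0 := by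
  split_ifs with h
  · have h1 := Finset.sum_pow_mul_eq_add_pow (1 / q) 1 Y
    simp only [one_pow, mul_one] at h1
    rw [add_comm, ← h1]
    exact sum_le_sum_of_subset_of_nonneg (filter_subset _ _) fun T _ _ => by positivity
  · rw [filter_false_of_mem, sum_empty]
    intro T hT
    rw [mem_powerset] at hT
    have := card_le_card hT
    omega

omit [DecidableEq X] in
/-- Markov's inequality for the law `p`. -/
theorem SL_markov (p g : Finset X → ℝ) (η : ℝ) (hp : ∀ A, 0 ≤ p A) (hg : ∀ A, 0 ≤ g A)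
    (hs : ∑ A, p A = 1) (h : ∑ A, p A * g A ≤ η) :
    3 / 4 ≤ ∑ A, if g A ≤ 4 * η then p A else 0 := by
  have hη : 0 ≤ η := le_trans (sum_nonneg fun A _ => mul_nonneg (hp A) (hg A)) h
  have h1 : ∑ A, (if g A ≤ 4 * η then p A else 0) + ∑ A, (if g A ≤ 4 * η then 0 else p A) = 1 := by
    rw [← sum_add_distrib, ← hs]
    refine sum_congr rfl fun A _ => ?_
    split_ifs <;> ring
  have h2 : ∑ A, (if g A ≤ 4 * η then 0 else p A) ≤ 1 / 4 := by
    rcases hη.eq_or_lt with h0 | h0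
    · have h3 : ∑ A, p A * g A = 0 := by
        refine le_antisymm (by linarith) (sum_nonneg fun A _ => mul_nonneg (hp A) (hg A))
      rw [sum_eq_zero_iff_of_nonneg fun A _ => mul_nonneg (hp A) (hg A)] at h3
      have h4 : ∑ A, (if g A ≤ 4 * η then 0 else p A) = 0 := by
        refine sum_eq_zero fun A hA => ?_
        split_ifs with h5
        · rfl
        · rcases mul_eq_zero.1 (h3 A hA) with h6 | h6
          · exact h6
          · exact absurd (by rw [h6, ← h0]; norm_num) h5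
      rw [h4]
      norm_num
    · have h3 : 4 * η * ∑ A, (if g A ≤ 4 * η then 0 else p A) ≤ ∑ A, p A * g A := by
        rw [mul_sum]
        refine sum_le_sum fun A _ => ?_
        split_ifs with h5
        · rw [mul_zero]
          exact mul_nonneg (hp A) (hg A)
        · rw [mul_comm]
          exact mul_le_mul_of_nonneg_left (not_le.1 h5).le (hp A)
      have h4 : 4 * η * ∑ A, (if g A ≤ 4 * η then 0 else p A) ≤ 4 * η * (1 / 4) := by linarith
      exact le_of_mul_le_mul_left h4 (by linarith)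
  linarith

theorem SL_up_empty (p : Finset X → ℝ) : up p ∅ = ∑ A, p A := by
  unfold up
  rw [filter_true_of_mem fun A _ => empty_subset A]

theorem p_SL (hEC : T_EC.{u}) (hOR : T_OR.{u}) (hIT : T_IT.{u}) : T_SL.{u} := by
  intro X _ _ p q η R ℓ n s hq0 hq1 hqR hs hp hp1 hup hη
  set g : Finset X → ℝ := fun A₀ =>
    ∑ A with s < (A ∩ A₀).card, p A * (1 + 1 / q) ^ (A ∩ A₀).card with hg
  have hq' : 0 < 1 + 1 / q := by positivity
  have hg0 : ∀ A, 0 ≤ g A := fun A₀ => sum_nonneg fun A _ => mul_nonneg (hp A) (by positivity)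
  have hgη : ∑ A, p A * g A ≤ η := by
    refine le_trans (le_of_eq ?_) hη
    refine sum_congr rfl fun A₀ _ => ?_
    rw [hg]
    simp only
    rw [mul_sum]
    exact sum_congr rfl fun A _ => by ring
  have hη0 : 0 ≤ η := le_trans (sum_nonneg fun A _ => mul_nonneg (hp A) (hg0 A)) hgη
  have hmass := SL_markov p g η hp hg0 hp1 hgη
  set p₁ : Finset X → ℝ := fun A => if g A ≤ 4 * η then p A else 0 with hp₁
  have hp₁0 : ∀ A, 0 ≤ p₁ A := by
    intro A
    simp only [hp₁]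
    split_ifs
    · exact hp A
    · exact le_rfl
  have hp₁le : ∀ A, p₁ A ≤ p A := by
    intro A
    simp only [hp₁]
    split_ifs
    · exact le_rfl
    · exact hp A
  have hup₁ : ∀ T, up p₁ T ≤ up p T := fun T => sum_le_sum fun A _ => hp₁le A
  have hOR' := hOR X p₁ q (4 * η) s hp₁0 hq0 hq1 (by linarith) (by
    intro A₀ hA₀
    have h1 : g A₀ ≤ 4 * η := by
      by_contra hc
      simp only [hp₁, if_neg hc] at hA₀
      exact lt_irrefl _ hA₀
    refine le_trans ?_ h1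
    rw [hg]
    simp only
    rw [sum_filter]
    refine sum_le_sum fun A _ => ?_
    have h2 := SL_inner q hq0 s (A ∩ A₀)
    have h3 : 0 ≤ ∑ T ∈ (A ∩ A₀).powerset with s < T.card, (1 / q) ^ T.card :=
      sum_nonneg fun T _ => by positivity
    calc p₁ A * ∑ T ∈ (A ∩ A₀).powerset with s < T.card, (1 / q) ^ T.card
        ≤ p A * ∑ T ∈ (A ∩ A₀).powerset with s < T.card, (1 / q) ^ T.card :=
          mul_le_mul_of_nonneg_right (hp₁le A) h3
      _ ≤ p A * (if s < (A ∩ A₀).card then (1 + 1 / q) ^ (A ∩ A₀).card else 0) :=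
          mul_le_mul_of_nonneg_left h2 (hp A)
      _ = if s < (A ∩ A₀).card then p A * (1 + 1 / q) ^ (A ∩ A₀).card else 0 := by
          rw [mul_ite, mul_zero])
  obtain ⟨p', h0', hs', hup', hL'⟩ := hOR'
  have hloss : ∀ W, 0 ≤ ∑ A, p₁ A - ∑ T, p' W T := by
    intro W
    have h1 := hup' W ∅
    rw [SL_up_empty, SL_up_empty] at h1
    linarith
  set c : ℝ := 1 - (1 - q) ^ n with hc
  have hc0 : 0 ≤ c := by
    have : (1 - q) ^ n ≤ 1 := pow_le_one₀ (by linarith) (by linarith)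
    linarith
  have hc1 : c ≤ 1 := by
    have : 0 ≤ (1 - q) ^ n := pow_nonneg (by linarith) n
    linarith
  have hA0 : (0 : ℝ) ≤ 4 ^ ℓ / 2 ^ n := by positivity
  have hmain : ∀ W₁, Ex c (fun W₂ => bad p (W₁ ∪ W₂)) ≤
      4 ^ ℓ / 2 ^ n + 4 * (∑ A, p₁ A - ∑ T, p' W₁ T) := by
    intro W₁
    by_cases hf : ∑ A, p₁ A - ∑ T, p' W₁ T ≤ 1 / 4
    · have h1 : Ex c (fun W₂ => bad p (W₁ ∪ W₂)) ≤ Ex c (bad (p' W₁)) := by
        refine Ex_mono hc0 hc1 fun W₂ => SL_bad_le fun T hT => ?_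
        obtain ⟨-, A, hA, hAT⟩ := hs' W₁ T hT
        exact ⟨A, hA.trans_le (hp₁le A), hAT⟩
      have h2 := hIT X q R hq0 hq1 hqR n ℓ (p' W₁) (h0' W₁)
        (fun A hA => lt_of_le_of_lt (hs' W₁ A hA).1 hs) (by
          have h3 : (0 : ℝ) ≤ (1 / 2 : ℝ) ^ (ℓ + 2) := by positivity
          have h4 : 3 / 4 ≤ ∑ A, p₁ A := hmass
          linarith) (by
          intro T
          refine le_trans ?_ (hup T)
          exact mul_le_mul_of_nonneg_right ((hup' W₁ T).trans (hup₁ T)) (by positivity))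
      have h5 := hloss W₁
      have h6 : Ex c (bad (p' W₁)) ≤ 4 ^ ℓ / 2 ^ n := h2
      linarith
    · have h1 : Ex c (fun W₂ => bad p (W₁ ∪ W₂)) ≤ Ex c (fun _ : Finset X => (1 : ℝ)) :=
        Ex_mono hc0 hc1 fun W₂ => bad_le_one p _
      rw [Ex_const] at h1
      push Not at hf
      linarith
  have hE := hEC X q c (bad p)
  have hcc : 1 - (1 - q) * (1 - c) = 1 - (1 - q) ^ (n + 1) := by
    rw [hc]
    ring
  rw [hcc] at hE
  rw [← hE]
  have h1 : Ex q (fun W₁ => Ex c (fun W₂ => bad p (W₁ ∪ W₂))) ≤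
      Ex q (fun W₁ => 4 ^ ℓ / 2 ^ n + 4 * (∑ A, p₁ A - ∑ T, p' W₁ T)) :=
    Ex_mono hq0.le hq1 hmain
  rw [Ex_add, Ex_const, Ex_smul] at h1
  linarith

end Pool.Agent.VCS
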