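import Pool.Agent.VCS.Targets

set_option autoImplicit false

/-!
# Project VCS, target SM: the second moment
-/

noncomputable section

open Finset

namespace Pool.Agent.VCS

universe u

variable {X : Type u} [Fintype X] [DecidableEq X]

/-- the colourings which agree with `D` -/
def SM_agr {k : ℕ} (D : Finset (X × Fin k)) : Finset (X → Fin k) :=
  univ.filter fun χ => ∀ z ∈ D, χ z.1 = z.2

/-- the possible colours of `x` -/
def SM_t {k : ℕ} (D : Finset (X × Fin k)) (x : X) : Finset (Fin k) :=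
  univ.filter fun i => ∀ z ∈ D, z.1 = x → i = z.2

lemma SM_agr_eq {k : ℕ} (D : Finset (X × Fin k)) :
    SM_agr D = Fintype.piFinset (SM_t D) := by
  ext χ
  simp only [SM_agr, SM_t, mem_filter, mem_univ, true_and, Fintype.mem_piFinset]
  constructor
  · intro h x z hz hx
    rw [← hx]
    exact h z hz
  · intro h z hz
    exact h z.1 z hz rfl

lemma SM_prod {k : ℕ} (D : Finset (X × Fin k)) :
    (SM_agr D).card * k ^ D.card =
      ∏ x : X, ((SM_t D x).card * k ^ (D.filter fun z => z.1 = x).card) := by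
  rw [SM_agr_eq, Fintype.card_piFinset, prod_mul_distrib, prod_pow_eq_pow_sum]
  rw [← card_eq_sum_card_fiberwise (f := fun z : X × Fin k => z.1) (s := D) (t := univ)
    (fun _ _ => mem_univ _)]

lemma SM_fac_le {k : ℕ} (D : Finset (X × Fin k)) (x : X) :
    (SM_t D x).card * k ^ (D.filter fun z => z.1 = x).card ≤ k := by
  rcases (D.filter fun z => z.1 = x).eq_empty_or_nonempty with h | h
  · rw [h, card_empty, pow_zero, mul_one]
    refine (card_le_univ _).trans (by simp)
  · obtain ⟨z, hz⟩ := h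
    rw [mem_filter] at hz
    rcases (SM_t D x).eq_empty_or_nonempty with h1 | h1
    · rw [h1, card_empty, zero_mul]
      exact Nat.zero_le _
    · obtain ⟨i, hi⟩ := h1
      have hi' : ∀ z ∈ D, z.1 = x → i = z.2 := by
        simpa [SM_t] using hi
      have h2 : SM_t D x ⊆ {z.2} := by
        intro j hj
        have hj' : ∀ z ∈ D, z.1 = x → j = z.2 := by
          simpa [SM_t] using hj
        rw [mem_singleton]
        exact hj' z hz.1 hz.2
      have h3 : (D.filter fun z => z.1 = x) ⊆ {(x, i)} := by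
        intro y hy
        rw [mem_filter] at hy
        rw [mem_singleton]
        exact Prod.ext hy.2 (hi' y hy.1 hy.2).symm
      have h4 := card_le_card h2
      have h5 := card_le_card h3
      rw [card_singleton] at h4 h5
      have hk : 1 ≤ k := Nat.one_le_iff_ne_zero.2 (by rintro rfl; exact i.elim0)
      calc (SM_t D x).card * k ^ (D.filter fun z => z.1 = x).card ≤ 1 * k ^ 1 :=
            Nat.mul_le_mul h4 (Nat.pow_le_pow_right hk h5)
        _ = k := by simp

lemma SM_fac_eq {k : ℕ} (D : Finset (X × Fin k))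
    (hD : ∀ x i j, (x, i) ∈ D → (x, j) ∈ D → i = j) (x : X) :
    (SM_t D x).card * k ^ (D.filter fun z => z.1 = x).card = k := by
  rcases (D.filter fun z => z.1 = x).eq_empty_or_nonempty with h | h
  · have h1 : SM_t D x = univ := by
      ext i
      simp only [SM_t, mem_filter, mem_univ, true_and, iff_true]
      intro z hz hx
      have : z ∈ D.filter fun z => z.1 = x := mem_filter.2 ⟨hz, hx⟩
      rw [h] at this
      exact absurd this (notMem_empty _)
    rw [h, card_empty, pow_zero, mul_one, h1, card_univ, Fintype.card_fin]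
  · obtain ⟨z, hz⟩ := h
    rw [mem_filter] at hz
    obtain ⟨hz1, hz2⟩ := hz
    have h1 : SM_t D x = {z.2} := by
      ext i
      simp only [SM_t, mem_filter, mem_univ, true_and, mem_singleton]
      constructor
      · intro h
        exact h z hz1 hz2
      · rintro rfl y hy hyx
        refine hD x z.2 y.2 ?_ ?_
        · rw [← hz2]; exact hz1
        · rw [← hyx]; exact hy
    have h2 : (D.filter fun z => z.1 = x) = {z} := by
      ext y
      simp only [mem_filter, mem_singleton]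
      constructor
      · rintro ⟨hy, hyx⟩
        refine Prod.ext (hyx.trans hz2.symm) ?_
        refine hD x y.2 z.2 ?_ ?_
        · rw [← hyx]; exact hy
        · rw [← hz2]; exact hz1
      · rintro rfl
        exact ⟨hz1, hz2⟩
    rw [h1, h2, card_singleton, card_singleton, pow_one, one_mul]

lemma SM_le {k : ℕ} (D : Finset (X × Fin k)) :
    (SM_agr D).card * k ^ D.card ≤ k ^ Fintype.card X := by
  rw [SM_prod]
  refine (prod_le_prod' fun x _ => SM_fac_le D x).trans ?_
  rw [prod_const, card_univ]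

lemma SM_eq {k : ℕ} (D : Finset (X × Fin k))
    (hD : ∀ x i j, (x, i) ∈ D → (x, j) ∈ D → i = j) :
    (SM_agr D).card * k ^ D.card = k ^ Fintype.card X := by
  rw [SM_prod, prod_congr rfl fun x _ => SM_fac_eq D hD x, prod_const, card_univ]

/-- the weighted number of the sets which agree with `χ` -/
def SM_N {k : ℕ} (p : Finset (X × Fin k) → ℝ) (χ : X → Fin k) : ℝ :=
  ∑ B, p B * ((k : ℝ) ^ B.card * if χ ∈ SM_agr B then 1 else 0)

lemma SM_ind {k : ℕ} (D : Finset (X × Fin k)) :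
    ∑ χ : X → Fin k, (if χ ∈ SM_agr D then (1 : ℝ) else 0) = ((SM_agr D).card : ℝ) := by
  rw [sum_ite_mem, univ_inter, sum_const, nsmul_eq_mul, mul_one]

lemma SM_first {k : ℕ} (p : Finset (X × Fin k) → ℝ) (h0 : ∀ B, 0 ≤ p B) (h1 : ∑ B, p B = 1)
    (hp : ∀ B, 0 < p B → ∀ x i j, (x, i) ∈ B → (x, j) ∈ B → i = j) :
    ∑ χ, SM_N p χ = (k : ℝ) ^ Fintype.card X := by
  unfold SM_N
  rw [sum_comm]
  have h : ∀ B, ∑ χ : X → Fin k, p B * ((k : ℝ) ^ B.card * if χ ∈ SM_agr B then 1 else 0) =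
      p B * (k : ℝ) ^ Fintype.card X := by
    intro B
    rw [← mul_sum, ← mul_sum, SM_ind]
    rcases (h0 B).eq_or_lt with h | h
    · rw [← h]; simp
    · have h2 := SM_eq B (hp B h)
      congr 1
      rw [mul_comm]
      exact_mod_cast h2
  rw [sum_congr rfl fun B _ => h B, ← sum_mul, h1, one_mul]

lemma SM_inter {k : ℕ} (B B' : Finset (X × Fin k)) (χ : X → Fin k) :
    ((if χ ∈ SM_agr B then (1 : ℝ) else 0) * if χ ∈ SM_agr B' then 1 else 0) =
      if χ ∈ SM_agr (B ∪ B') then 1 else 0 := by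
  have h : χ ∈ SM_agr (B ∪ B') ↔ χ ∈ SM_agr B ∧ χ ∈ SM_agr B' := by
    simp only [SM_agr, mem_filter, mem_univ, true_and, mem_union]
    constructor
    · intro h
      exact ⟨fun z hz => h z (Or.inl hz), fun z hz => h z (Or.inr hz)⟩
    · rintro ⟨h1, h2⟩ z (hz | hz)
      · exact h1 z hz
      · exact h2 z hz
  by_cases h1 : χ ∈ SM_agr B <;> by_cases h2 : χ ∈ SM_agr B' <;> simp [h, h1, h2]

lemma SM_second {k : ℕ} (p : Finset (X × Fin k) → ℝ) (h0 : ∀ B, 0 ≤ p B) :
    ∑ χ, SM_N p χ ^ 2 ≤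
      (k : ℝ) ^ Fintype.card X * ∑ B, ∑ B', p B * p B' * (k : ℝ) ^ (B ∩ B').card := by
  have h : ∀ χ, SM_N p χ ^ 2 = ∑ B, ∑ B', p B * p B' * ((k : ℝ) ^ (B.card + B'.card) *
      if χ ∈ SM_agr (B ∪ B') then 1 else 0) := by
    intro χ
    unfold SM_N
    rw [sq, sum_mul_sum]
    refine sum_congr rfl fun B _ => sum_congr rfl fun B' _ => ?_
    rw [← SM_inter, pow_add]
    ring
  rw [sum_congr rfl fun χ _ => h χ, sum_comm, mul_sum]
  refine sum_le_sum fun B _ => ?_
  rw [sum_comm, mul_sum]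
  refine sum_le_sum fun B' _ => ?_
  rw [← mul_sum, ← mul_sum, SM_ind]
  have h1 : (k : ℝ) ^ (B.card + B'.card) * ((SM_agr (B ∪ B')).card : ℝ) ≤
      (k : ℝ) ^ Fintype.card X * (k : ℝ) ^ (B ∩ B').card := by
    rw [← card_union_add_card_inter, pow_add]
    have h2 : (((SM_agr (B ∪ B')).card : ℝ)) * (k : ℝ) ^ (B ∪ B').card ≤
        (k : ℝ) ^ Fintype.card X := by exact_mod_cast SM_le (B ∪ B')
    calc (k : ℝ) ^ (B ∪ B').card * (k : ℝ) ^ (B ∩ B').card * ((SM_agr (B ∪ B')).card : ℝ)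
        = (((SM_agr (B ∪ B')).card : ℝ)) * (k : ℝ) ^ (B ∪ B').card *
          (k : ℝ) ^ (B ∩ B').card := by ring
      _ ≤ _ := mul_le_mul_of_nonneg_right h2 (by positivity)
  calc p B * p B' * ((k : ℝ) ^ (B.card + B'.card) * ((SM_agr (B ∪ B')).card : ℝ))
      ≤ p B * p B' * ((k : ℝ) ^ Fintype.card X * (k : ℝ) ^ (B ∩ B').card) :=
        mul_le_mul_of_nonneg_left h1 (mul_nonneg (h0 B) (h0 B'))
    _ = _ := by ring

lemma SM_pow {k : ℕ} (z M : ℕ) (hz : z ≤ M) :
    (k : ℝ) ^ z - 1 ≤ ∑ t ∈ Icc 1 M, if t ≤ z then (k : ℝ) ^ t else 0 := by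
  have hnn : ∀ t ∈ Icc 1 M, 0 ≤ (if t ≤ z then (k : ℝ) ^ t else 0) := by
    intro t _
    split_ifs
    · positivity
    · exact le_rfl
  rcases Nat.eq_zero_or_pos z with rfl | hz0
  · rw [pow_zero, sub_self]
    exact sum_nonneg hnn
  · have h := single_le_sum hnn (mem_Icc.2 ⟨hz0, hz⟩)
    rw [if_pos le_rfl] at h
    linarith

theorem p_SM : T_SM.{u} := by
  intro X _ _ k p _ h0 h1 hp
  set n := Fintype.card X with hn
  have e1 := SM_first p h0 h1 hp
  have e2 := SM_second p h0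
  have e3 : ((univ.filter fun χ : X → Fin k => ¬ ∃ B, 0 < p B ∧ ∀ z ∈ B, χ z.1 = z.2).card : ℝ)
      ≤ ∑ χ, (SM_N p χ - 1) ^ 2 := by
    have h : ((univ.filter fun χ : X → Fin k =>
        ¬ ∃ B, 0 < p B ∧ ∀ z ∈ B, χ z.1 = z.2).card : ℝ) =
        ∑ χ ∈ univ.filter (fun χ : X → Fin k =>
          ¬ ∃ B, 0 < p B ∧ ∀ z ∈ B, χ z.1 = z.2), (SM_N p χ - 1) ^ 2 := by
      rw [card_eq_sum_ones, Nat.cast_sum]
      refine sum_congr rfl fun χ hχ => ?_
      rw [mem_filter] at hχ
      have h2 : SM_N p χ = 0 := by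
        unfold SM_N
        refine sum_eq_zero fun B _ => ?_
        rcases (h0 B).eq_or_lt with h | h
        · rw [← h, zero_mul]
        · have h3 : χ ∉ SM_agr B := by
            intro h4
            simp only [SM_agr, mem_filter, mem_univ, true_and] at h4
            exact hχ.2 ⟨B, h, h4⟩
          rw [if_neg h3, mul_zero, mul_zero]
      rw [h2]
      norm_num
    rw [h]
    exact sum_le_sum_of_subset_of_nonneg (filter_subset _ _) fun _ _ _ => sq_nonneg _
  have e4 : ∑ χ, (SM_N p χ - 1) ^ 2 = ∑ χ, SM_N p χ ^ 2 - (k : ℝ) ^ n := by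
    have h : ∀ χ, (SM_N p χ - 1) ^ 2 = SM_N p χ ^ 2 - 2 * SM_N p χ + 1 := fun χ => by ring
    rw [sum_congr rfl fun χ _ => h χ, sum_add_distrib, sum_sub_distrib, ← mul_sum, e1,
      sum_const, card_univ, Fintype.card_pi, prod_const, Fintype.card_fin, card_univ,
      nsmul_eq_mul, mul_one, Nat.cast_pow]
    ring
  have e5 : ∑ B, ∑ B', p B * p B' * ((k : ℝ) ^ (B ∩ B').card - 1) =
      (∑ B, ∑ B', p B * p B' * (k : ℝ) ^ (B ∩ B').card) - 1 := by
    have h : ∑ B, ∑ B', p B * p B' = (1 : ℝ) := by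
      rw [← sum_mul_sum, h1, one_mul]
    conv_rhs => rw [← h]
    rw [← sum_sub_distrib]
    refine sum_congr rfl fun B _ => ?_
    rw [← sum_sub_distrib]
    exact sum_congr rfl fun B' _ => by ring
  have e6 : ∑ B, ∑ B', p B * p B' * ((k : ℝ) ^ (B ∩ B').card - 1) ≤
      ∑ t ∈ Icc 1 (n * k), (k : ℝ) ^ t * meet p t := by
    have h : ∑ t ∈ Icc 1 (n * k), (k : ℝ) ^ t * meet p t =
        ∑ B, ∑ B', p B * p B' * ∑ t ∈ Icc 1 (n * k),
          (if t ≤ (B ∩ B').card then (k : ℝ) ^ t else 0) := by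
      simp only [meet, mul_sum, sum_filter]
      rw [sum_comm]
      refine sum_congr rfl fun B _ => ?_
      rw [sum_comm]
      refine sum_congr rfl fun B' _ => sum_congr rfl fun t _ => ?_
      split_ifs <;> ring
    rw [h]
    refine sum_le_sum fun B _ => sum_le_sum fun B' _ => ?_
    refine mul_le_mul_of_nonneg_left (SM_pow _ _ ?_) (mul_nonneg (h0 B) (h0 B'))
    refine (card_le_univ _).trans ?_
    rw [Fintype.card_prod, Fintype.card_fin]
  refine e3.trans ?_
  rw [e4]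
  have hk : (0 : ℝ) ≤ (k : ℝ) ^ n := by positivity
  calc ∑ χ, SM_N p χ ^ 2 - (k : ℝ) ^ n
      ≤ (k : ℝ) ^ n * ∑ B, ∑ B', p B * p B' * (k : ℝ) ^ (B ∩ B').card - (k : ℝ) ^ n := by
        linarith
    _ = (k : ℝ) ^ n * (∑ B, ∑ B', p B * p B' * (k : ℝ) ^ (B ∩ B').card - 1) := by ring
    _ = (k : ℝ) ^ n * ∑ B, ∑ B', p B * p B' * ((k : ℝ) ^ (B ∩ B').card - 1) := by rw [e5]
    _ ≤ _ := mul_le_mul_of_nonneg_left e6 hk

end Pool.Agent.VCS
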