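import Pool.Agent.VCS.Targets

/-!
# Project VCS (MP_2812e0_co): Sauer-Shelah for traces
-/

set_option autoImplicit false

open Finset

namespace Pool.Agent.VCS

universe u

lemma SS_count {X : Type u} [DecidableEq X] (Y : Finset X) (d : ℕ) :
    (Y.powerset.filter fun T => T.card ≤ d).card ≤ (Y.card + 1) ^ d := by
  classical
  let Φ : (Fin d → Option Y) → Finset X :=
    fun f => Y.filter fun x => ∃ i, ∃ h : x ∈ Y, f i = some ⟨x, h⟩
  have hsub : (Y.powerset.filter fun T => T.card ≤ d) ⊆ univ.image Φ := by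
    intro T hT
    rw [mem_filter, mem_powerset] at hT
    obtain ⟨hTY, hTd⟩ := hT
    rw [mem_image]
    refine ⟨fun i => if h : i.1 < T.card then
      some ⟨(T.equivFin.symm ⟨i.1, h⟩).1, hTY (T.equivFin.symm ⟨i.1, h⟩).2⟩ else none,
      mem_univ _, ?_⟩
    ext x
    simp only [Φ, mem_filter]
    constructor
    · rintro ⟨hx, i, h, hi⟩
      split_ifs at hi with hlt
      simp only [Option.some.injEq, Subtype.mk.injEq] at hi
      rw [← hi]
      exact (T.equivFin.symm ⟨i.1, hlt⟩).2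
    · intro hx
      refine ⟨hTY hx, ⟨(T.equivFin ⟨x, hx⟩).1,
        lt_of_lt_of_le (T.equivFin ⟨x, hx⟩).2 hTd⟩, hTY hx, ?_⟩
      have hlt : (T.equivFin ⟨x, hx⟩).1 < T.card := (T.equivFin ⟨x, hx⟩).2
      simp only [hlt, dite_true, Fin.eta, Equiv.symm_apply_apply]
  refine (card_le_card hsub).trans (card_image_le.trans ?_)
  rw [card_univ, Fintype.card_fun, Fintype.card_option, Fintype.card_coe, Fintype.card_fin]

/-- Sauer-Shelah for traces. -/
theorem p_SS : T_SS.{u} := by
  intro X _ _ F d hd Y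
  set E : Finset (Finset X) := F.image fun S => S ∩ Y with hE
  refine (card_le_card_shatterer E).trans ((card_le_card ?_).trans (SS_count Y d))
  intro T hT
  rw [mem_shatterer] at hT
  have hTY : T ⊆ Y := by
    obtain ⟨u, hu, hu2⟩ := hT (Subset.refl T)
    rw [hE, mem_image] at hu
    obtain ⟨S, _, rfl⟩ := hu
    intro x hx
    have : x ∈ T ∩ (S ∩ Y) := hu2.symm ▸ hx
    exact (mem_inter.1 (mem_inter.1 this).2).2
  rw [mem_filter, mem_powerset]
  refine ⟨hTY, ?_⟩
  have hF : F.Shatters T := by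
    intro V hV
    obtain ⟨u, hu, hu2⟩ := hT hV
    rw [hE, mem_image] at hu
    obtain ⟨S, hS, rfl⟩ := hu
    refine ⟨S, hS, ?_⟩
    rw [← hu2]
    ext x
    simp only [mem_inter]
    exact ⟨fun h => ⟨h.1, h.2, hTY h.1⟩, fun h => ⟨h.1, h.2.1⟩⟩
  exact hF.card_le_vcDim.trans hd

end Pool.Agent.VCS

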