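import Pool.Agent.VCS.Targets

set_option autoImplicit false

open Finset

namespace Pool.Agent.VCS

universe u

lemma SU_meet_le {Z : Type u} [Fintype Z] [DecidableEq Z] {p : Finset Z → ℝ}
    (hp : ∀ A, 0 ≤ p A) {t : ℕ} (ht : 1 ≤ t) : meet p t ≤ ∑ z, pop p z ^ 2 := by
  have h1 : ∑ z, pop p z ^ 2 = ∑ A, ∑ A', p A * p A' * ((A ∩ A').card : ℝ) := by
    have e1 : ∀ z, pop p z ^ 2 = ∑ A, ∑ A', if z ∈ A ∩ A' then p A * p A' else 0 := by
      intro z
      unfold pop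
      rw [sq, sum_filter, sum_mul_sum]
      apply sum_congr rfl
      intro A _
      apply sum_congr rfl
      intro A' _
      by_cases h1 : z ∈ A <;> by_cases h2 : z ∈ A' <;> simp [h1, h2]
    simp_rw [e1]
    rw [sum_comm]
    apply sum_congr rfl
    intro A _
    rw [sum_comm]
    apply sum_congr rfl
    intro A' _
    rw [← sum_filter, sum_const, nsmul_eq_mul, mul_comm]
    congr 3
    ext z
    simp
  rw [h1]
  unfold meet
  apply sum_le_sum
  intro A _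
  rw [sum_filter]
  apply sum_le_sum
  intro A' _
  have h2 : 0 ≤ p A * p A' := mul_nonneg (hp A) (hp A')
  split_ifs with h
  · have h3 : (1 : ℝ) ≤ (A ∩ A').card := by exact_mod_cast ht.trans h
    nlinarith
  · positivity

lemma SU_geo {k : ℕ} (hk : 2 ≤ k) (j : ℕ) :
    ∑ t ∈ Icc 1 j, (k : ℝ) ^ t ≤ 2 * (k : ℝ) ^ j := by
  have hk' : (2 : ℝ) ≤ k := by exact_mod_cast hk
  induction j with
  | zero => simp
  | succ j ih =>
    rw [sum_Icc_succ_top (by omega)]
    have h1 : 0 ≤ (k : ℝ) ^ j := by positivity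
    have h2 : (k : ℝ) ^ (j + 1) = k ^ j * k := pow_succ _ _
    nlinarith

lemma SU_geo2 (j M : ℕ) : ∑ t ∈ Ioc j M, (1 / 4 : ℝ) ^ t ≤ (1 / 4 : ℝ) ^ j := by
  rcases le_or_gt j M with hjM | hjM
  · have : ∑ t ∈ Ioc j M, (1 / 4 : ℝ) ^ t ≤ (1 / 4 : ℝ) ^ j - (1 / 4 : ℝ) ^ M := by
      induction M, hjM using Nat.le_induction with
      | base => simp
      | succ M hM ih =>
        rw [sum_Ioc_succ_top hM]
        have h1 : (0 : ℝ) ≤ (1 / 4 : ℝ) ^ M := by positivity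
        have h2 : (1 / 4 : ℝ) ^ (M + 1) = (1 / 4 : ℝ) ^ M * (1 / 4) := pow_succ _ _
        rw [h2]
        linarith
    have h1 : (0 : ℝ) ≤ (1 / 4 : ℝ) ^ M := by positivity
    linarith
  · rw [Ioc_eq_empty (by omega), sum_empty]
    positivity

theorem p_SU (h_PC : T_PC.{u}) (h_PE : T_PE.{u}) (h_PN : T_PN) : T_SU.{u} := by
  intro Z _ _ p k D j M hk hD hH hj hpop
  have hk0 : (2 : ℝ) ≤ k := by exact_mod_cast hk
  have hkp : (0 : ℝ) < k := by linarith
  have hK2 : 2 ≤ 16 * k := by omega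
  set K : ℝ := ((16 * k : ℕ) : ℝ) with hK
  have hKk : K = 16 * k := by rw [hK]; push_cast; ring
  have hKp : 0 < K := by rw [hKk]; positivity
  have hempty : Pj p (16 * k) j = ∅ := by
    unfold Pj
    rw [filter_eq_empty_iff]
    intro z _
    exact not_le.2 (hpop z)
  have h1 := h_PC Z p (16 * k) D j hH hK2
  rw [hempty] at h1
  have h2 : ∑ x : Z with x ∉ (∅ : Finset Z), pop p x ^ 2 = ∑ x, pop p x ^ 2 := by
    congr 1
    ext x
    simp
  rw [h2] at h1
  obtain ⟨-, h3⟩ := h_PN D j hD hj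
  have h3' : (8 * (D : ℝ) * j + 2 * (D : ℝ) ^ 2 + 18 * D + 5) ≤ 2 ^ j := by exact_mod_cast h3
  have h4 : K ^ j * ∑ x, pop p x ^ 2 ≤ 2 ^ j := by
    have e1 : 0 ≤ (D : ℝ) * j := by positivity
    have e2 := h1
    rw [← hK] at e2
    linarith
  have hsplit : ∑ t ∈ Icc 1 M, (k : ℝ) ^ t * meet p t
      = ∑ t ∈ (Icc 1 M).filter (fun t => t ≤ j), (k : ℝ) ^ t * meet p t
        + ∑ t ∈ (Icc 1 M).filter (fun t => ¬ t ≤ j), (k : ℝ) ^ t * meet p t :=
    (sum_filter_add_sum_filter_not _ _ _).symm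
  have hA : ∑ t ∈ (Icc 1 M).filter (fun t => t ≤ j), (k : ℝ) ^ t * meet p t
      ≤ 2 * (1 / 4 : ℝ) ^ j := by
    have e1 : ∀ t ∈ (Icc 1 M).filter (fun t => t ≤ j), (k : ℝ) ^ t * meet p t
        ≤ (k : ℝ) ^ t * (2 ^ j / K ^ j) := by
      intro t ht
      rw [mem_filter, mem_Icc] at ht
      apply mul_le_mul_of_nonneg_left _ (by positivity)
      rw [le_div_iff₀ (by positivity)]
      have := SU_meet_le (p := p) hH.1 ht.1.1
      calc meet p t * K ^ j ≤ (∑ z, pop p z ^ 2) * K ^ j := by gcongr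
        _ = K ^ j * ∑ z, pop p z ^ 2 := mul_comm _ _
        _ ≤ 2 ^ j := h4
    calc _ ≤ ∑ t ∈ (Icc 1 M).filter (fun t => t ≤ j), (k : ℝ) ^ t * (2 ^ j / K ^ j) :=
          sum_le_sum e1
      _ ≤ ∑ t ∈ Icc 1 j, (k : ℝ) ^ t * (2 ^ j / K ^ j) := by
          apply sum_le_sum_of_subset_of_nonneg
          · intro t ht
            rw [mem_filter, mem_Icc] at ht
            exact mem_Icc.2 ⟨ht.1.1, ht.2⟩
          · intro t _ _
            positivity
      _ = (∑ t ∈ Icc 1 j, (k : ℝ) ^ t) * (2 ^ j / K ^ j) := by rw [sum_mul]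
      _ ≤ (2 * (k : ℝ) ^ j) * (2 ^ j / K ^ j) := by
          apply mul_le_mul_of_nonneg_right (SU_geo hk j) (by positivity)
      _ = 2 * (1 / 8 : ℝ) ^ j := by
          have e2 : (k : ℝ) ^ j * (2 ^ j / K ^ j) = (1 / 8 : ℝ) ^ j := by
            rw [← div_pow, ← mul_pow]
            congr 1
            rw [hKk]
            field_simp
            norm_num
          rw [mul_assoc, e2]
      _ ≤ 2 * (1 / 4 : ℝ) ^ j := by
          have : (1 / 8 : ℝ) ^ j ≤ (1 / 4 : ℝ) ^ j :=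
            pow_le_pow_left₀ (by norm_num) (by norm_num) j
          linarith
  have hB : ∑ t ∈ (Icc 1 M).filter (fun t => ¬ t ≤ j), (k : ℝ) ^ t * meet p t
      ≤ (1 / 4 : ℝ) ^ j := by
    have e1 : ∀ t ∈ (Icc 1 M).filter (fun t => ¬ t ≤ j), (k : ℝ) ^ t * meet p t
        ≤ (1 / 4 : ℝ) ^ t := by
      intro t ht
      rw [mem_filter, mem_Icc, not_le] at ht
      have e2 := h_PE Z p (16 * k) D t hH hK2 hD (by omega)
      rw [← hK] at e2
      have e3 : (k : ℝ) ^ t * meet p t = (meet p t * K ^ t) * (1 / 16 : ℝ) ^ t := by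
        have : K ^ t * (1 / 16 : ℝ) ^ t = (k : ℝ) ^ t := by
          rw [← mul_pow]
          congr 1
          rw [hKk]; ring
        rw [mul_assoc, this, mul_comm]
      rw [e3]
      calc (meet p t * K ^ t) * (1 / 16 : ℝ) ^ t ≤ 4 ^ t * (1 / 16 : ℝ) ^ t := by gcongr
        _ = (1 / 4 : ℝ) ^ t := by
            rw [← mul_pow]
            norm_num
    calc _ ≤ ∑ t ∈ (Icc 1 M).filter (fun t => ¬ t ≤ j), (1 / 4 : ℝ) ^ t := sum_le_sum e1
      _ ≤ ∑ t ∈ Ioc j M, (1 / 4 : ℝ) ^ t := by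
          apply sum_le_sum_of_subset_of_nonneg
          · intro t ht
            rw [mem_filter, mem_Icc, not_le] at ht
            exact mem_Ioc.2 ⟨ht.2, ht.1.2⟩
          · intro t _ _
            positivity
      _ ≤ _ := SU_geo2 j M
  rw [hsplit]
  have e5 : (3 : ℝ) / 4 ^ j = 3 * (1 / 4 : ℝ) ^ j := by
    rw [one_div, inv_pow]
    rfl
  rw [e5]
  linarith

end Pool.Agent.VCS
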