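import Pool.Agent.VCS.Main
import Pool.Agent.VCS.P_SS
import Pool.Agent.VCS.P_LK
import Pool.Agent.VCS.P_LW
import Pool.Agent.VCS.P_EC
import Pool.Agent.VCS.P_CO
import Pool.Agent.VCS.P_OR
import Pool.Agent.VCS.P_LL
import Pool.Agent.VCS.P_IT
import Pool.Agent.VCS.P_SL
import Pool.Agent.VCS.P_PA
import Pool.Agent.VCS.P_PB
import Pool.Agent.VCS.P_PC
import Pool.Agent.VCS.P_PD
import Pool.Agent.VCS.P_PN
import Pool.Agent.VCS.P_PE
import Pool.Agent.VCS.P_EX
import Pool.Agent.VCS.P_ON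
import Pool.Agent.VCS.P_LA
import Pool.Agent.VCS.P_LB
import Pool.Agent.VCS.P_MX
import Pool.Agent.VCS.P_SM
import Pool.Agent.VCS.P_SU

/-!
# Project VCS (MP_2812e0_co): all targets together
-/

set_option autoImplicit false

noncomputable section

open Finset

namespace Pool.Agent.VCS

universe u

theorem a_IT : T_IT.{u} := p_IT p_EC p_OR p_LL
theorem a_SL : T_SL.{u} := p_SL p_EC p_OR a_IT
theorem a_PB : T_PB.{u} := p_PB p_PA
theorem a_PC : T_PC.{u} := p_PC p_PA a_PB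
theorem a_PD : T_PD.{u} := p_PD a_PB a_PC
theorem a_PE : T_PE.{u} := p_PE a_PD p_PN
theorem a_ON : T_ON.{u} := p_ON p_LW a_PE p_EX a_SL p_CO
theorem a_LB : T_LB.{u} := p_LB p_LK a_ON p_LA
theorem a_SU : T_SU.{u} := p_SU a_PC a_PE p_PN

open Classical in
/-- The main theorem, counting form, without hypotheses. -/
theorem main_all (k : ℕ) (hk : 2 ≤ k) :
    ∃ C : ℝ, 0 < C ∧ ∀ (d w : ℕ) (X : Type u) [Fintype X] [DecidableEq X]
      (F : Finset (Finset X)), 2 ≤ d → 1 ≤ w → (∀ S ∈ F, S.card = w) → F.vcDim ≤ d →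
      (C * Real.log d) ^ w ≤ F.card →
      ((univ.filter fun χ : X → Fin k => ¬ Rain F χ).card : ℝ) ≤
        (k : ℝ) ^ Fintype.card X * (C / w) :=
  main p_SS p_LK a_ON a_LB p_MX p_SM a_SU k hk

end Pool.Agent.VCS
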