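import Mathlib

/-!
# Project VCS (MP_2812e0_co): sunflowers in set systems of bounded VC-dimension, definitions

`wt c W` is the weight of `W` under the product measure of density `c` on the subsets of `X`, `Ex
c f`
the expectation of `f`. Laws on the subsets of `X` are functions `p : Finset X → ℝ`.
-/

set_option autoImplicit false

noncomputable section

open Finset

namespace Pool.Agent.VCS

universe u

variable {X : Type u} [Fintype X] [DecidableEq X]

/-- The family `F` has at most `(|Y| + 1) ^ d` traces on every set `Y`. -/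
def TraceBd (F : Finset (Finset X)) (d : ℕ) : Prop :=
  ∀ Y : Finset X, (F.image fun S => S ∩ Y).card ≤ (Y.card + 1) ^ d

/-- The weight of `W` under the product measure of density `c`. -/
def wt (c : ℝ) (W : Finset X) : ℝ := c ^ W.card * (1 - c) ^ (Wᶜ).card

/-- The expectation of `f` under the product measure of density `c`. -/
def Ex (c : ℝ) (f : Finset X → ℝ) : ℝ := ∑ W, wt c W * f W

open Classical in
/-- `bad p W = 1` if no set of the support of `p` is contained in `W`, else `bad p W = 0`. -/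
def bad (p : Finset X → ℝ) (W : Finset X) : ℝ := if ∃ A, 0 < p A ∧ A ⊆ W then 0 else 1

/-- The weight of the sets which contain `T`. -/
def up (p : Finset X → ℝ) (T : Finset X) : ℝ := ∑ A with T ⊆ A, p A

/-- The probability of the point `x`. -/
def pop (p : Finset X → ℝ) (x : X) : ℝ := ∑ A with x ∈ A, p A

/-- The points of probability at least `R ^ (-j)`. -/
def Pj (p : Finset X → ℝ) (R j : ℕ) : Finset X := univ.filter fun x => 1 ≤ (R : ℝ) ^ j * pop p x

/-- The probability that two independent random sets meet in at least `t` points. -/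
def meet (p : Finset X → ℝ) (t : ℕ) : ℝ := ∑ A, ∑ A' with t ≤ (A ∩ A').card, p A * p A'

/-- `p` is a probability law with `P (|A ∩ Y| ≥ t) ≤ 2 (|Y| + 1) ^ D / R ^ t` for all `Y`, `t`. -/
def H1 (p : Finset X → ℝ) (R D : ℕ) : Prop :=
  (∀ A, 0 ≤ p A) ∧ ∑ A, p A = 1 ∧ ∀ (Y : Finset X) (t : ℕ),
    (R : ℝ) ^ t * ∑ A with t ≤ (A ∩ Y).card, p A ≤ 2 * ((Y.card : ℝ) + 1) ^ D

/-- `(G, U)` is a link with spread `R`. -/
structure IsLink (G : Finset (Finset X)) (U : Finset X) (R : ℕ) : Prop where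
  ne : G.Nonempty
  sub : ∀ S ∈ G, U ⊆ S
  spread : ∀ T : Finset X, (G.filter fun S => T ⊆ S \ U).card * R ^ T.card ≤ G.card

/-- The `i`-th component of the set `B`. -/
def slice {k : ℕ} (B : Finset (X × Fin k)) (i : Fin k) : Finset X :=
  univ.filter fun x => (x, i) ∈ B

/-- The components of `B` are disjoint, not empty and avoid `J`, and for one set `U` all the sets
`U ∪ slice B i` are members of `F`. -/
def Good {k : ℕ} (F : Finset (Finset X)) (J : Finset X) (B : Finset (X × Fin k)) : Prop :=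
  (∀ x i j, (x, i) ∈ B → (x, j) ∈ B → i = j) ∧ (∀ x i, (x, i) ∈ B → x ∉ J) ∧
    ∃ U : Finset X, ∀ i, (slice B i).Nonempty ∧ Disjoint U (slice B i) ∧ U ∪ slice B i ∈ F

/-! ### Basic facts -/

lemma wt_nonneg {c : ℝ} (h0 : 0 ≤ c) (h1 : c ≤ 1) (W : Finset X) : 0 ≤ wt c W := by
  have : 0 ≤ 1 - c := by linarith
  unfold wt; positivity

lemma Ex_mono {c : ℝ} (h0 : 0 ≤ c) (h1 : c ≤ 1) {f g : Finset X → ℝ} (h : ∀ W, f W ≤ g W) :
    Ex c f ≤ Ex c g :=
  sum_le_sum fun W _ => mul_le_mul_of_nonneg_left (h W) (wt_nonneg h0 h1 W)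

lemma Ex_nonneg {c : ℝ} (h0 : 0 ≤ c) (h1 : c ≤ 1) {f : Finset X → ℝ} (h : ∀ W, 0 ≤ f W) :
    0 ≤ Ex c f := sum_nonneg fun W _ => mul_nonneg (wt_nonneg h0 h1 W) (h W)

lemma Ex_add (c : ℝ) (f g : Finset X → ℝ) : Ex c (fun W => f W + g W) = Ex c f + Ex c g := by
  simp only [Ex, mul_add, sum_add_distrib]

lemma Ex_smul (c a : ℝ) (f : Finset X → ℝ) : Ex c (fun W => a * f W) = a * Ex c f := by
  simp only [Ex, mul_sum]
  exact sum_congr rfl fun W _ => by ring

lemma sum_wt (c : ℝ) : ∑ W : Finset X, wt c W = 1 := by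
  have h := Fintype.sum_pow_mul_eq_add_pow X c (1 - c)
  rw [add_sub_cancel, one_pow] at h
  rw [← h]
  refine sum_congr rfl fun W _ => ?_
  rw [wt, card_compl]

lemma Ex_const (c a : ℝ) : Ex c (fun _ : Finset X => a) = a := by
  simp only [Ex]
  rw [← sum_mul, sum_wt, one_mul]

lemma bad_nonneg (p : Finset X → ℝ) (W : Finset X) : 0 ≤ bad p W := by
  unfold bad; split_ifs <;> norm_num

lemma bad_le_one (p : Finset X → ℝ) (W : Finset X) : bad p W ≤ 1 := by
  unfold bad; split_ifs <;> norm_num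

lemma mem_slice {k : ℕ} {B : Finset (X × Fin k)} {i : Fin k} {x : X} :
    x ∈ slice B i ↔ (x, i) ∈ B := by simp [slice]

end Pool.Agent.VCS
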