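import Mathlib

/-!
# Project VCS (MP_2812e0_co): numerics of the assembly
-/

set_option autoImplicit false

namespace Pool.Agent.VCS

/-- The threshold for the fragments. -/
def nS (k d : ℕ) : ℕ := d ^ 3 + 11 * d + k
def nL (k d : ℕ) : ℕ := Nat.log 2 (nS k d) + 1
def nr (k d : ℕ) : ℕ := 5 * (Nat.log 2 d + 1) + k + 2
def nN (k d : ℕ) : ℕ := 2 * nL k d + nr k d
def nR (k d : ℕ) : ℕ := 64 * (16 * k) * (nN k d + 1)
def nC (k : ℕ) : ℕ := 2 * (k + 4) * (k ^ 3 + 11 * k) + 2 * (k + 15)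

lemma nS_lt (k d : ℕ) : nS k d < 2 ^ nL k d := Nat.lt_pow_succ_log_self (by norm_num) _

lemma four_div (k d : ℕ) : (4 : ℝ) ^ nL k d / 2 ^ nN k d = 1 / 2 ^ nr k d := by
  have h : (2 : ℝ) ^ nN k d = 4 ^ nL k d * 2 ^ nr k d := by
    rw [nN, pow_add, pow_mul]; norm_num
  rw [h]
  have : (4 : ℝ) ^ nL k d ≠ 0 := by positivity
  field_simp

/-- The failure probability for one colour. -/
noncomputable def eps (k d : ℕ) : ℝ := (4 : ℝ) ^ nL k d / 2 ^ nN k d + 16 * (1 / 8) ^ nS k d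

lemma eps_le (k d : ℕ) (hk : 1 ≤ k) (hd : 1 ≤ d) : eps k d ≤ 1 / (2 * k) := by
  have hk0 : (0 : ℝ) < k := by exact_mod_cast hk
  have h1 : (1 : ℝ) / 2 ^ nr k d ≤ 1 / (4 * k) := by
    apply one_div_le_one_div_of_le (by positivity)
    have h2 : 4 * k ≤ 2 ^ nr k d := by
      calc 4 * k ≤ 2 ^ 2 * 2 ^ k := by have := Nat.lt_two_pow_self (n := k); omega
        _ = 2 ^ (k + 2) := by ring
        _ ≤ 2 ^ nr k d := Nat.pow_le_pow_right (by norm_num) (by unfold nr; omega)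
    exact_mod_cast h2
  have h3 : (16 : ℝ) * (1 / 8) ^ nS k d ≤ 1 / (4 * k) := by
    have h4 : 64 * k ≤ 8 ^ nS k d := by
      have hs : 2 + k ≤ nS k d := by unfold nS; nlinarith [Nat.zero_le (d ^ 3)]
      calc 64 * k ≤ 8 ^ 2 * 8 ^ k := by
            have := Nat.lt_pow_self (n := k) (show 1 < 8 by norm_num)
            omega
        _ = 8 ^ (2 + k) := by ring
        _ ≤ 8 ^ nS k d := Nat.pow_le_pow_right (by norm_num) hs
    have h5 : (64 : ℝ) * k ≤ 8 ^ nS k d := by exact_mod_cast h4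
    rw [one_div, inv_pow, ← one_div, mul_one_div, div_le_div_iff₀ (by positivity) (by positivity)]
    linarith
  unfold eps
  rw [four_div]
  calc _ ≤ 1 / (4 * (k : ℝ)) + 1 / (4 * k) := add_le_add h1 h3
    _ = 1 / (2 * k) := by field_simp; norm_num

lemma eps_le' (k d : ℕ) (hd : 1 ≤ d) : eps k d ≤ 17 / (d : ℝ) ^ 4 := by
  have hd0 : (0 : ℝ) < d := by exact_mod_cast hd
  have h1 : (1 : ℝ) / 2 ^ nr k d ≤ 1 / (d : ℝ) ^ 4 := by
    apply one_div_le_one_div_of_le (by positivity)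
    have h2 : d ^ 4 ≤ 2 ^ nr k d := by
      calc d ^ 4 ≤ (2 ^ (Nat.log 2 d + 1)) ^ 4 :=
            Nat.pow_le_pow_left (Nat.lt_pow_succ_log_self (by norm_num) _).le 4
        _ = 2 ^ ((Nat.log 2 d + 1) * 4) := by rw [pow_mul]
        _ ≤ 2 ^ nr k d := Nat.pow_le_pow_right (by norm_num) (by unfold nr; omega)
    exact_mod_cast h2
  have h3 : (16 : ℝ) * (1 / 8) ^ nS k d ≤ 16 / (d : ℝ) ^ 4 := by
    have h4 : d ^ 4 ≤ 8 ^ nS k d := by
      have hs : 3 * 0 + d ^ 3 ≤ nS k d := by unfold nS; omega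
      calc d ^ 4 ≤ d ^ 9 := Nat.pow_le_pow_right hd (by norm_num)
        _ = (d ^ 3) ^ 3 := by ring
        _ ≤ (2 ^ (d ^ 3)) ^ 3 := Nat.pow_le_pow_left (Nat.lt_two_pow_self).le 3
        _ = 8 ^ (d ^ 3) := by rw [← pow_mul, mul_comm, pow_mul]; norm_num
        _ ≤ 8 ^ nS k d := Nat.pow_le_pow_right (by norm_num) (by omega)
    have h5 : (d : ℝ) ^ 4 ≤ 8 ^ nS k d := by exact_mod_cast h4
    rw [one_div, inv_pow, ← one_div, mul_one_div]
    gcongr
  unfold eps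
  rw [four_div]
  calc _ ≤ 1 / (d : ℝ) ^ 4 + 16 / (d : ℝ) ^ 4 := add_le_add h1 h3
    _ = 17 / (d : ℝ) ^ 4 := by rw [← add_div]; norm_num

lemma natlog_le {x : ℕ} (hx : x ≠ 0) : (Nat.log 2 x : ℝ) ≤ Real.log x / Real.log 2 := by
  have h2 : (0 : ℝ) < Real.log 2 := Real.log_pos (by norm_num)
  rw [le_div_iff₀ h2, ← Real.log_pow]
  apply Real.log_le_log (by positivity)
  exact_mod_cast Nat.pow_log_le_self 2 hx

/-- The constant of the base. -/
noncomputable def c0 (k : ℕ) : ℝ :=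
  2048 * k * (2 * (Real.log (12 + k) / Real.log 2) + 21 + k) / Real.log 2

lemma c0_pos (k : ℕ) (hk : 1 ≤ k) : 0 < c0 k := by
  have h2 : (0 : ℝ) < Real.log 2 := Real.log_pos (by norm_num)
  have hk0 : (0 : ℝ) < k := by exact_mod_cast hk
  have h3 : (0 : ℝ) < Real.log (12 + k) := Real.log_pos (by linarith)
  unfold c0; positivity

lemma nR_le (k d : ℕ) (hk : 1 ≤ k) (hd : 2 ≤ d) : 2 * (nR k d : ℝ) ≤ c0 k * Real.log d := by
  have h2 : (0 : ℝ) < Real.log 2 := Real.log_pos (by norm_num)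
  have hk0 : (0 : ℝ) < k := by exact_mod_cast hk
  have hd2 : (2 : ℝ) ≤ d := by exact_mod_cast hd
  have h3 : (0 : ℝ) < Real.log (12 + k) := Real.log_pos (by linarith)
  set L := Real.log d / Real.log 2 with hL
  have hL1 : 1 ≤ L := by
    rw [hL, le_div_iff₀ h2, one_mul]
    exact Real.log_le_log (by norm_num) hd2
  have hs : nS k d ≤ (12 + k) * d ^ 3 := by
    unfold nS
    have h1 : d ≤ d ^ 3 := Nat.le_self_pow (by norm_num) d
    have h4 : 1 ≤ d ^ 3 := Nat.one_le_pow _ _ (by omega)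
    nlinarith
  have hlog1 : (Nat.log 2 (nS k d) : ℝ) ≤ Real.log (12 + k) / Real.log 2 + 3 * L := by
    have hne : nS k d ≠ 0 := by unfold nS; positivity
    refine (natlog_le hne).trans ?_
    rw [hL, mul_div_assoc', ← add_div]
    gcongr
    have h5 : (nS k d : ℝ) ≤ (12 + k) * (d : ℝ) ^ 3 := by exact_mod_cast hs
    have h6 := Real.log_le_log (by exact_mod_cast Nat.pos_of_ne_zero hne) h5
    rw [Real.log_mul (by positivity) (by positivity), Real.log_pow] at h6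
    exact_mod_cast h6
  have hlog2 : (Nat.log 2 d : ℝ) ≤ L := natlog_le (by omega)
  have hn : ((nN k d : ℝ) + 1) ≤ (2 * (Real.log (12 + k) / Real.log 2) + 21 + k) * L := by
    have hA : 0 ≤ Real.log (12 + k) / Real.log 2 := by positivity
    have e1 : (nN k d : ℝ) = 2 * (Nat.log 2 (nS k d) + 1) + (5 * (Nat.log 2 d + 1) + k + 2) := by
      simp only [nN, nL, nr]; push_cast; ring
    rw [e1]
    nlinarith
  calc 2 * (nR k d : ℝ) = 2048 * k * ((nN k d : ℝ) + 1) := by unfold nR; push_cast; ring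
    _ ≤ 2048 * k * ((2 * (Real.log (12 + k) / Real.log 2) + 21 + k) * L) := by gcongr
    _ = c0 k * Real.log d := by rw [hL, c0]; ring

lemma cube_le (v : ℕ) (hv : 15 ≤ v) : 8 * v ^ 2 * (v + 1) ≤ 2 ^ v := by
  induction v, hv using Nat.le_induction with
  | base => norm_num
  | succ v hv ih =>
    have e : 2 ^ (v + 1) = 2 * 2 ^ v := by ring
    rw [e]
    have h1 : 8 * (v + 1) ^ 2 * (v + 1 + 1) ≤ 2 * (8 * v ^ 2 * (v + 1)) := by
      nlinarith [Nat.mul_le_mul hv hv, Nat.mul_le_mul (Nat.mul_le_mul hv hv) hv,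
        Nat.mul_le_mul hv (le_refl (v * v))]
    omega

variable (k d w : ℕ)

lemma big_j (hk : 1 ≤ k) (hd : 1 ≤ d) (hw : nC k * d ^ 4 < w) :
    (k * d) ^ 3 + 11 * (k * d) ≤ w / (2 * d * (k + 4)) := by
  rw [Nat.le_div_iff_mul_le (by positivity)]
  have h1 : ((k * d) ^ 3 + 11 * (k * d)) * (2 * d * (k + 4)) ≤
      2 * (k + 4) * (k ^ 3 + 11 * k) * d ^ 4 := by
    have h2 : d * d ≤ d ^ 4 := by
      calc d * d = d ^ 2 := by ring
        _ ≤ d ^ 4 := Nat.pow_le_pow_right hd (by norm_num)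
    calc ((k * d) ^ 3 + 11 * (k * d)) * (2 * d * (k + 4))
        = 2 * (k + 4) * (k ^ 3 * d ^ 4 + 11 * k * (d * d)) := by ring
      _ ≤ 2 * (k + 4) * (k ^ 3 * d ^ 4 + 11 * k * d ^ 4) := by gcongr
      _ = _ := by ring
  have h3 : 2 * (k + 4) * (k ^ 3 + 11 * k) * d ^ 4 ≤ nC k * d ^ 4 := by
    unfold nC; gcongr; omega
  omega

lemma big_m (hk : 1 ≤ k) (hd : 1 ≤ d) (hw : nC k * d ^ 4 < w) :
    (k * (2 * (16 * k) ^ (w / (2 * d * (k + 4))) + 1) * w + 1) ^ d < 2 ^ w := by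
  set j := w / (2 * d * (k + 4)) with hj
  set v := w / (2 * d) with hv
  have hd2 : 0 < 2 * d := by omega
  have hjv : (k + 4) * j ≤ v := by
    rw [hj, hv, ← Nat.div_div_eq_div_mul]
    exact Nat.mul_div_le _ _
  have hvw : 2 * d * v ≤ w := Nat.mul_div_le _ _
  have hwv : w < 2 * d * (v + 1) := by
    have := Nat.lt_mul_div_succ w hd2
    rw [hv]; exact this
  have hvbig : (k + 15) * d ≤ v := by
    rw [hv, Nat.le_div_iff_mul_le hd2]
    have h1 : d * d ≤ d ^ 4 := by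
      calc d * d = d ^ 2 := by ring
        _ ≤ d ^ 4 := Nat.pow_le_pow_right hd (by norm_num)
    have h2 : 2 * (k + 15) * d ^ 4 ≤ nC k * d ^ 4 := by unfold nC; gcongr; omega
    calc (k + 15) * d * (2 * d) = 2 * (k + 15) * (d * d) := by ring
      _ ≤ 2 * (k + 15) * d ^ 4 := by gcongr
      _ ≤ w := by omega
  have hv15 : 15 ≤ v := by nlinarith
  have hvk : k ≤ v := by nlinarith
  have hvd : d ≤ v := by nlinarith
  have hw0 : 1 ≤ w := by omega
  have hK : (16 * k) ^ j ≤ 2 ^ v := by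
    calc (16 * k) ^ j ≤ (2 ^ (k + 4)) ^ j := by
          apply Nat.pow_le_pow_left
          rw [pow_add]
          have := Nat.lt_two_pow_self (n := k)
          omega
      _ = 2 ^ ((k + 4) * j) := by rw [pow_mul]
      _ ≤ 2 ^ v := Nat.pow_le_pow_right (by norm_num) hjv
  have h4kw : 4 * k * w < 2 ^ v := by
    refine lt_of_lt_of_le ?_ (cube_le v hv15)
    calc 4 * k * w < 4 * k * (2 * d * (v + 1)) := by
          apply Nat.mul_lt_mul_of_pos_left hwv; omega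
      _ = 8 * (k * d) * (v + 1) := by ring
      _ ≤ 8 * v ^ 2 * (v + 1) := by
          rw [pow_two]; gcongr
  have hbase : k * (2 * (16 * k) ^ j + 1) * w + 1 < 2 ^ (2 * v) := by
    have hKpos : 1 ≤ (16 * k) ^ j := Nat.one_le_pow _ _ (by omega)
    have hkw : 1 ≤ k * w := Nat.mul_pos hk hw0
    calc k * (2 * (16 * k) ^ j + 1) * w + 1 ≤ 4 * k * w * (16 * k) ^ j := by
          nlinarith [Nat.mul_le_mul hkw hKpos]
      _ ≤ 4 * k * w * 2 ^ v := by gcongr
      _ < 2 ^ v * 2 ^ v := by apply Nat.mul_lt_mul_of_pos_right h4kw; positivity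
      _ = 2 ^ (2 * v) := by rw [← pow_add]; congr 1; omega
  calc (k * (2 * (16 * k) ^ j + 1) * w + 1) ^ d < (2 ^ (2 * v)) ^ d :=
        Nat.pow_lt_pow_left hbase (by omega)
    _ = 2 ^ (2 * d * v) := by rw [← pow_mul]; congr 1; ring
    _ ≤ 2 ^ w := Nat.pow_le_pow_right (by norm_num) hvw

lemma big_err (hk : 1 ≤ k) (hd : 1 ≤ d) (hw : nC k * d ^ 4 < w) :
    (3 : ℝ) / 4 ^ (w / (2 * d * (k + 4))) ≤ 6 * (k + 4) / w := by
  have hj := big_j k d w hk hd hw
  set j := w / (2 * d * (k + 4)) with hjdef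
  have hpos : 0 < 2 * d * (k + 4) := by positivity
  have hwj : w < 2 * d * (k + 4) * (j + 1) := Nat.lt_mul_div_succ w hpos
  have hdj : d ≤ 2 ^ j := by
    have h1 : d ≤ j := by nlinarith [Nat.mul_le_mul hk (le_refl d), Nat.zero_le ((k * d) ^ 3)]
    exact h1.trans (Nat.lt_two_pow_self).le
  have hj2 : j + 1 ≤ 2 ^ j := Nat.lt_two_pow_self
  have h4 : w ≤ 2 * (k + 4) * 4 ^ j := by
    have e : (4 : ℕ) ^ j = 2 ^ j * 2 ^ j := by rw [← mul_pow]; norm_num
    rw [e]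
    calc w ≤ 2 * d * (k + 4) * (j + 1) := hwj.le
      _ = 2 * (k + 4) * (d * (j + 1)) := by ring
      _ ≤ 2 * (k + 4) * (2 ^ j * 2 ^ j) := by gcongr
  have hw0 : (0 : ℝ) < w := by
    have : 0 < w := by omega
    exact_mod_cast this
  have h5 : (w : ℝ) ≤ 2 * (k + 4) * 4 ^ j := by exact_mod_cast h4
  rw [div_le_div_iff₀ (by positivity) hw0]
  linarith

end Pool.Agent.VCS
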