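import Pool.Agent.VCS.Targets
import Pool.Agent.VCS.Num

/-!
# Project VCS (MP_2812e0_co): assembly
-/

set_option autoImplicit false

noncomputable section

open Finset

namespace Pool.Agent.VCS

universe u

section

variable {X : Type u} [Fintype X] [DecidableEq X]

/-- Rainbow sunflower. -/
def Rain {k : ℕ} (F : Finset (Finset X)) (χ : X → Fin k) : Prop :=
  ∃ S : Fin k → Finset X, Function.Injective S ∧ (∀ i, S i ∈ F) ∧
    ∀ i j, i ≠ j → ∀ x ∈ S i \ S j, χ x = i

omit [Fintype X] in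
lemma rain_of_link {k w : ℕ} {F G : Finset (Finset X)} {U : Finset X} (hGF : G ⊆ F)
    (hU : ∀ S ∈ G, U ⊆ S) (hw : ∀ S ∈ F, S.card = w) (hUw : U.card < w) (χ : X → Fin k)
    (h : ∀ i, ∃ S ∈ G, ∀ x ∈ S \ U, χ x = i) : Rain F χ := by
  choose S hS hχ using h
  refine ⟨S, ?_, fun i => hGF (hS i), ?_⟩
  · intro i j hij
    have hne : (S i \ U).Nonempty := by
      rw [← card_pos, card_sdiff_of_subset (hU _ (hS i)), hw _ (hGF (hS i))]
      omega
    obtain ⟨x, hx⟩ := hne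
    rw [← hχ i x hx, ← hχ j x (hij ▸ hx)]
  · intro i j _ x hx
    rw [mem_sdiff] at hx
    exact hχ i x (mem_sdiff.mpr ⟨hx.1, fun hxU => hx.2 (hU _ (hS j) hxU)⟩)

lemma rain_of_good {k : ℕ} {F : Finset (Finset X)} {J : Finset X} {B : Finset (X × Fin k)}
    (hB : Good F J B) (χ : X → Fin k) (h : ∀ z ∈ B, χ z.1 = z.2) : Rain F χ := by
  obtain ⟨h1, -, U, hU⟩ := hB
  refine ⟨fun i => U ∪ slice B i, ?_, fun i => (hU i).2.2, ?_⟩
  · intro i j hij
    dsimp only at hij
    obtain ⟨x, hx⟩ := (hU i).1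
    have hxj : x ∈ U ∪ slice B j := by rw [← hij]; exact mem_union_right _ hx
    rcases mem_union.mp hxj with h2 | h2
    · exact absurd hx (Finset.disjoint_left.mp (hU i).2.1 h2)
    · exact h1 x i j (mem_slice.mp hx) (mem_slice.mp h2)
  · intro i j _ x hx
    rw [mem_sdiff] at hx
    rcases mem_union.mp hx.1 with h2 | h2
    · exact absurd (mem_union_left _ h2) hx.2
    · exact h (x, i) (mem_slice.mp h2)

end

open Classical in
/-- The union bound over the colours, for small `w`. -/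
lemma small (hLK : T_LK.{u}) (hON : T_ON.{u}) (X : Type u) [Fintype X] [DecidableEq X]
    (F : Finset (Finset X)) (w R d k ℓ n s : ℕ) (hk : 1 ≤ k) (hd : 1 ≤ d)
    (hw : ∀ S ∈ F, S.card = w) (hT : TraceBd F d) (hR : 64 * (16 * k) * (n + 1) ≤ R)
    (hs : d ^ 3 + 11 * d ≤ s) (hsl : s < 2 ^ ℓ) (hF : R ^ w < F.card) :
    ((univ.filter fun χ : X → Fin k => ¬ Rain F χ).card : ℝ) ≤
      (k : ℝ) ^ Fintype.card X * (k * ((4 : ℝ) ^ ℓ / 2 ^ n + 16 * (1 / 8) ^ s)) := by
  have hR2 : 2 ≤ R := by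
    have : 1 * 1 ≤ k * (n + 1) := Nat.mul_le_mul hk (by omega)
    nlinarith
  obtain ⟨U, G, hGF, hG, hUw, -⟩ := hLK X F ∅ w R d hR2 hw hT (by simpa using hF)
  have hTG : TraceBd G d := fun Y => (card_le_card (image_subset_image hGF)).trans (hT Y)
  have hR' : 64 * k * (n + 1) ≤ R := by
    refine le_trans ?_ hR
    have : k ≤ 16 * k := by omega
    gcongr
  have h1 := hON X G U R d k ℓ n s hG hTG hd hk hR' hs hsl
  have hsub : (univ.filter fun χ : X → Fin k => ¬ Rain F χ) ⊆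
      univ.biUnion fun i : Fin k => univ.filter fun χ : X → Fin k =>
        ¬ ∃ S ∈ G, ∀ x ∈ S \ U, χ x = i := by
    intro χ hχ
    rw [mem_filter] at hχ
    rw [mem_biUnion]
    by_contra hcon
    push Not at hcon
    refine hχ.2 (rain_of_link hGF hG.sub hw hUw χ fun i => ?_)
    have := hcon i (mem_univ _)
    rw [mem_filter] at this
    push Not at this
    exact this (mem_univ _)
  calc ((univ.filter fun χ : X → Fin k => ¬ Rain F χ).card : ℝ)
      ≤ ((∑ i : Fin k, (univ.filter fun χ : X → Fin k =>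
        ¬ ∃ S ∈ G, ∀ x ∈ S \ U, χ x = i).card : ℕ) : ℝ) := by
        exact_mod_cast (card_le_card hsub).trans card_biUnion_le
    _ = ∑ i : Fin k, ((univ.filter fun χ : X → Fin k =>
        ¬ ∃ S ∈ G, ∀ x ∈ S \ U, χ x = i).card : ℝ) := by push_cast; rfl
    _ ≤ ∑ _i : Fin k, (k : ℝ) ^ Fintype.card X * ((4 : ℝ) ^ ℓ / 2 ^ n + 16 * (1 / 8) ^ s) := by
        refine sum_le_sum fun i _ => ?_
        convert h1 i
    _ = _ := by
        rw [sum_const, card_univ, Fintype.card_fin, nsmul_eq_mul]; ring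

open Classical in
/-- Boosting, for large `w`. -/
lemma large (hLB : T_LB.{u}) (hMX : T_MX.{u}) (hSM : T_SM.{u}) (hSU : T_SU.{u})
    (X : Type u) [Fintype X] [DecidableEq X]
    (F : Finset (Finset X)) (w R d k ℓ n s j m : ℕ) (hk : 2 ≤ k) (hd : 1 ≤ d)
    (hw : ∀ S ∈ F, S.card = w) (hT : TraceBd F d) (hR : 64 * (16 * k) * (n + 1) ≤ R)
    (hs : d ^ 3 + 11 * d ≤ s) (hsl : s < 2 ^ ℓ)
    (he : (4 : ℝ) ^ ℓ / 2 ^ n + 16 * (1 / 8) ^ s ≤ 1 / (2 * k))
    (hj : (k * d) ^ 3 + 11 * (k * d) ≤ j) (hm : 2 * (16 * k) ^ j < m)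
    (hF : R ^ w * (k * m * w + 1) ^ d < F.card) :
    ((univ.filter fun χ : X → Fin k => ¬ Rain F χ).card : ℝ) ≤
      (k : ℝ) ^ Fintype.card X * (3 / 4 ^ j) := by
  have hm1 : 1 ≤ m := by omega
  obtain ⟨p, hp, hgood, hpop⟩ := hMX X F w (R ^ w) d (16 * k) k (k * d) m hm1 hw
    (fun J hJ => hLB X F J w R d k ℓ n s (by omega) hd hw hT hR hs hsl he hJ) hF
  have hm0 : (0 : ℝ) < m := by exact_mod_cast hm1
  have h1 := hSM X k p (by omega) hp.1 hp.2.1 (fun B hB => (hgood B hB).1)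
  have hpop' : ∀ z, ((16 * k : ℕ) : ℝ) ^ j * pop p z < 1 := by
    intro z
    have hpos : (0 : ℝ) < ((16 * k : ℕ) : ℝ) ^ j := by
      have : 0 < 16 * k := by omega
      positivity
    calc ((16 * k : ℕ) : ℝ) ^ j * pop p z ≤ ((16 * k : ℕ) : ℝ) ^ j * (2 / m) := by
          gcongr; exact hpop z
      _ < 1 := by
          rw [mul_div_assoc', div_lt_one hm0]
          have : ((2 * (16 * k) ^ j : ℕ) : ℝ) < (m : ℝ) := by exact_mod_cast hm
          push_cast at this ⊢
          linarith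
  have h2 := hSU (X × Fin k) p k (k * d) j (Fintype.card X * k) hk
    (by nlinarith [Nat.mul_le_mul (show 1 ≤ k by omega) hd]) hp hj hpop'
  refine le_trans ?_ (h1.trans (mul_le_mul_of_nonneg_left h2 (by positivity)))
  norm_cast
  refine card_le_card fun χ hχ => ?_
  rw [mem_filter] at hχ ⊢
  refine ⟨mem_univ _, fun ⟨B, hB, hBχ⟩ => hχ.2 (rain_of_good (hgood B hB) χ hBχ)⟩

open Classical in
/-- The main theorem, counting form. -/
theorem main (hSS : T_SS.{u}) (hLK : T_LK.{u}) (hON : T_ON.{u}) (hLB : T_LB.{u})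
    (hMX : T_MX.{u}) (hSM : T_SM.{u}) (hSU : T_SU.{u}) (k : ℕ) (hk : 2 ≤ k) :
    ∃ C : ℝ, 0 < C ∧ ∀ (d w : ℕ) (X : Type u) [Fintype X] [DecidableEq X]
      (F : Finset (Finset X)), 2 ≤ d → 1 ≤ w → (∀ S ∈ F, S.card = w) → F.vcDim ≤ d →
      (C * Real.log d) ^ w ≤ F.card →
      ((univ.filter fun χ : X → Fin k => ¬ Rain F χ).card : ℝ) ≤
        (k : ℝ) ^ Fintype.card X * (C / w) := by
  have hk1 : 1 ≤ k := by omega
  have hk0 : (0 : ℝ) < k := by exact_mod_cast hk1
  have hc0 := c0_pos k hk1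
  refine ⟨c0 k + 17 * k * nC k + 6 * (k + 4), by positivity, ?_⟩
  intro d w X _ _ F hd hw1 hw hvc hF
  set C := c0 k + 17 * k * nC k + 6 * (k + 4) with hC
  have hT := hSS X F d hvc
  have hd1 : 1 ≤ d := by omega
  have hd0 : (0 : ℝ) < d := by exact_mod_cast hd1
  have hw0 : (0 : ℝ) < w := by exact_mod_cast hw1
  have hlogd : 0 < Real.log d := Real.log_pos (by exact_mod_cast hd)
  have hR1 : 1 ≤ nR k d := by
    unfold nR; exact Nat.mul_pos (by omega) (by omega)
  -- the size of `F`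
  have hbig : (2 * nR k d) ^ w ≤ F.card := by
    have h1 : (2 * (nR k d : ℝ)) ^ w ≤ F.card := by
      refine le_trans (pow_le_pow_left₀ (by positivity) ?_ w) hF
      refine (nR_le k d hk1 hd).trans ?_
      apply mul_le_mul_of_nonneg_right _ hlogd.le
      have : (0 : ℝ) ≤ 17 * k * nC k + 6 * (k + 4) := by positivity
      linarith
    exact_mod_cast h1
  have hs : d ^ 3 + 11 * d ≤ nS k d := by unfold nS; omega
  rcases Nat.lt_or_ge (nC k * d ^ 4) w with hlt | hge
  · have h1 : nR k d ^ w * (k * (2 * (16 * k) ^ (w / (2 * d * (k + 4))) + 1) * w + 1) ^ d <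
        F.card := by
      refine lt_of_lt_of_le ?_ hbig
      rw [mul_comm 2 (nR k d), mul_pow (nR k d) 2 w]
      apply Nat.mul_lt_mul_of_pos_left (big_m k d w hk1 hd1 hlt)
      positivity
    have h2 := large hLB hMX hSM hSU X F w (nR k d) d k (nL k d) (nN k d) (nS k d)
      (w / (2 * d * (k + 4))) (2 * (16 * k) ^ (w / (2 * d * (k + 4))) + 1) hk hd1 hw hT le_rfl hs
      (nS_lt k d) (eps_le k d hk1 hd1) (big_j k d w hk1 hd1 hlt) (by omega) h1
    refine h2.trans (mul_le_mul_of_nonneg_left ?_ (by positivity))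
    refine (big_err k d w hk1 hd1 hlt).trans ?_
    gcongr
    have : (0 : ℝ) ≤ c0 k + 17 * k * nC k := by positivity
    linarith
  · have h1 : nR k d ^ w < F.card := by
      refine lt_of_lt_of_le ?_ hbig
      apply Nat.pow_lt_pow_left (by omega) (by omega)
    have h2 := small hLK hON X F w (nR k d) d k (nL k d) (nN k d) (nS k d) hk1 hd1 hw hT le_rfl hs
      (nS_lt k d) h1
    refine h2.trans (mul_le_mul_of_nonneg_left ?_ (by positivity))
    calc (k : ℝ) * ((4 : ℝ) ^ nL k d / 2 ^ nN k d + 16 * (1 / 8) ^ nS k d) ≤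
          k * (17 / (d : ℝ) ^ 4) := by
          gcongr; exact eps_le' k d hd1
      _ ≤ C / w := by
          rw [mul_div_assoc', div_le_div_iff₀ (by positivity) hw0]
          have h3 : (w : ℝ) ≤ nC k * (d : ℝ) ^ 4 := by exact_mod_cast hge
          have h4 : (0 : ℝ) ≤ c0 k + 6 * (k + 4) := by positivity
          calc (k : ℝ) * 17 * w ≤ k * 17 * (nC k * (d : ℝ) ^ 4) := by gcongr
            _ = (17 * k * nC k) * (d : ℝ) ^ 4 := by ring
            _ ≤ C * (d : ℝ) ^ 4 := by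
                gcongr
                rw [hC]; linarith

end Pool.Agent.VCS
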