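import Pool.Agent.VCS.Targets

/-!
# Project VCS (MP_2812e0_co): one link, one colour
-/

set_option autoImplicit false

noncomputable section

open Finset

namespace Pool.Agent.VCS

universe u

/-- the density of one round -/
lemma ON_q (K n : ℕ) (hK : 1 ≤ K) : ∃ q : ℝ, 0 < q ∧ q ≤ 1 ∧ 1 / ((K : ℝ) * (n + 1)) ≤ q ∧
    1 - (1 - q) ^ (n + 1) = 1 / (K : ℝ) := by
  have hK0 : (0 : ℝ) < K := by exact_mod_cast hK
  have hK1 : (1 : ℝ) ≤ K := by exact_mod_cast hK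
  have hn : (0 : ℝ) < (n : ℝ) + 1 := by positivity
  have hx : (0 : ℝ) ≤ 1 - 1 / K := by
    rw [sub_nonneg, div_le_one hK0]
    exact hK1
  set a : ℝ := ((n + 1 : ℕ) : ℝ)⁻¹ with ha
  have ha0 : 0 ≤ a := by positivity
  have ha1 : a ≤ 1 := by
    rw [ha]
    apply inv_le_one_of_one_le₀
    push_cast
    linarith [Nat.cast_nonneg (α := ℝ) n]
  have hb : (1 - 1 / (K : ℝ)) ^ a ≤ 1 - 1 / ((K : ℝ) * (n + 1)) := by
    have h1 := rpow_one_add_le_one_add_mul_self (s := -(1 / (K : ℝ))) (p := a)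
      (by linarith) ha0 ha1
    calc (1 - 1 / (K : ℝ)) ^ a = (1 + -(1 / (K : ℝ))) ^ a := by rw [← sub_eq_add_neg]
      _ ≤ 1 + a * -(1 / (K : ℝ)) := h1
      _ = 1 - 1 / ((K : ℝ) * (n + 1)) := by
          rw [ha]
          push_cast
          field_simp
          ring
  have hpos : 0 < 1 / ((K : ℝ) * (n + 1)) := by positivity
  refine ⟨1 - (1 - 1 / (K : ℝ)) ^ a, by linarith, ?_, by linarith, ?_⟩
  · have := Real.rpow_nonneg hx a
    linarith
  · rw [sub_sub_cancel, ha, Real.rpow_inv_natCast_pow hx (by omega), sub_sub_cancel]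

theorem p_ON (hLW : T_LW.{u}) (hPE : T_PE.{u}) (hEX : T_EX.{u}) (hSL : T_SL.{u})
    (hCO : T_CO.{u}) : T_ON.{u} := by
  classical
  intro X _ _ G U R d K ℓ n s hlink htr hd hK hR hs hsl i
  have hR2 : 2 ≤ R := by
    have h1 : 1 ≤ K * (n + 1) := Nat.mul_pos hK (Nat.succ_pos n)
    have h2 : 64 * K * (n + 1) = 64 * (K * (n + 1)) := by ring
    omega
  obtain ⟨p, hH1, hup, hsupp⟩ := hLW X G U R d hR2 hlink htr
  obtain ⟨q, hq0, hq1, hqK, hq⟩ := ON_q K n hK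
  have hK0 : (0 : ℝ) < K := by exact_mod_cast hK
  have hqR : 64 ≤ q * R := by
    have h1 : (64 : ℝ) * K * (n + 1) ≤ R := by exact_mod_cast hR
    have h2 : (0 : ℝ) < (K : ℝ) * (n + 1) := by positivity
    calc (64 : ℝ) = 1 / ((K : ℝ) * (n + 1)) * (64 * K * (n + 1)) := by field_simp
      _ ≤ q * R := mul_le_mul hqK h1 (by positivity) hq0.le
  have h1 := hEX X p q R s hH1.1 hq0 hq1 hqR
    (fun t ht => hPE X p R d t hH1 hR2 hd (by omega))
  have h2 := hSL X p q ((1 / 8) ^ s) R ℓ n s hq0 hq1 hqR hsl hH1.1 hH1.2.1 hup h1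
  rw [hq] at h2
  have h3 := hCO X K i (fun W => ¬ ∃ S ∈ G, S \ U ⊆ W)
  have h4 : (univ.filter fun χ : X → Fin K => ¬ ∃ S ∈ G, ∀ x ∈ S \ U, χ x = i) =
      (univ.filter fun χ : X → Fin K => ¬ ∃ S ∈ G, S \ U ⊆ univ.filter fun x => χ x = i) := by
    ext χ
    simp only [mem_filter, mem_univ, true_and, subset_iff]
  rw [h4, h3]
  refine mul_le_mul_of_nonneg_left (le_trans ?_ h2) (by positivity)
  have hc0 : (0 : ℝ) ≤ 1 / K := by positivity
  have hc1 : (1 : ℝ) / K ≤ 1 := by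
    rw [div_le_one hK0]
    exact_mod_cast hK
  apply Ex_mono hc0 hc1
  intro W
  by_cases hW : ∃ S ∈ G, S \ U ⊆ W
  · rw [if_neg (not_not.2 hW)]
    exact bad_nonneg p W
  · rw [if_pos hW]
    unfold bad
    rw [if_neg]
    rintro ⟨A, hA, hAW⟩
    obtain ⟨S, hS, rfl⟩ := hsupp A hA
    exact hW ⟨S, hS, hAW⟩

end Pool.Agent.VCS
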