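import Pool.Agent.VCS.Defs

/-!
# Project VCS (MP_2812e0_co): targets

Goal: for every `k ≥ 2` there is `C` such that for all `d ≥ 2`, `w ≥ 1` every `w`-set system of
VC-dimension at most `d` with at least `(C log d) ^ w` members has a rainbow `k`-petal sunflower for
the random `k`-partition with probability at least `1 - C / w`.

Every target is a proposition `T_...`; other targets may be taken as hypotheses.
-/

set_option autoImplicit false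

noncomputable section

open Finset

namespace Pool.Agent.VCS

universe u

/-! ### Part 1: set systems -/

/-- SS (Sauer-Shelah for traces). Proof: let `E = F.image (· ∩ Y)`. Every set shattered by `E` is
contained in `Y` (it is contained in a member of `E`, all members are subsets of `Y`) and is
shattered by `F` (if `T ⊆ Y` and `S ∩ Y ∩ T = V` then `S ∩ T = V`), so it has at most `d` elements
(`Finset.Shatters.card_le_vcDim`). By `card_le_card_shatterer`, `|E|` is at most the number of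
subsets of `Y` with at most `d` elements, which is at most `(|Y| + 1) ^ d`: every such subset is the
range of a map `Fin d → Option Y` (without `none`), i.e. the map
`(Fin d → Option Y) → Finset X`, `f ↦ {x | some x ∈ range f}` hits all of them
(or `∑ i ≤ d, choose |Y| i ≤ (|Y| + 1) ^ d` by induction). -/
def T_SS : Prop := ∀ (X : Type u) [Fintype X] [DecidableEq X] (F : Finset (Finset X)) (d : ℕ),
  F.vcDim ≤ d → TraceBd F d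

/-- LK (links). Proof: the traces `S ∩ J`, `S ∈ F`, are at most `(|J| + 1) ^ d`, so there is a
trace `V` with more than `R ^ w` members `S` (pigeonhole,
`exists_lt_card_fiber_of_mul_lt_card_of_maps_to`); let `G₀` be the set of these members. Consider
the sets `U` with `V ⊆ U`, `|U| ≤ w` and `R ^ (w - |U|) < |{S ∈ G₀ | U ⊆ S}|`; `V` is one of them
(`V ⊆ S` for all `S ∈ G₀`, `R ^ (w - |V|) ≤ R ^ w`; `|V| ≤ w` as `G₀` is not empty). Take `U` with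
`|U|` maximal and `G = {S ∈ G₀ | U ⊆ S}`. `|U| < w`: if `|U| = w` then `G ⊆ {U}` has at most one
element, but `R ^ 0 = 1 < |G|`. For `S ∈ G`: `S ∩ J = V ⊆ U`, so `S \ U` is disjoint from `J`.
Spread: the claim is clear for `T = ∅` and if no `S ∈ G` has `T ⊆ S \ U`; otherwise `T` is
disjoint from `U`, `|U ∪ T| = |U| + |T| ≤ w`, and `{S ∈ G | T ⊆ S \ U} = {S ∈ G₀ | U ∪ T ⊆ S}` has
at most `R ^ (w - |U| - |T|)` elements by maximality, while `|G| > R ^ (w - |U|)`. -/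
def T_LK : Prop := ∀ (X : Type u) [Fintype X] [DecidableEq X] (F : Finset (Finset X))
  (J : Finset X) (w R d : ℕ), 2 ≤ R → (∀ S ∈ F, S.card = w) → TraceBd F d →
  R ^ w * (J.card + 1) ^ d < F.card →
  ∃ (U : Finset X) (G : Finset (Finset X)), G ⊆ F ∧ IsLink G U R ∧ U.card < w ∧
    ∀ S ∈ G, Disjoint (S \ U) J

/-- LW (the law of a link). Proof: `p A = |{S ∈ G | S \ U = A}| / |G|` (the law of `S \ U` for a
uniform `S ∈ G`). Then `∑ A with Q A, p A = |{S ∈ G | Q (S \ U)}| / |G|` for every predicate `Q`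
(`card_eq_sum_card_fiberwise`), in particular `∑ A, p A = 1` and the second claim is
`IsLink.spread`. `H1`: let `t ≤ |(S \ U) ∩ Y|` for `S ∈ G`; the set `V = (S \ U) ∩ Y = S ∩ (Y \
U)` is one of at most `(|Y \ U| + 1) ^ d ≤ (|Y| + 1) ^ d` traces of `G` on `Y \ U` (`TraceBd G
d`); for a fixed `V` with `|V| ≥ t` the number of `S ∈ G` with this trace is at most the number of
`S ∈ G` with `V ⊆ S \ U`, so at most `|G| / R ^ |V| ≤ |G| / R ^ t` (`2 ≤ R`). So `R ^ t * P ≤ (|Y|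
+ 1) ^ d`. -/
def T_LW : Prop := ∀ (X : Type u) [Fintype X] [DecidableEq X] (G : Finset (Finset X))
  (U : Finset X) (R d : ℕ), 2 ≤ R → IsLink G U R → TraceBd G d →
  ∃ p : Finset X → ℝ, H1 p R d ∧ (∀ T, up p T * (R : ℝ) ^ T.card ≤ 1) ∧
    ∀ A, 0 < p A → ∃ S ∈ G, A = S \ U

/-! ### Part 2: product measures and fragments -/

/-- EC (union of two independent random sets). Proof: compare the coefficients of `f W`: with `n =
|X|` and `W₁ ∪ W₂ = W` the sum of `wt a W₁ * wt b W₂` is `∑ W₁ ⊆ W, a ^ |W₁| (1 - a) ^ (n - |W₁|)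
∑ V ⊆ W₁, b ^ (|W \ W₁| + |V|) (1 - b) ^ (n - |W| + |W₁| - |V|)` (`W₂ = (W \ W₁) ∪ V`), the inner
sum is `b ^ |W \ W₁| (1 - b) ^ (n - |W|)` (binomial theorem, `Finset.sum_pow_mul_eq_add_pow`), and
then `((1 - a) (1 - b)) ^ (n - |W|) ∑ W₁ ⊆ W, a ^ |W₁| ((1 - a) b) ^ |W \ W₁|`, the last sum is
`(a + (1 - a) b) ^ |W|`, and `a + (1 - a) b = 1 - (1 - a) (1 - b)`. (Another way: induction on the
ground set with `wt` as a product over the points, `Finset.prod_add`.) -/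
def T_EC : Prop := ∀ (X : Type u) [Fintype X] [DecidableEq X] (a b : ℝ) (f : Finset X → ℝ),
  Ex a (fun W₁ => Ex b (fun W₂ => f (W₁ ∪ W₂))) = Ex (1 - (1 - a) * (1 - b)) f

/-- CO (colour classes). Proof: the number of `χ : X → Fin K` whose class of `i` is `W` is
`(K - 1) ^ (n - |W|)` (free choice of a colour `≠ i` outside `W`), and
`K ^ n * wt (1 / K) W = K ^ n * (1 / K) ^ |W| * ((K - 1) / K) ^ (n - |W|) = (K - 1) ^ (n - |W|)`,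
`n = |X|`; sum over the `W` with `P W` (`card_eq_sum_card_fiberwise`). -/
def T_CO : Prop := ∀ (X : Type u) [Fintype X] [DecidableEq X] (K : ℕ) (i : Fin K)
  (P : Finset X → Prop) [DecidablePred P],
  ((univ.filter fun χ : X → Fin K => P (univ.filter fun x => χ x = i)).card : ℝ) =
    (K : ℝ) ^ Fintype.card X * Ex (1 / (K : ℝ)) (fun W => if P W then 1 else 0)

/-- OR (one round). Proof: let `supp` be the set of `A` with `0 < p A`. For `W` and `A ∈ supp` let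
`T(A, W)` be a set of minimal size among the sets `A' \ W` with `A' ∈ supp` and `A' \ W ⊆ A \ W`
(`A \ W` is one of them), and `p' W T = ∑ A ∈ supp with T(A, W) = T, p A` if `|T| ≤ s`, else `0`.
The first three claims are clear: `T = A' \ W` gives `A' ⊆ T ∪ W`, and `T(A, W) ⊆ A`. Last claim:
`∑ A, p A - ∑ T, p' W T = ∑ A ∈ supp with s < |T(A, W)|, p A`. For `Z` such that a member of
`supp` is contained in `Z` choose such a member `A*(Z)`. If `s < |T|`, `T = T(A, W)`, put `Z = W ∪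
T`; then `W = Z \ T` (as `T ∩ W = ∅`), some `A' ∈ supp` is contained in `Z`, and `A*(Z) \ W ⊆ Z \
W = T ⊆ A \ W`, so `|A*(Z) \ W| ≥ |T|` by the minimality of `T`, so `A*(Z) \ W = T` and `T ⊆ A ∩
A*(Z)`. The map `(W, A) ↦ (Z, A, T)` is injective, and `wt q (Z \ T) = wt q Z * ((1 - q) / q) ^
|T| ≤ wt q Z * (1 / q) ^ |T|` for `T ⊆ Z`. Hence `Ex q (...) = ∑ W, wt q W ∑ A with s < |T(A, W)|,
p A ≤ ∑ Z (with A*(Z)), wt q Z ∑ A, p A ∑ T ⊆ A ∩ A*(Z) with s < |T|, (1 / q) ^ |T| ≤ L ∑ Z, wt q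
Z = L` (`sum_wt`). -/
def T_OR : Prop := ∀ (X : Type u) [Fintype X] [DecidableEq X] (p : Finset X → ℝ) (q L : ℝ)
  (s : ℕ), (∀ A, 0 ≤ p A) → 0 < q → q ≤ 1 → 0 ≤ L →
  (∀ A₀, 0 < p A₀ →
    ∑ A, p A * ∑ T ∈ (A ∩ A₀).powerset with s < T.card, (1 / q) ^ T.card ≤ L) →
  ∃ p' : Finset X → Finset X → ℝ, (∀ W T, 0 ≤ p' W T) ∧
    (∀ W T, 0 < p' W T → T.card ≤ s ∧ ∃ A, 0 < p A ∧ A ⊆ T ∪ W) ∧
    (∀ W T, up (p' W) T ≤ up p T) ∧
    Ex q (fun W => ∑ A, p A - ∑ T, p' W T) ≤ L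

/-- LL (the loss of a round for small sets). Proof: exchange the sums: the left side is
`∑ T ⊆ A₀ with s < |T|, (1 / q) ^ |T| * up p T ≤ ∑ T ⊆ A₀ with s < |T|, (1 / (q R)) ^ |T|
  ≤ 2 ^ |A₀| * (1 / 64) ^ (s + 1)`, and `|A₀| ≤ 2 s + 1`, `2 ^ (2 s + 1) / 64 ^ (s + 1) =
(1 / 2) (1 / 16) ^ (s + 1)`. -/
def T_LL : Prop := ∀ (X : Type u) [Fintype X] [DecidableEq X] (p : Finset X → ℝ) (q : ℝ)
  (R s : ℕ) (A₀ : Finset X), (∀ A, 0 ≤ p A) → 0 < q → 64 ≤ q * R →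
  (∀ T, up p T * (R : ℝ) ^ T.card ≤ 1) → A₀.card ≤ 2 * s + 1 →
  ∑ A, p A * ∑ T ∈ (A ∩ A₀).powerset with s < T.card, (1 / q) ^ T.card ≤
    1 / 2 * (1 / 16) ^ (s + 1)

/-- IT (iteration). Proof: induction on `n`, for all `ℓ` and `p`. Let `c n = 1 - (1 - q) ^ n ∈ [0,
1]`. `n = 0`: `bad ≤ 1 ≤ 4 ^ ℓ`. `ℓ = 0`: the mass is at least `1/4 > 0`, so there is `A` with `0
< p A`, `|A| < 1`, so `A = ∅` and `bad p W = 0` for all `W`. Step `(n + 1, ℓ + 1)`: `T_OR` with `s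
= 2 ^ ℓ - 1` and `L = 1 / 2 * (1 / 16) ^ (2 ^ ℓ)` (`T_LL`, `|A₀| ≤ 2 ^ (ℓ + 1) - 1 = 2 s + 1`)
gives `p'`. Call `W₁` fine if `∑ p - ∑ p' W₁ ≤ θ = (1/2) ^ (ℓ + 3)`. For fine `W₁` the law `p' W₁`
satisfies the hypotheses for `ℓ` (mass at least `1/2 - (1/2) ^ (ℓ + 3) - (1/2) ^ (ℓ + 3) = 1/2 -
(1/2) ^ (ℓ + 2)`) and `bad p (W₁ ∪ W₂) ≤ bad (p' W₁) W₂` (if `0 < p' W₁ T`, `T ⊆ W₂` then some `A
⊆ T ∪ W₁ ⊆ W₁ ∪ W₂` has `0 < p A`), so `Ex (c n) (fun W₂ => bad p (W₁ ∪ W₂)) ≤ 4 ^ ℓ / 2 ^ n`. For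
all `W₁`: `bad p (W₁ ∪ W₂) ≤ bad p W₂`, so it is at most `4 ^ (ℓ + 1) / 2 ^ n` (induction for `ℓ +
1`, `p`). By Markov the `wt q`-measure of the `W₁` which are not fine is at most `L / θ = 2 ^ (ℓ +
2) / 16 ^ (2 ^ ℓ) ≤ 1 / 4` (`2 ^ ℓ ≥ ℓ + 1`). With `T_EC` (`a = q`, `b = c n`, `1 - (1 - q) (1 - c
n) = c (n + 1)`): `Ex (c (n + 1)) (bad p) ≤ 4 ^ ℓ / 2 ^ n + 4 ^ (ℓ + 1) / (4 * 2 ^ n) = 4 ^ (ℓ +
1) / 2 ^ (n + 1)`. Hypotheses: T_EC, T_OR, T_LL. -/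
def T_IT : Prop := ∀ (X : Type u) [Fintype X] [DecidableEq X] (q : ℝ) (R : ℕ), 0 < q → q ≤ 1 →
  64 ≤ q * R → ∀ (n ℓ : ℕ) (p : Finset X → ℝ), (∀ A, 0 ≤ p A) →
  (∀ A, 0 < p A → A.card < 2 ^ ℓ) → 1 / 2 - (1 / 2 : ℝ) ^ (ℓ + 2) ≤ ∑ A, p A →
  (∀ T, up p T * (R : ℝ) ^ T.card ≤ 1) →
  Ex (1 - (1 - q) ^ n) (bad p) ≤ (4 : ℝ) ^ ℓ / 2 ^ n

/-- SL (one link). Proof: let `g A₀ = ∑ A with s < |A ∩ A₀|, p A * (1 + 1 / q) ^ |A ∩ A₀|`; the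
hypothesis is `∑ A₀, p A₀ * g A₀ ≤ η` (so `0 ≤ η`). Let `p₁ A = p A` if `g A ≤ 4 η`, else `0`.
Markov: the mass of `p₁` is at least `3/4` (if `p A > 0` and `g A > 4 η` for some `A` then `4 η *
∑ (g A > 4 η), p A < η` or so; for `η = 0` no `A` with `0 < p A` has `g A > 0`). `T_OR` for `p₁`
and `L = 4 η`: for `0 < p₁ A₀`, `∑ A, p₁ A ∑ T ⊆ A ∩ A₀ with s < |T|, (1 / q) ^ |T| ≤ ∑ A with s <
|A ∩ A₀|, p A (1 + 1 / q) ^ |A ∩ A₀| = g A₀ ≤ 4 η` (`∑ T ⊆ Y, x ^ |T| = (1 + x) ^ |Y|`). Let `W₁`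
be fine if the loss `∑ p₁ - ∑ p' W₁` is at most `1/4`; the others have measure at most `16 η`
(Markov). For fine `W₁` the law `p' W₁` has mass at least `1/2`, sizes at most `s < 2 ^ ℓ` and `up
(p' W₁) T ≤ up p₁ T ≤ up p T`, so `T_IT` gives `Ex (1 - (1 - q) ^ n) (bad (p' W₁)) ≤ 4 ^ ℓ / 2 ^
n`, and `bad p (W₁ ∪ W₂) ≤ bad (p' W₁) W₂`; for the other `W₁` use `bad ≤ 1`. Then `T_EC` (`a =
q`, `b = 1 - (1 - q) ^ n`). Hypotheses: T_EC, T_OR, T_IT. -/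
def T_SL : Prop := ∀ (X : Type u) [Fintype X] [DecidableEq X] (p : Finset X → ℝ) (q η : ℝ)
  (R ℓ n s : ℕ), 0 < q → q ≤ 1 → 64 ≤ q * R → s < 2 ^ ℓ → (∀ A, 0 ≤ p A) → ∑ A, p A = 1 →
  (∀ T, up p T * (R : ℝ) ^ T.card ≤ 1) →
  ∑ A₀, ∑ A with s < (A ∩ A₀).card, p A₀ * p A * (1 + 1 / q) ^ (A ∩ A₀).card ≤ η →
  Ex (1 - (1 - q) ^ (n + 1)) (bad p) ≤ (4 : ℝ) ^ ℓ / 2 ^ n + 16 * η

/-! ### Part 3: the popularity lemma -/

/-- PA. Proof: `∑ x ∈ Y, pop p x = ∑ A, p A * |A ∩ Y| = ∑ t ∈ Icc 1 |Y|, P (|A ∩ Y| ≥ t)`. The terms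
with `t ≤ t₀` are at most `1`, and those with `t > t₀` are at most
`2 (|Y| + 1) ^ D / R ^ t ≤ R ^ t₀ / R ^ t ≤ 2 ^ (-(t - t₀))`, with sum at most `1`. -/
def T_PA : Prop := ∀ (X : Type u) [Fintype X] [DecidableEq X] (p : Finset X → ℝ)
  (R D t₀ : ℕ) (Y : Finset X), H1 p R D → 2 ≤ R → 2 * (Y.card + 1) ^ D ≤ R ^ t₀ →
  ∑ x ∈ Y, pop p x ≤ t₀ + 1

/-- PB. Proof: otherwise choose `Y ⊆ Pj p R j` with `|Y| = R ^ (2 * j + D + 5)`. Then `R ^ j * ∑ x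
∈ Y, pop p x ≥ |Y|`, so `∑ x ∈ Y, pop p x ≥ R ^ (j + D + 5) ≥ 2 ^ (j + D + 5)`. But `|Y| + 1 ≤ R ^
(2 * j + D + 6)`, so `2 (|Y| + 1) ^ D ≤ R ^ (D * (2 * j + D + 6) + 1)` and `T_PA` gives `∑ x ∈ Y,
pop p x ≤ D * (2 * j + D + 6) + 2`. Contradiction, as `D * (2 * j + D + 6) + 2 < 2 ^ (j + D + 5)`:
`2 ^ j ≥ j + 1`, `2 ^ (D + 5) = 32 * 2 ^ D`, and `32 * 2 ^ D ≥ 2 * D`, `32 * 2 ^ D > D ^ 2 + 6 * D
+ 2` (induction on `D`). Hypothesis: T_PA. -/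
def T_PB : Prop := ∀ (X : Type u) [Fintype X] [DecidableEq X] (p : Finset X → ℝ) (R D j : ℕ),
  H1 p R D → 2 ≤ R → (Pj p R j).card < R ^ (2 * j + D + 5)

/-- PC. Proof: let `a j = ∑ x ∈ Pj p R j, pop p x`. By `T_PB`, `|Pj| + 1 ≤ R ^ (2 * j + D + 5)`,
so `T_PA` with `t₀ = D * (2 * j + D + 5) + 1` gives `a j ≤ D * (2 * j + D + 5) + 2`, so `a (j + 1)
≤ 2 * D * j + e` with `e = D ^ 2 + 7 * D + 2`. Let `S j` be the sum on the left side (without the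
factor). A point outside `Pj p R j` has `R ^ j * pop p x < 1`, so `R ^ j * S j ≤ a (j + 1) + R ^ j
* S (j + 1)` (points in `Pj p R (j + 1)`: `R ^ j * pop ^ 2 ≤ pop`; the others). `S J = 0` for
large `J` (all positive popularities are at least `R ^ (-J)`). Downward induction: with `B j = 4 *
D * j + 2 * e + 4 * D` (which is the right side) `R ^ j * S j ≤ B j` follows from `R ^ (j + 1) * S
(j + 1) ≤ B (j + 1)`, as `2 * D * j + e + B (j + 1) / R ≤ 2 * D * j + e + B (j + 1) / 2 = B j`.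
Hypotheses: T_PA, T_PB. -/
def T_PC : Prop := ∀ (X : Type u) [Fintype X] [DecidableEq X] (p : Finset X → ℝ) (R D j : ℕ),
  H1 p R D → 2 ≤ R →
  (R : ℝ) ^ j * ∑ x with x ∉ Pj p R j, pop p x ^ 2 ≤
    4 * (D : ℝ) * j + 2 * (D : ℝ) ^ 2 + 18 * D + 4

/-- PD (two independent random sets). Proof: put `j = 2 * t`, `P = Pj p R j`, `h = D * (4 * t + D
+ 5) + 1 + 2 * t`. If `t ≤ |A ∩ A'|` then (1) `A ∩ A'` contains a point outside `P`, or (2) `h <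
|A ∩ P|`, or (3) `|A ∩ P| ≤ h` and `t ≤ |A' ∩ (A ∩ P)|`. (1) has probability at most `∑ x ∉ P, pop
p x ^ 2 ≤ R ^ (-2 * t) * (8 * D * t + 2 * D ^ 2 + 18 * D + 4)` by `T_PC`. (2): `H1` with `Y = P`:
at most `2 (|P| + 1) ^ D / R ^ (h + 1) ≤ R ^ (D * (4 * t + D + 5) + 1 - h - 1) ≤ R ^ (-2 * t)` by
`T_PB`. (3): for every `A`, `H1` with `Y = A ∩ P`: at most `2 (h + 1) ^ D / R ^ t`. Hypotheses:
T_PB, T_PC. -/
def T_PD : Prop := ∀ (X : Type u) [Fintype X] [DecidableEq X] (p : Finset X → ℝ) (R D t : ℕ),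
  H1 p R D → 2 ≤ R →
  meet p t * (R : ℝ) ^ t ≤ 2 * ((4 * D + 2) * t + D ^ 2 + 5 * D + 2 : ℝ) ^ D +
    (8 * D * t + 2 * D ^ 2 + 18 * D + 5) / (R : ℝ) ^ t

/-- PN (numerics for PD). Proof: let `n = t / D`, so `D * n ≤ t < D * (n + 1)` and `n ≥ D ^ 2 +
11`. Then `t ≥ D ^ 2 + 5 * D + 2`, so `(4 * D + 2) * t + D ^ 2 + 5 * D + 2 ≤ (4 * D + 3) * t ≤ 7 *
D * t ≤ 7 * D ^ 2 * (n + 1)`, and `14 * D ^ 2 * (n + 1) ≤ 14 * n * (n + 1) ≤ 2 ^ n` (induction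
from `n = 12`; here `n ≥ 12` as `D ≥ 1`). So `2 * (...) ^ D ≤ (14 * D ^ 2 * (n + 1)) ^ D ≤ 2 ^ (D
* n) ≤ 2 ^ t`. For the second claim: `2 ^ t ≥ 2 ^ n ≥ 14 * D ^ 2 * (n + 1) ≥ 14 * D * t` and `6 *
D * t ≥ 6 * D * (D ^ 3 + 11 * D) ≥ 2 * D ^ 2 + 18 * D + 5`. -/
def T_PN : Prop := ∀ D t : ℕ, 1 ≤ D → D ^ 3 + 11 * D ≤ t →
  2 * ((4 * D + 2) * t + D ^ 2 + 5 * D + 2) ^ D ≤ 2 ^ t ∧
  8 * D * t + 2 * D ^ 2 + 18 * D + 5 ≤ 2 ^ t

/-- PE (the popularity lemma). Proof: `T_PD` and `T_PN`: `meet p t * R ^ t ≤ 2 ^ t + 2 ^ t / R ^ t ≤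
2 ^ t + 1 ≤ 4 ^ t` (`t ≥ 1`). Hypotheses: T_PD, T_PN. -/
def T_PE : Prop := ∀ (X : Type u) [Fintype X] [DecidableEq X] (p : Finset X → ℝ) (R D t : ℕ),
  H1 p R D → 2 ≤ R → 1 ≤ D → D ^ 3 + 11 * D ≤ t → meet p t * (R : ℝ) ^ t ≤ 4 ^ t

/-- EX (from `meet` to exponential moments). Proof: for a natural number `z ≤ |X|` with `s < z`,
`g ^ z ≤ ∑ t ∈ Icc (s + 1) |X| with t ≤ z, g ^ t`. So the left side is at most
`∑ t ∈ Icc (s + 1) |X|, g ^ t * meet p t ≤ ∑ t ≥ s + 1, (4 * g / R) ^ t ≤ ∑ t ≥ s + 1, (1 / 8) ^ t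
≤ (1 / 8) ^ s`, where `g = 1 + 1 / q ≤ 2 / q` and `4 * g / R ≤ 8 / (q * R) ≤ 1 / 8`. -/
def T_EX : Prop := ∀ (X : Type u) [Fintype X] [DecidableEq X] (p : Finset X → ℝ) (q : ℝ)
  (R s : ℕ), (∀ A, 0 ≤ p A) → 0 < q → q ≤ 1 → 64 ≤ q * R →
  (∀ t, s < t → meet p t * (R : ℝ) ^ t ≤ 4 ^ t) →
  ∑ A₀, ∑ A with s < (A ∩ A₀).card, p A₀ * p A * (1 + 1 / q) ^ (A ∩ A₀).card ≤
    (1 / 8 : ℝ) ^ s

/-- ON (one link, one colour). Proof: put `q = 1 - (1 - 1 / K) ^ (1 / (n + 1) : ℝ)` (real power),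
so `(1 - q) ^ (n + 1) = 1 - 1 / K` and `q ≥ 1 / (K * (n + 1))` by Bernoulli (`(1 + x) ^ a ≤ 1 + a
* x` for `0 ≤ a ≤ 1`, `Real.rpow_one_add_le_one_add_mul_self`), so `64 ≤ q * R`. Let `p` be the
law of the link (`T_LW`). `T_PE` and `T_EX` give the hypothesis of `T_SL` with `η = (1 / 8) ^ s`.
So `T_SL` gives `Ex (1 / K) (bad p) ≤ 4 ^ ℓ / 2 ^ n + 16 * (1 / 8) ^ s`. If no `S ∈ G` has `S \ U
⊆ W` then `bad p W = 1` (`0 < p A` gives `A = S \ U`). Conclude with `T_CO`. Hypotheses: T_LW,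
T_PE, T_EX, T_SL, T_CO. -/
def T_ON : Prop := ∀ (X : Type u) [Fintype X] [DecidableEq X] (G : Finset (Finset X))
  (U : Finset X) (R d K ℓ n s : ℕ), IsLink G U R → TraceBd G d → 1 ≤ d → 1 ≤ K →
  64 * K * (n + 1) ≤ R → d ^ 3 + 11 * d ≤ s → s < 2 ^ ℓ → ∀ i : Fin K,
  ((univ.filter fun χ : X → Fin K => ¬ ∃ S ∈ G, ∀ x ∈ S \ U, χ x = i).card : ℝ) ≤
    (K : ℝ) ^ Fintype.card X * ((4 : ℝ) ^ ℓ / 2 ^ n + 16 * (1 / 8) ^ s)

/-! ### Part 4: boosting -/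

/-- LA (the law of disjoint tuples). Proof: let `𝒢` be the set of the good `χ` (those in the last
hypothesis). For `χ ∈ 𝒢` choose `S i ∈ G`, `i : Fin k`, and put `B χ = {(x, i) | x ∈ S i \ U}`, so
`slice (B χ) i = S i \ U` and `(x, i) ∈ B χ` implies `χ x = i`. Let `lam B₀ = |{χ ∈ 𝒢 | B χ = B₀}|
/ |𝒢|`, so `∑ B₀ with Q B₀, lam B₀ = |{χ ∈ 𝒢 | Q (B χ)}| / |𝒢|`. `H1`: let `Y ⊆ X × Fin k`, `Y i =
slice Y i`. The set `V = B χ ∩ Y` is determined by the traces `(S i \ U) ∩ Y i = S i ∩ (Y i \ U)`,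
so it takes at most `∏ i, (|Y i \ U| + 1) ^ d ≤ (|Y| + 1) ^ (k * d)` values; for a fixed `V` with
`t ≤ |V|` the number of `χ` with `B χ ∩ Y = V` is at most the number of `χ` with `χ x = i` for all
`(x, i) ∈ V`, which is at most `K ^ (|X| - |V|)` (if `V` contains `(x, i)` and `(x, j)` with `i ≠
j` there is none; so `V` has `|V|` different first components), so `K ^ t * |{χ ∈ 𝒢 | B χ ∩ Y =
V}| ≤ K ^ |X| ≤ 2 * |𝒢|`. -/
def T_LA : Prop := ∀ (X : Type u) [Fintype X] [DecidableEq X] (G : Finset (Finset X))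
  (U : Finset X) (d K k : ℕ) (hk : k ≤ K), G.Nonempty → TraceBd G d → 1 ≤ k →
  K ^ Fintype.card X ≤ 2 * (univ.filter fun χ : X → Fin K =>
    ∀ i : Fin k, ∃ S ∈ G, ∀ x ∈ S \ U, χ x = Fin.castLE hk i).card →
  ∃ lam : Finset (X × Fin k) → ℝ, H1 lam K (k * d) ∧
    ∀ B, 0 < lam B → (∀ x i j, (x, i) ∈ B → (x, j) ∈ B → i = j) ∧
      ∀ i, ∃ S ∈ G, slice B i = S \ U

/-- LB (a law avoiding `J`). Proof: `T_LK` gives the link `(G, U)`; `TraceBd G d` as `G ⊆ F`. By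
`T_ON` with `K = 16 * k` the number of `χ : X → Fin K` for which a colour `i < k` has no `S ∈ G`
with `S \ U` in the class of `i` is at most `k * K ^ |X| * (1 / (2 * k)) = K ^ |X| / 2`. `T_LA`
gives `lam`. `Good F J B` for `0 < lam B`: the set is `U`; `slice B i = S \ U` is disjoint from
`U` and from `J`, it is not empty because `|S| = w > |U|`, and `U ∪ (S \ U) = S ∈ F`. Hypotheses:
T_LK, T_ON, T_LA. -/
def T_LB : Prop := ∀ (X : Type u) [Fintype X] [DecidableEq X] (F : Finset (Finset X))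
  (J : Finset X) (w R d k ℓ n s : ℕ), 1 ≤ k → 1 ≤ d → (∀ S ∈ F, S.card = w) → TraceBd F d →
  64 * (16 * k) * (n + 1) ≤ R → d ^ 3 + 11 * d ≤ s → s < 2 ^ ℓ →
  (4 : ℝ) ^ ℓ / 2 ^ n + 16 * (1 / 8) ^ s ≤ 1 / (2 * k) → R ^ w * (J.card + 1) ^ d < F.card →
  ∃ lam : Finset (X × Fin k) → ℝ, H1 lam (16 * k) (k * d) ∧ ∀ B, 0 < lam B → Good F J B

/-- MX (mixing the laws). Proof: by induction on `t ≤ m` there is `Λ : Finset (X × Fin k) → ℝ`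
with `0 ≤ Λ`, `∑ Λ = t`, `K ^ u * ∑ B with u ≤ |B ∩ Y|, Λ B ≤ 2 * t * (|Y| + 1) ^ D`, `Good F ∅ B`
for `0 < Λ B`, and `P x = ∑ B with (∃ i, (x, i) ∈ B), Λ B ≤ 2` for all `x`. `t = 0`: `Λ = 0`.
Step: let `J = {x | 1 < P x}`. `∑ x, P x = ∑ B, Λ B * |{x | ∃ i, (x, i) ∈ B}| ≤ k * t * w` (for
`Good` sets the components have at most `w` elements, as `U ∪ slice B i ∈ F`), so `|J| ≤ k * m *
w` and the hypothesis applies to `J`. Put `Λ' = Λ + lam`. For `x ∈ J` the point `x` is in no `B`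
with `0 < lam B` (`Good F J B`), so `P' x = P x ≤ 2`; for `x ∉ J`, `P' x ≤ P x + ∑ lam ≤ 1 + 1`.
Finally `p = Λ / m`, and `pop p (x, i) ≤ P x / m`. -/
def T_MX : Prop := ∀ (X : Type u) [Fintype X] [DecidableEq X] (F : Finset (Finset X))
  (w N d K k D m : ℕ), 1 ≤ m → (∀ S ∈ F, S.card = w) →
  (∀ J : Finset X, N * (J.card + 1) ^ d < F.card →
    ∃ lam : Finset (X × Fin k) → ℝ, H1 lam K D ∧ ∀ B, 0 < lam B → Good F J B) →
  N * (k * m * w + 1) ^ d < F.card →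
  ∃ p : Finset (X × Fin k) → ℝ, H1 p K D ∧ (∀ B, 0 < p B → Good F ∅ B) ∧
    ∀ z, pop p z ≤ 2 / m

/-- SM (second moment). Proof: for `χ : X → Fin k` write `B ≺ χ` if `χ x = i` for all `(x, i) ∈
B`, and `N χ = ∑ B with B ≺ χ, p B * k ^ |B|`. If `0 < p B` then `|{χ | B ≺ χ}| * k ^ |B| = k ^
n`, `n = |X|` (the components are disjoint, so the colour is prescribed at `|B|` points), so `∑ χ,
N χ = k ^ n`. For all `B, B'` with `0 < p B`, `0 < p B'`: `|{χ | B ≺ χ, B' ≺ χ}| * k ^ (|B| +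
|B'|) ≤ k ^ n * k ^ |B ∩ B'|` (if there is such a `χ` the colour is prescribed at `|B ∪ B'|`
points). So `∑ χ, (N χ - 1) ^ 2 = ∑ χ, N χ ^ 2 - k ^ n ≤ k ^ n * (∑ B, B', p B * p B' * (k ^ |B ∩
B'| - 1))`, and the left side is at least the number of `χ` with `N χ = 0`. Finally `k ^ z - 1 ≤ ∑
t ∈ Icc 1 M with t ≤ z, k ^ t` for `z ≤ M = |X| * k`. -/
def T_SM : Prop := ∀ (X : Type u) [Fintype X] [DecidableEq X] (k : ℕ)
  (p : Finset (X × Fin k) → ℝ), 1 ≤ k → (∀ B, 0 ≤ p B) → ∑ B, p B = 1 →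
  (∀ B, 0 < p B → ∀ x i j, (x, i) ∈ B → (x, j) ∈ B → i = j) →
  ((univ.filter fun χ : X → Fin k => ¬ ∃ B, 0 < p B ∧ ∀ z ∈ B, χ z.1 = z.2).card : ℝ) ≤
    (k : ℝ) ^ Fintype.card X *
      ∑ t ∈ Icc 1 (Fintype.card X * k), (k : ℝ) ^ t * meet p t

/-- SU (the sum). Proof: `Z` any type. For `t ≥ 1`: `meet p t ≤ ∑ z, pop p z ^ 2` (if `A ∩ A' ≠ ∅`
it contains a point), and `Pj p K j = ∅` as `K ^ j * pop p z < 1`, so by `T_PC` `meet p t ≤ Q / K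
^ j`, `Q = 4 * D * j + 2 * D ^ 2 + 18 * D + 4`. So with `K = 16 * k`: `∑ t ∈ Icc 1 j, k ^ t * meet
p t ≤ 2 * k ^ j * Q / K ^ j = 2 * Q / 16 ^ j` (`k ≥ 2`). For `t > j`, `T_PE`: `k ^ t * meet p t ≤
(4 * k / K) ^ t = (1 / 4) ^ t`, sum at most `(1 / 4) ^ j`. By `T_PN` (with `t = j`; `4 * D * j + 2
* D ^ 2 + 18 * D + 4 ≤ 2 ^ j`) `2 * Q / 16 ^ j ≤ 2 / 8 ^ j ≤ 2 / 4 ^ j`. Hypotheses: T_PC, T_PE,
T_PN. -/
def T_SU : Prop := ∀ (Z : Type u) [Fintype Z] [DecidableEq Z] (p : Finset Z → ℝ)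
  (k D j M : ℕ), 2 ≤ k → 1 ≤ D → H1 p (16 * k) D → D ^ 3 + 11 * D ≤ j →
  (∀ z, ((16 * k : ℕ) : ℝ) ^ j * pop p z < 1) →
  ∑ t ∈ Icc 1 M, (k : ℝ) ^ t * meet p t ≤ 3 / 4 ^ j

end Pool.Agent.VCS
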